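import Pool.Agent.Q207.UR.Ord

namespace Q207.UR

/-- every nonempty subset of `S` has a least element -/
def WO {A : Type*} [LinearOrder A] (S : Set A) : Prop :=
  ∀ T ⊆ S, T.Nonempty → ∃ m ∈ T, ∀ t ∈ T, m ≤ t

section
variable {A : Type*} [LinearOrder A]

theorem WO.mono {S T : Set A} (h : WO S) (hT : T ⊆ S) : WO T :=
  fun U hU hne => h U (hU.trans hT) hne

theorem WO.union {S T : Set A} (hS : WO S) (hT : WO T) : WO (S ∪ T) := by
  intro U hU hne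
  by_cases h1 : (U ∩ S).Nonempty
  · obtain ⟨m, hm, hm'⟩ := hS (U ∩ S) Set.inter_subset_right h1
    by_cases h2 : (U ∩ T).Nonempty
    · obtain ⟨n, hn, hn'⟩ := hT (U ∩ T) Set.inter_subset_right h2
      rcases le_total m n with h3 | h3
      · refine ⟨m, hm.1, fun t ht => ?_⟩
        rcases hU ht with h4 | h4
        · exact hm' t ⟨ht, h4⟩
        · exact h3.trans (hn' t ⟨ht, h4⟩)
      · refine ⟨n, hn.1, fun t ht => ?_⟩
        rcases hU ht with h4 | h4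
        · exact h3.trans (hm' t ⟨ht, h4⟩)
        · exact hn' t ⟨ht, h4⟩
    · refine ⟨m, hm.1, fun t ht => ?_⟩
      rcases hU ht with h4 | h4
      · exact hm' t ⟨ht, h4⟩
      · exact absurd ⟨t, ht, h4⟩ h2
  · have h2 : U ⊆ T := fun t ht => (hU ht).resolve_left fun h => h1 ⟨t, ht, h⟩
    exact hT U h2 hne

theorem WO.finite {S : Set A} (hS : S.Finite) : WO S := by
  intro T hT hne
  obtain ⟨m, hm, hm'⟩ := (hS.subset hT).exists_minimal hne
  refine ⟨m, hm, fun t ht => ?_⟩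
  rcases le_total m t with h | h
  · exact h
  · exact hm' ht h

theorem WO.no_desc {S : Set A} (hS : WO S) (f : ℕ → A) (hf : ∀ n, f n ∈ S)
    (hd : ∀ n, f (n + 1) < f n) : False := by
  obtain ⟨m, ⟨n, rfl⟩, hm⟩ := hS (Set.range f) (by rintro _ ⟨n, rfl⟩; exact hf n) ⟨f 0, 0, rfl⟩
  exact absurd (hm (f (n + 1)) ⟨_, rfl⟩) (not_le.2 (hd n))

theorem WO.rigid {S : Set A} (hS : WO S) (g : A ≃o A) (h1 : ∀ a ∈ S, g a ∈ S)
    (h2 : ∀ a ∈ S, g.symm a ∈ S) : ∀ a ∈ S, g a = a := by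
  by_contra hcon
  push Not at hcon
  obtain ⟨a, ha, ha'⟩ := hcon
  obtain ⟨m, ⟨hm, hm'⟩, hmin⟩ := hS {a | a ∈ S ∧ g a ≠ a} (fun a ha => ha.1) ⟨a, ha, ha'⟩
  rcases lt_or_gt_of_ne hm' with h3 | h3
  · have h4 : g (g m) = g m := by
      by_contra h5
      exact absurd (hmin _ ⟨h1 m hm, h5⟩) (not_le.2 h3)
    exact hm' (g.injective h4)
  · have h4 : g.symm m < m := by
      rw [← g.lt_iff_lt, g.apply_symm_apply]
      exact h3
    have h5 : g (g.symm m) = g.symm m := by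
      by_contra h5
      exact absurd (hmin _ ⟨h2 m hm, h5⟩) (not_le.2 h4)
    rw [g.apply_symm_apply] at h5
    exact h4.ne h5.symm

end

/-- saturation for small sets -/
def Sat (A : Type 1) [LinearOrder A] : Prop :=
  ∀ L R : Set A, Small.{0} L → Small.{0} R → (∀ l ∈ L, ∀ r ∈ R, l < r) →
    ∃ x : A, (∀ l ∈ L, l < x) ∧ ∀ r ∈ R, x < r

/-- partial isomorphisms -/
def Good {A B : Type*} [LinearOrder A] [LinearOrder B] (P : Set (A × B)) : Prop :=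
  ∀ p ∈ P, ∀ q ∈ P, p.1 < q.1 ↔ p.2 < q.2

section
variable {W : Type*} [LinearOrder W] {A : Type 1} [LinearOrder A]

theorem Good.eq {P : Set (W × A)} (hP : Good P) {p q : W × A} (hp : p ∈ P) (hq : q ∈ P) :
    p.1 = q.1 ↔ p.2 = q.2 := by
  have h1 := hP p hp q hq
  have h2 := hP q hq p hp
  constructor
  · intro h
    rw [h] at h1 h2
    exact le_antisymm (not_lt.1 (mt h2.2 (lt_irrefl _))) (not_lt.1 (mt h1.2 (lt_irrefl _)))
  · intro h
    rw [h] at h1 h2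
    exact le_antisymm (not_lt.1 (mt h2.1 (lt_irrefl _))) (not_lt.1 (mt h1.1 (lt_irrefl _)))

theorem good_insert {P : Set (W × A)} (hP : Good P) {a : W} {b : A}
    (h1 : ∀ p ∈ P, p.1 < a → p.2 < b) (h2 : ∀ p ∈ P, a < p.1 → b < p.2)
    (h3 : ∀ p ∈ P, p.1 ≠ a) : Good (insert (a, b) P) := by
  have h4 : ∀ p ∈ P, (p.1 < a ↔ p.2 < b) ∧ (a < p.1 ↔ b < p.2) := by
    intro p hp
    rcases lt_or_gt_of_ne (h3 p hp) with h | h
    · have := h1 p hp h
      exact ⟨⟨fun _ => this, fun _ => h⟩, ⟨fun h' => absurd h' (not_lt.2 h.le),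
        fun h' => absurd h' (not_lt.2 this.le)⟩⟩
    · have := h2 p hp h
      exact ⟨⟨fun h' => absurd h' (not_lt.2 h.le), fun h' => absurd h' (not_lt.2 this.le)⟩,
        ⟨fun _ => this, fun _ => h⟩⟩
  rintro p (rfl | hp) q (rfl | hq)
  · exact ⟨fun h => absurd h (lt_irrefl _), fun h => absurd h (lt_irrefl _)⟩
  · exact (h4 q hq).2
  · exact (h4 p hp).1
  · exact hP p hp q hq

theorem exists_ext (hA : Sat A) {P : Set (W × A)} (hP : Good P) (hs : Small.{0} P) (a : W) :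
    ∃ b, Good (insert (a, b) P) := by
  by_cases h : ∃ p ∈ P, p.1 = a
  · obtain ⟨⟨a', b⟩, hp, rfl⟩ := h
    refine ⟨b, ?_⟩
    rw [Set.insert_eq_of_mem hp]
    exact hP
  · push Not at h
    have h1 : Small.{0} (Prod.snd '' {p ∈ P | p.1 < a}) := by
      have : Small.{0} {p ∈ P | p.1 < a} := small_subset (Set.sep_subset _ _)
      infer_instance
    have h2 : Small.{0} (Prod.snd '' {p ∈ P | a < p.1}) := by
      have : Small.{0} {p ∈ P | a < p.1} := small_subset (Set.sep_subset _ _)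
      infer_instance
    obtain ⟨b, hb1, hb2⟩ := hA _ _ h1 h2 (by
      rintro _ ⟨p, ⟨hp, hp'⟩, rfl⟩ _ ⟨q, ⟨hq, hq'⟩, rfl⟩
      exact (hP p hp q hq).1 (hp'.trans hq'))
    exact ⟨b, good_insert hP (fun p hp h' => hb1 _ ⟨p, ⟨hp, h'⟩, rfl⟩)
      (fun p hp h' => hb2 _ ⟨p, ⟨hp, h'⟩, rfl⟩) h⟩

/-- small partial isomorphisms from a small order extend to embeddings -/
theorem forth (hA : Sat A) (S : Set W) (hS : Small.{0} S) (P : Set (W × A)) (hP : Good P)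
    (hPS : ∀ p ∈ P, p.1 ∈ S) :
    ∃ h : W → A, (∀ a ∈ S, ∀ b ∈ S, a < b → h a < h b) ∧ ∀ p ∈ P, h p.1 = p.2 := by
  classical
  obtain ⟨Q, hPQ, hQ⟩ := zorn_subset_nonempty {Q : Set (W × A) | Good Q ∧ ∀ p ∈ Q, p.1 ∈ S} (by
    intro c hc hchain hne
    refine ⟨⋃₀ c, ⟨?_, ?_⟩, fun s hs => Set.subset_sUnion_of_mem hs⟩
    · rintro p ⟨s, hs, hp⟩ q ⟨t, ht, hq⟩
      rcases hchain.total hs ht with h | h
      · exact (hc ht).1 p (h hp) q hq
      · exact (hc hs).1 p hp q (h hq)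
    · rintro p ⟨s, hs, hp⟩
      exact (hc hs).2 p hp) P ⟨hP, hPS⟩
  obtain ⟨⟨hQ1, hQ2⟩, hQ3⟩ := hQ
  have hQs : Small.{0} Q := by
    have h1 : Function.Injective (fun q : Q => (⟨q.1.1, hQ2 _ q.2⟩ : S)) := by
      intro q q' h
      have h2 : q.1.1 = q'.1.1 := congrArg Subtype.val h
      have h3 := (hQ1.eq q.2 q'.2).1 h2
      exact Subtype.ext (Prod.ext h2 h3)
    exact small_of_injective h1
  have hdom : ∀ a ∈ S, ∃ b, (a, b) ∈ Q := by
    intro a ha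
    obtain ⟨b, hb⟩ := exists_ext hA hQ1 hQs a
    refine ⟨b, hQ3 ⟨hb, ?_⟩ (Set.subset_insert _ _) (Set.mem_insert _ _)⟩
    rintro p (rfl | hp)
    · exact ha
    · exact hQ2 p hp
  obtain ⟨x0⟩ : Nonempty A := by
    obtain ⟨x, -⟩ := hA ∅ ∅ inferInstance inferInstance (by simp)
    exact ⟨x⟩
  refine ⟨fun a => if h : ∃ b, (a, b) ∈ Q then h.choose else x0, ?_, ?_⟩
  · intro a ha b hb hab
    have h1 := hdom a ha
    have h2 := hdom b hb
    simp only [dif_pos h1, dif_pos h2]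
    exact (hQ1 _ h1.choose_spec _ h2.choose_spec).1 hab
  · intro p hp
    have h1 : ∃ b, (p.1, b) ∈ Q := ⟨p.2, hPQ hp⟩
    simp only [dif_pos h1]
    exact (hQ1.eq h1.choose_spec (hPQ hp)).1 rfl

end

section
variable {A : Type 1} [LinearOrder A]

theorem Good.swap {P : Set (A × A)} (hP : Good P) : Good (Prod.swap ⁻¹' P) := by
  intro p hp q hq
  exact (hP _ hp _ hq).symm

theorem step (hA : Sat A) {j : A → Ordinal.{0}} (hj : Function.Injective j) (P : Set (A × A))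
    (β : Ordinal.{0}) : ∃ Q : Set (A × A), P ⊆ Q ∧ (Good P → Small.{0} P → Good Q ∧ Small.{0} Q ∧
      ∀ a, j a = β → (∃ b, (a, b) ∈ Q) ∧ ∃ b, (b, a) ∈ Q) := by
  by_cases h : Good P ∧ Small.{0} P ∧ ∃ a, j a = β
  · obtain ⟨h1, h2, a, ha⟩ := h
    obtain ⟨b, hb⟩ := exists_ext hA h1 h2 a
    have h3 : Small.{0} (insert (a, b) P : Set (A × A)) := small_insert _ _
    have h4 : Small.{0} (Prod.swap ⁻¹' (insert (a, b) P) : Set (A × A)) := by
      have : Prod.swap ⁻¹' (insert (a, b) P) = Prod.swap '' (insert (a, b) P) := by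
        rw [Set.image_swap_eq_preimage_swap]
      rw [this]
      infer_instance
    obtain ⟨c, hc⟩ := exists_ext hA hb.swap h4 a
    refine ⟨Prod.swap ⁻¹' (insert (a, c) (Prod.swap ⁻¹' (insert (a, b) P))), ?_, fun _ _ =>
      ⟨hc.swap, ?_, ?_⟩⟩
    · intro p hp
      right; right
      simpa using hp
    · have h5 : Small.{0} (insert (a, c) (Prod.swap ⁻¹' (insert (a, b) P)) : Set (A × A)) :=
        small_insert _ _
      have : Prod.swap ⁻¹' (insert (a, c) (Prod.swap ⁻¹' (insert (a, b) P))) =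
          Prod.swap '' (insert (a, c) (Prod.swap ⁻¹' (insert (a, b) P))) := by
        rw [Set.image_swap_eq_preimage_swap]
      rw [this]
      infer_instance
    · intro a' ha'
      have : a' = a := hj (ha'.trans ha.symm)
      subst this
      refine ⟨⟨b, ?_⟩, ⟨c, ?_⟩⟩
      · right; left; rfl
      · left; rfl
  · refine ⟨P, subset_rfl, fun h1 h2 => ⟨h1, h2, fun a ha => absurd ⟨h1, h2, a, ha⟩ h⟩⟩

theorem exists_aut (hA : Sat A) {j : A → Ordinal.{0}} (hj : Function.Injective j)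
    (P : Set (A × A)) (hP : Good P) (hs : Small.{0} P) :
    ∃ g : A ≃o A, ∀ p ∈ P, g p.1 = p.2 := by
  choose E hE1 hE2 using fun (P : Set (A × A)) (β : Ordinal.{0}) => step hA hj P β
  obtain ⟨F, hF⟩ : ∃ F : Ordinal.{0} → Set (A × A), ∀ β, F β = E (P ∪ ⋃ γ : Set.Iio β, F γ.1) β := by
    let F : Ordinal.{0} → Set (A × A) := WellFounded.fix (wellFounded_lt (α := Ordinal.{0}))
      (fun β ih => E (P ∪ ⋃ γ : Set.Iio β, ih γ.1 γ.2) β)
    exact ⟨F, fun β => WellFounded.fix_eq _ _ β⟩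
  have hmono : ∀ γ β, γ < β → F γ ⊆ F β := by
    intro γ β h p hp
    rw [hF β]
    apply hE1
    right
    exact Set.mem_iUnion.2 ⟨⟨γ, h⟩, hp⟩
  have hPF : ∀ β, P ⊆ F β := by
    intro β p hp
    rw [hF β]
    exact hE1 _ _ (Or.inl hp)
  have hprop : ∀ β, Good (F β) ∧ Small.{0} (F β) ∧
      ∀ a, j a = β → (∃ b, (a, b) ∈ F β) ∧ ∃ b, (b, a) ∈ F β := by
    intro β
    induction β using WellFoundedLT.induction with
    | ind β ih =>
    have h1 : Good (P ∪ ⋃ γ : Set.Iio β, F γ.1) := by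
      have h2 : ∀ p ∈ P ∪ ⋃ γ : Set.Iio β, F γ.1, p ∈ P ∨ ∃ γ < β, p ∈ F γ := by
        rintro p (hp | hp)
        · exact Or.inl hp
        · obtain ⟨γ, hγ⟩ := Set.mem_iUnion.1 hp
          exact Or.inr ⟨γ.1, γ.2, hγ⟩
      intro p hp q hq
      rcases h2 p hp with h3 | ⟨γ, h3, h4⟩
      · rcases h2 q hq with h5 | ⟨δ, h5, h6⟩
        · exact hP p h3 q h5
        · exact (ih δ h5).1 p (hPF δ h3) q h6
      · rcases h2 q hq with h5 | ⟨δ, h5, h6⟩
        · exact (ih γ h3).1 p h4 q (hPF γ h5)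
        · rcases lt_trichotomy γ δ with h7 | h7 | h7
          · exact (ih δ h5).1 p (hmono _ _ h7 h4) q h6
          · subst h7
            exact (ih γ h5).1 p h4 q h6
          · exact (ih γ h3).1 p h4 q (hmono _ _ h7 h6)
    have h2 : Small.{0} (P ∪ ⋃ γ : Set.Iio β, F γ.1 : Set (A × A)) := by
      have : ∀ γ : Set.Iio β, Small.{0} (F γ.1) := fun γ => (ih γ.1 γ.2).2.1
      have h3 : Small.{0} (⋃ γ : Set.Iio β, F γ.1 : Set (A × A)) := small_iUnion _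
      exact small_union _ _
    have h3 := hE2 _ β h1 h2
    rw [← hF β] at h3
    exact h3
  have hG : Good (⋃ β, F β) := by
    intro p hp q hq
    obtain ⟨β, hβ⟩ := Set.mem_iUnion.1 hp
    obtain ⟨γ, hγ⟩ := Set.mem_iUnion.1 hq
    rcases lt_trichotomy β γ with h7 | h7 | h7
    · exact (hprop γ).1 p (hmono _ _ h7 hβ) q hγ
    · subst h7
      exact (hprop β).1 p hβ q hγ
    · exact (hprop β).1 p hβ q (hmono _ _ h7 hγ)
  have h1 : ∀ a, ∃ b, (a, b) ∈ ⋃ β, F β := by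
    intro a
    obtain ⟨b, hb⟩ := ((hprop (j a)).2.2 a rfl).1
    exact ⟨b, Set.mem_iUnion.2 ⟨_, hb⟩⟩
  have h2 : ∀ a, ∃ b, (b, a) ∈ ⋃ β, F β := by
    intro a
    obtain ⟨b, hb⟩ := ((hprop (j a)).2.2 a rfl).2
    exact ⟨b, Set.mem_iUnion.2 ⟨_, hb⟩⟩
  choose g hg using h1
  have hmon : StrictMono g := fun a b hab => (hG _ (hg a) _ (hg b)).1 hab
  have hsurj : Function.Surjective g := by
    intro b
    obtain ⟨a, ha⟩ := h2 b
    exact ⟨a, (hG.eq (hg a) ha).1 rfl⟩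
  refine ⟨StrictMono.orderIsoOfSurjective g hmon hsurj, fun p hp => ?_⟩
  exact (hG.eq (hg p.1) (Set.mem_iUnion.2 ⟨0, hPF 0 hp⟩)).1 rfl

section
variable {X Y : Type*} [LinearOrder X] [LinearOrder Y]

theorem WO.withTop {S : Set X} (hS : WO S) :
    WO {c : WithTop X | c = ⊤ ∨ ∃ k ∈ S, c = (k : WithTop X)} := by
  intro T hT hne
  by_cases h : {k | k ∈ S ∧ (k : WithTop X) ∈ T}.Nonempty
  · obtain ⟨m, ⟨hm1, hm2⟩, hm3⟩ := hS _ (fun k hk => hk.1) h
    refine ⟨m, hm2, fun t ht => ?_⟩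
    rcases hT ht with h1 | ⟨k, hk, rfl⟩
    · rw [h1]; exact le_top
    · exact WithTop.coe_le_coe.2 (hm3 k ⟨hk, ht⟩)
  · obtain ⟨t, ht⟩ := hne
    have h1 : ∀ t ∈ T, t = ⊤ := by
      intro t ht
      rcases hT ht with h1 | ⟨k, hk, rfl⟩
      · exact h1
      · exact absurd ⟨k, hk, ht⟩ h
    refine ⟨t, ht, fun t' ht' => ?_⟩
    rw [h1 t ht, h1 t' ht']

theorem WO.lex {S : Set (X ×ₗ Y)} (h1 : WO {x | ∃ y, toLex (x, y) ∈ S})
    (h2 : ∀ x, WO {y | toLex (x, y) ∈ S}) : WO S := by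
  intro T hT hne
  obtain ⟨x, ⟨y0, hy0⟩, hx⟩ := h1 {x | ∃ y, toLex (x, y) ∈ T} (fun x ⟨y, hy⟩ => ⟨y, hT hy⟩) (by
    obtain ⟨t, ht⟩ := hne
    exact ⟨(ofLex t).1, (ofLex t).2, ht⟩)
  obtain ⟨y, hy, hy'⟩ := h2 x {y | toLex (x, y) ∈ T} (fun y hy => hT hy) ⟨y0, hy0⟩
  refine ⟨toLex (x, y), hy, fun t ht => ?_⟩
  rw [Prod.Lex.le_iff]
  have h3 : x ≤ (ofLex t).1 := hx _ ⟨(ofLex t).2, ht⟩
  rcases h3.lt_or_eq with h4 | h4
  · exact Or.inl h4
  · right
    refine ⟨h4, hy' _ ?_⟩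
    change toLex (x, (ofLex t).2) ∈ T
    rw [h4]
    exact ht

theorem WO.image {S : Set X} (hS : WO S) (h : X → Y) (hm : ∀ a ∈ S, ∀ b ∈ S, a < b → h a < h b) :
    WO (h '' S) := by
  intro T hT hne
  obtain ⟨m, ⟨hm1, hm2⟩, hm3⟩ := hS {w | w ∈ S ∧ h w ∈ T} (fun w hw => hw.1) (by
    obtain ⟨t, ht⟩ := hne
    obtain ⟨w, hw, rfl⟩ := hT ht
    exact ⟨w, hw, ht⟩)
  refine ⟨h m, hm2, fun t ht => ?_⟩
  obtain ⟨w, hw, rfl⟩ := hT ht
  rcases (hm3 w ⟨hw, ht⟩).lt_or_eq with h4 | h4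
  · exact (hm _ hm1 _ hw h4).le
  · rw [h4]

end

/-- universality -/
theorem exists_univ (hA : Sat A) {j : A → Ordinal.{0}} (hj : Function.Injective j)
    (K : Set A) (hK : WO K) (hKs : Small.{0} K) {I : Type} (L : I → Set A)
    (hL : ∀ i, WO (L i)) (hLs : ∀ i, Small.{0} (L i)) :
    ∃ S : Set A, K ⊆ S ∧ WO S ∧ Small.{0} S ∧
      ∀ i, ∃ g : A ≃o A, (∀ k ∈ K, g k = k) ∧ ∀ l ∈ L i, g l ∈ S := by
  classical
  let _ : LinearOrder I := linearOrderOfSTO WellOrderingRel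
  have hI : ∀ T : Set I, T.Nonempty → ∃ m ∈ T, ∀ t ∈ T, m ≤ t := by
    intro T hT
    obtain ⟨m, hm, hm'⟩ := WellFounded.has_min (WellOrderingRel.isWellOrder (α := I)).wf T hT
    exact ⟨m, hm, fun t ht => not_lt.1 (hm' t ht)⟩
  obtain ⟨L', hL'⟩ : ∃ L' : I → Set A, ∀ i, L' i = K ∪ L i := ⟨_, fun _ => rfl⟩
  have hL'w : ∀ i, WO (L' i) := fun i => by rw [hL']; exact hK.union (hL i)
  have hL's : ∀ i, Small.{0} (L' i) := fun i => by
    rw [hL']
    have := hLs i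
    exact small_union _ _
  obtain ⟨W2, hW2⟩ : ∃ W2 : Set (I ×ₗ A), ∀ i l, toLex (i, l) ∈ W2 ↔ l ∈ L' i :=
    ⟨{z | (ofLex z).2 ∈ L' (ofLex z).1}, fun _ _ => Iff.rfl⟩
  have hW2w : WO W2 := WO.lex (fun T _ => hI T) (fun i => (hL'w i).mono fun l hl => (hW2 i l).1 hl)
  obtain ⟨W, hW⟩ : ∃ W : Set (WithTop A ×ₗ WithTop (I ×ₗ A)), ∀ c d, toLex (c, d) ∈ W ↔
      (c = ⊤ ∨ ∃ k ∈ K, c = (k : WithTop A)) ∧ (d = ⊤ ∨ ∃ l ∈ W2, d = (l : WithTop (I ×ₗ A))) :=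
    ⟨{z | ((ofLex z).1 = ⊤ ∨ ∃ k ∈ K, (ofLex z).1 = (k : WithTop A)) ∧
      ((ofLex z).2 = ⊤ ∨ ∃ l ∈ W2, (ofLex z).2 = (l : WithTop (I ×ₗ A)))}, fun _ _ => Iff.rfl⟩
  have hWw : WO W := by
    refine WO.lex (hK.withTop.mono ?_) (fun c => hW2w.withTop.mono ?_)
    · rintro c ⟨d, hd⟩
      exact ((hW c d).1 hd).1
    · intro d hd
      exact ((hW c d).1 hd).2
  have hWs : Small.{0} W := by
    let f : ((K ⊕ Unit) × ((Σ i, L' i) ⊕ Unit)) → WithTop A ×ₗ WithTop (I ×ₗ A) := fun p =>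
      toLex (Sum.elim (fun k : K => (k.1 : WithTop A)) (fun _ => ⊤) p.1,
        Sum.elim (fun l : Σ i, L' i => ((toLex (l.1, l.2.1) : I ×ₗ A) : WithTop (I ×ₗ A)))
          (fun _ => ⊤) p.2)
    have h1 : W ⊆ Set.range f := by
      intro z hz
      obtain ⟨h2, h3⟩ := (hW (ofLex z).1 (ofLex z).2).1 hz
      obtain ⟨c, hc⟩ : ∃ c : K ⊕ Unit, Sum.elim (fun k : K => (k.1 : WithTop A)) (fun _ => ⊤) c =
          (ofLex z).1 := by
        rcases h2 with h | ⟨k, hk, h⟩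
        · exact ⟨Sum.inr (), h.symm⟩
        · exact ⟨Sum.inl ⟨k, hk⟩, h.symm⟩
      obtain ⟨d, hd⟩ : ∃ d : (Σ i, L' i) ⊕ Unit, Sum.elim (fun l : Σ i, L' i =>
          ((toLex (l.1, l.2.1) : I ×ₗ A) : WithTop (I ×ₗ A))) (fun _ => ⊤) d = (ofLex z).2 := by
        rcases h3 with h | ⟨l, hl, h⟩
        · exact ⟨Sum.inr (), h.symm⟩
        · exact ⟨Sum.inl ⟨(ofLex l).1, (ofLex l).2, (hW2 _ _).1 hl⟩, h.symm⟩
      refine ⟨(c, d), ?_⟩
      change toLex (_, _) = z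
      rw [hc, hd]
      rfl
    have h2 : Small.{0} (Set.range f) := small_range f
    exact small_subset h1
  obtain ⟨h, hh1, hh2⟩ := forth hA W hWs
    (Set.range (fun k : K => ((toLex ((k.1 : WithTop A), (⊤ : WithTop (I ×ₗ A))) :
      WithTop A ×ₗ WithTop (I ×ₗ A)), k.1))) (by
      rintro _ ⟨k, rfl⟩ _ ⟨k', rfl⟩
      simp [Prod.Lex.lt_iff]) (by
      rintro _ ⟨k, rfl⟩
      exact (hW _ _).2 ⟨Or.inr ⟨k.1, k.2, rfl⟩, Or.inl rfl⟩)
  have hhk : ∀ k ∈ K, h (toLex ((k : WithTop A), (⊤ : WithTop (I ×ₗ A)))) = k :=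
    fun k hk => hh2 _ ⟨⟨k, hk⟩, rfl⟩
  refine ⟨h '' W, ?_, hWw.image h hh1, inferInstance, fun i => ?_⟩
  · intro k hk
    exact ⟨_, (hW _ _).2 ⟨Or.inr ⟨k, hk, rfl⟩, Or.inl rfl⟩, hhk k hk⟩
  · -- the gap function
    have hgap : ∀ l : A, ∃ c : WithTop A, (c = ⊤ ∨ ∃ k ∈ K, c = (k : WithTop A)) ∧
        (l : WithTop A) ≤ c ∧ ∀ k ∈ K, l ≤ k → c ≤ (k : WithTop A) := by
      intro l
      by_cases h1 : {k | k ∈ K ∧ l ≤ k}.Nonempty
      · obtain ⟨m, ⟨hm1, hm2⟩, hm3⟩ := hK _ (fun k hk => hk.1) h1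
        exact ⟨m, Or.inr ⟨m, hm1, rfl⟩, WithTop.coe_le_coe.2 hm2,
          fun k hk hlk => WithTop.coe_le_coe.2 (hm3 k ⟨hk, hlk⟩)⟩
      · exact ⟨⊤, Or.inl rfl, le_top, fun k hk hlk => absurd ⟨k, hk, hlk⟩ h1⟩
    choose gap hg1 hg2 hg3 using hgap
    have hgk : ∀ k ∈ K, gap k = (k : WithTop A) := fun k hk =>
      le_antisymm (hg3 k k hk le_rfl) (hg2 k)
    have hgm : ∀ l l', l ≤ l' → gap l ≤ gap l' := by
      intro l l' hl
      rcases hg1 l' with h1 | ⟨k, hk, h1⟩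
      · rw [h1]; exact le_top
      · rw [h1]
        refine hg3 l k hk (hl.trans ?_)
        have := hg2 l'
        rw [h1] at this
        exact WithTop.coe_le_coe.1 this
    obtain ⟨e, he⟩ : ∃ e : A → WithTop A ×ₗ WithTop (I ×ₗ A), ∀ l, e l = toLex (gap l,
        if l ∈ K then (⊤ : WithTop (I ×ₗ A)) else ((toLex (i, l) : I ×ₗ A) : WithTop (I ×ₗ A))) :=
      ⟨_, fun _ => rfl⟩
    have heW : ∀ l ∈ L' i, e l ∈ W := by
      intro l hl
      rw [he, hW]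
      refine ⟨hg1 l, ?_⟩
      split_ifs with h1
      · exact Or.inl rfl
      · exact Or.inr ⟨_, (hW2 _ _).2 hl, rfl⟩
    have hem : ∀ l l', l < l' → e l < e l' := by
      intro l l' hl
      rw [he, he, Prod.Lex.lt_iff]
      rcases (hgm l l' hl.le).lt_or_eq with h1 | h1
      · exact Or.inl h1
      · right
        refine ⟨h1, ?_⟩
        have hlK : l ∉ K := by
          intro h2
          have h3 := hg2 l'
          rw [← h1, hgk l h2] at h3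
          exact absurd (WithTop.coe_le_coe.1 h3) (not_le.2 hl)
        change (if l ∈ K then (⊤ : WithTop (I ×ₗ A)) else
          ((toLex (i, l) : I ×ₗ A) : WithTop (I ×ₗ A))) < (if l' ∈ K then (⊤ : WithTop (I ×ₗ A))
            else ((toLex (i, l') : I ×ₗ A) : WithTop (I ×ₗ A)))
        rw [if_neg hlK]
        split_ifs with h2
        · exact WithTop.coe_lt_top _
        · rw [WithTop.coe_lt_coe, Prod.Lex.lt_iff]
          exact Or.inr ⟨rfl, hl⟩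
    have hhe : ∀ l ∈ L' i, ∀ l' ∈ L' i, l < l' ↔ h (e l) < h (e l') := by
      have h3 : ∀ l ∈ L' i, ∀ l' ∈ L' i, l < l' → h (e l) < h (e l') := fun l hl l' hl' hll =>
        hh1 _ (heW l hl) _ (heW l' hl') (hem l l' hll)
      intro l hl l' hl'
      refine ⟨h3 l hl l' hl', fun h4 => ?_⟩
      by_contra h5
      rcases (not_lt.1 h5).lt_or_eq with h6 | h6
      · exact lt_asymm h4 (h3 l' hl' l hl h6)
      · rw [h6] at h4; exact lt_irrefl _ h4
    have := hL's i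
    obtain ⟨g, hg⟩ := exists_aut hA hj (Set.range (fun l : L' i => (l.1, h (e l.1)))) (by
      rintro _ ⟨l, rfl⟩ _ ⟨l', rfl⟩
      exact hhe l.1 l.2 l'.1 l'.2) (small_range _)
    refine ⟨g, fun k hk => ?_, fun l hl => ?_⟩
    · have h1 := hg _ ⟨⟨k, by rw [hL']; exact Or.inl hk⟩, rfl⟩
      simp only at h1
      rw [h1, he, if_pos hk, hgk k hk, hhk k hk]
    · have h2 : l ∈ L' i := by rw [hL']; exact Or.inr hl
      have h1 := hg _ ⟨⟨l, h2⟩, rfl⟩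
      simp only at h1
      rw [h1]
      exact ⟨_, heW l h2, rfl⟩

/-- the automorphisms over a small well-ordered set move every other point down -/
theorem exists_down (hA : Sat A) {j : A → Ordinal.{0}} (hj : Function.Injective j)
    (K : Set A) (hKs : Small.{0} K) (a : A) (ha : a ∉ K) :
    ∃ g : A ≃o A, (∀ k ∈ K, g k = k) ∧ g a < a := by
  have h1 : Small.{0} {k ∈ K | k < a} := small_subset (Set.sep_subset _ _)
  obtain ⟨b, hb1, hb2⟩ := hA {k ∈ K | k < a} {a} h1 inferInstance (by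
    rintro l ⟨_, hl⟩ r hr
    rw [Set.mem_singleton_iff.1 hr]; exact hl)
  have hba := hb2 a rfl
  have hP : Good (insert (a, b) ((fun k : A => (k, k)) '' K)) := by
    apply good_insert
    · rintro _ ⟨k, _, rfl⟩ _ ⟨k', _, rfl⟩
      exact Iff.rfl
    · rintro _ ⟨k, hk, rfl⟩ hka
      exact hb1 k ⟨hk, hka⟩
    · rintro _ ⟨k, hk, rfl⟩ hka
      exact hba.trans hka
    · rintro _ ⟨k, hk, rfl⟩ hka
      exact ha (hka ▸ hk)
  obtain ⟨g, hg⟩ := exists_aut hA hj _ hP (small_insert _ _)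
  refine ⟨g, fun k hk => hg (k, k) (Or.inr ⟨k, hk, rfl⟩), ?_⟩
  have := hg (a, b) (Or.inl rfl)
  simp only at this
  rw [this]
  exact hba

end

end Q207.UR
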