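import Mathlib

namespace Q207.UR

universe u

/-- A structure for the language of class theory with urelements: `V` is the type of first-order
objects (sets and urelements), `C` is the type of classes, `mem x y` is `x ∈ y`, `ur x` says that
`x` is an urelement, `cm x X` says that `x` is a member of the class `X`. -/
structure Str (V C : Type u) where
  mem : V → V → Prop
  ur : V → Prop
  cm : V → C → Prop

/-- The formulas of the language of class theory with urelements with free variables among `n`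
first-order variables and `m` class variables. -/
inductive Fml : ℕ → ℕ → Type
  | eq {n m : ℕ} (i j : Fin n) : Fml n m
  | mem {n m : ℕ} (i j : Fin n) : Fml n m
  | ur {n m : ℕ} (i : Fin n) : Fml n m
  | cm {n m : ℕ} (i : Fin n) (j : Fin m) : Fml n m
  | bot {n m : ℕ} : Fml n m
  | imp {n m : ℕ} (φ ψ : Fml n m) : Fml n m
  | all {n m : ℕ} (φ : Fml (n + 1) m) : Fml n m
  | allC {n m : ℕ} (φ : Fml n (m + 1)) : Fml n m

variable {V C : Type u}

/-- The satisfaction relation. -/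
def Holds (S : Str V C) : ∀ {n m : ℕ}, Fml n m → (Fin n → V) → (Fin m → C) → Prop
  | _, _, .eq i j, v, _ => v i = v j
  | _, _, .mem i j, v, _ => S.mem (v i) (v j)
  | _, _, .ur i, v, _ => S.ur (v i)
  | _, _, .cm i j, v, w => S.cm (v i) (w j)
  | _, _, .bot, _, _ => False
  | _, _, .imp φ ψ, v, w => Holds S φ v w → Holds S ψ v w
  | _, _, .all φ, v, w => ∀ x : V, Holds S φ (Fin.cons x v) w
  | _, _, .allC φ, v, w => ∀ X : C, Holds S φ v (Fin.cons X w)

/-- `z` is the unordered pair `{x, y}`. -/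
def IsUp (S : Str V C) (z x y : V) : Prop := ¬ S.ur z ∧ ∀ w, S.mem w z ↔ w = x ∨ w = y

/-- `p` is the ordered pair `(x, y) = {{x}, {x, y}}`. -/
def IsOp (S : Str V C) (p x y : V) : Prop := ∃ a b, IsUp S a x x ∧ IsUp S b x y ∧ IsUp S p a b

/-- The ordered pair `(x, y)` belongs to the class `F`. -/
def InC (S : Str V C) (F : C) (x y : V) : Prop := ∃ p, IsOp S p x y ∧ S.cm p F

/-- The theory `KMU_R`: Kelley-Morse class theory with urelements, with Replacement. -/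
structure KMU (S : Str V C) : Prop where
  urel : ∀ x y, S.ur y → ¬ S.mem x y
  ext : ∀ x y, ¬ S.ur x → ¬ S.ur y → (∀ z, S.mem z x ↔ S.mem z y) → x = y
  foundation : ∀ x, (∃ y, S.mem y x) → ∃ y, S.mem y x ∧ ∀ z, S.mem z y → ¬ S.mem z x
  pairing : ∀ x y, ∃ z, IsUp S z x y
  union : ∀ x, ∃ z, ¬ S.ur z ∧ ∀ w, S.mem w z ↔ ∃ y, S.mem y x ∧ S.mem w y
  power : ∀ x, ¬ S.ur x → ∃ z, ¬ S.ur z ∧
    ∀ w, S.mem w z ↔ ¬ S.ur w ∧ ∀ t, S.mem t w → S.mem t x
  infinity : ∃ z, (∃ e, S.mem e z ∧ ¬ S.ur e ∧ ∀ w, ¬ S.mem w e) ∧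
    ∀ x, S.mem x z → ∃ y, S.mem y z ∧ ¬ S.ur y ∧ ∀ w, S.mem w y ↔ S.mem w x ∨ w = x
  separation : ∀ (X : C) (x : V), ∃ z, ¬ S.ur z ∧ ∀ w, S.mem w z ↔ S.mem w x ∧ S.cm w X
  classExt : ∀ X Y : C, (∀ x, S.cm x X ↔ S.cm x Y) → X = Y
  comprehension : ∀ {n m : ℕ} (φ : Fml (n + 1) m) (v : Fin n → V) (w : Fin m → C),
    ∃ X : C, ∀ x, S.cm x X ↔ Holds S φ (Fin.cons x v) w
  replacement : ∀ F : C, (∀ x y y', InC S F x y → InC S F x y' → y = y') →
    ∀ x, ∃ z, ¬ S.ur z ∧ ∀ y, S.mem y z ↔ ∃ w, S.mem w x ∧ InC S F w y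

/-- Collection. -/
def Collection (S : Str V C) : Prop :=
  ∀ (R : C) (w : V), (∀ x, S.mem x w → ∃ y, InC S R x y) →
    ∃ v, ¬ S.ur v ∧ ∀ x, S.mem x w → ∃ y, S.mem y v ∧ InC S R x y

/-- Global Choice: there is a class function `G` with `G(x) ∈ x` for every nonempty set `x`. -/
def GlobalChoice (S : Str V C) : Prop :=
  ∃ G : C, (∀ p, S.cm p G → ∃ x y, IsOp S p x y) ∧
    (∀ x y y', InC S G x y → InC S G x y' → y = y') ∧
    ∀ x, (∃ y, S.mem y x) → ∃ y, InC S G x y ∧ S.mem y x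

/-- `a` is the empty set. -/
def IsEmp (S : Str V C) (a : V) : Prop := ¬ S.ur a ∧ ∀ x, ¬ S.mem x a

/-- `a = b ∪ {b}`. -/
def IsSucc (S : Str V C) (a b : V) : Prop := ¬ S.ur a ∧ ∀ x, S.mem x a ↔ S.mem x b ∨ x = b

/-- `a` is a transitive set. -/
def IsTr (S : Str V C) (a : V) : Prop :=
  ¬ S.ur a ∧ ∀ x, S.mem x a → ∀ y, S.mem y x → S.mem y a

/-- `a` is a natural number: a transitive set all of whose members are transitive sets, such that
`a` and all its members are the empty set or successors. -/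
def IsNat (S : Str V C) (a : V) : Prop :=
  IsTr S a ∧ (∀ x, S.mem x a → IsTr S x) ∧ (IsEmp S a ∨ ∃ b, IsSucc S a b) ∧
    ∀ x, S.mem x a → IsEmp S x ∨ ∃ b, IsSucc S x b

/-- `f` is a function with domain `d`. -/
def IsFun (S : Str V C) (f d : V) : Prop :=
  ¬ S.ur f ∧ (∀ p, S.mem p f → ∃ x y, IsOp S p x y ∧ S.mem x d) ∧
    ∀ x, S.mem x d → ∃! y, ∃ p, IsOp S p x y ∧ S.mem p f

/-- `s` is the restriction of `f` to `d`. -/
def IsRes (S : Str V C) (s f d : V) : Prop :=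
  ¬ S.ur s ∧ ∀ p, S.mem p s ↔ S.mem p f ∧ ∃ x y, IsOp S p x y ∧ S.mem x d

/-- `ω`-DC: if `R` is a class relation such that for every function `s` with domain some `n < ω`
there is `y` with `R(s, y)`, then there is a function `f` with domain `ω` such that
`R(f ↾ n, f(n))` for all `n < ω`. -/
def OmegaDC (S : Str V C) : Prop :=
  ∀ R : C, (∀ s n, IsNat S n → IsFun S s n → ∃ y, InC S R s y) →
    ∃ w f, ¬ S.ur w ∧ (∀ n, S.mem n w ↔ IsNat S n) ∧ IsFun S f w ∧
      ∀ n, S.mem n w → ∃ s y p, IsRes S s f n ∧ IsOp S p n y ∧ S.mem p f ∧ InC S R s y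

end Q207.UR
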