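import Mathlib

namespace Q207.UR

/-- codes for sets over the urelements `X` -/
inductive Pre (X : Type 1) : Type 1
  | ur (a : X) : Pre X
  | mk (α : Type) (f : α → Pre X) : Pre X

namespace Pre
variable {X Y : Type 1}

/-- the codes denote the same object -/
def Eqv : Pre X → Pre X → Prop
  | ur a, ur b => a = b
  | mk _ f, mk _ g => (∀ a, ∃ b, Eqv (f a) (g b)) ∧ ∀ b, ∃ a, Eqv (f a) (g b)
  | ur _, mk _ _ => False
  | mk _ _, ur _ => False

theorem Eqv.refl : ∀ x : Pre X, Eqv x x
  | ur _ => rfl
  | mk _ f => ⟨fun a => ⟨a, Eqv.refl (f a)⟩, fun a => ⟨a, Eqv.refl (f a)⟩⟩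

theorem Eqv.symm : ∀ {x y : Pre X}, Eqv x y → Eqv y x
  | ur _, ur _, h => Eq.symm h
  | mk _ _, mk _ _, h => ⟨fun b => let ⟨a, ha⟩ := h.2 b; ⟨a, Eqv.symm ha⟩,
      fun a => let ⟨b, hb⟩ := h.1 a; ⟨b, Eqv.symm hb⟩⟩
  | ur _, mk _ _, h => h.elim
  | mk _ _, ur _, h => h.elim

theorem Eqv.trans : ∀ {x y z : Pre X}, Eqv x y → Eqv y z → Eqv x z
  | ur _, ur _, ur _, h, h' => Eq.trans h h'
  | mk _ _, mk _ _, mk _ _, h, h' =>
    ⟨fun a => let ⟨b, hb⟩ := h.1 a; let ⟨c, hc⟩ := h'.1 b; ⟨c, Eqv.trans hb hc⟩,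
      fun c => let ⟨b, hb⟩ := h'.2 c; let ⟨a, ha⟩ := h.2 b; ⟨a, Eqv.trans ha hb⟩⟩
  | ur _, ur _, mk _ _, _, h => h.elim
  | ur _, mk _ _, _, h, _ => h.elim
  | mk _ _, ur _, _, h, _ => h.elim
  | mk _ _, mk _ _, ur _, _, h => h.elim

instance setoid (X : Type 1) : Setoid (Pre X) := ⟨Eqv, Eqv.refl, Eqv.symm, Eqv.trans⟩

/-- membership of codes -/
def Mem (x : Pre X) : Pre X → Prop
  | ur _ => False
  | mk _ f => ∃ a, Eqv x (f a)

/-- the code is the code of a set -/
def IsSt : Pre X → Prop
  | ur _ => False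
  | mk _ _ => True

theorem mem_congr {x x' y y' : Pre X} (h : Eqv x x') (h' : Eqv y y') : Mem x y ↔ Mem x' y' := by
  cases y <;> cases y'
  · rfl
  · exact h'.elim
  · exact h'.elim
  · constructor
    · rintro ⟨a, ha⟩
      obtain ⟨b, hb⟩ := h'.1 a
      exact ⟨b, h.symm.trans (ha.trans hb)⟩
    · rintro ⟨b, hb⟩
      obtain ⟨a, ha⟩ := h'.2 b
      exact ⟨a, h.trans (hb.trans ha.symm)⟩

theorem isSt_congr {x x' : Pre X} (h : Eqv x x') : IsSt x ↔ IsSt x' := by
  cases x <;> cases x'
  · rfl
  · exact h.elim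
  · exact h.elim
  · rfl

/-- the action of a map of the urelements -/
def map (g : X → Y) : Pre X → Pre Y
  | ur a => ur (g a)
  | mk α f => mk α (fun a => map g (f a))

theorem map_congr (g : X → Y) : ∀ {x x' : Pre X}, Eqv x x' → Eqv (map g x) (map g x')
  | ur _, ur _, h => congrArg g h
  | mk _ _, mk _ _, h => ⟨fun a => let ⟨b, hb⟩ := h.1 a; ⟨b, map_congr g hb⟩,
      fun b => let ⟨a, ha⟩ := h.2 b; ⟨a, map_congr g ha⟩⟩
  | ur _, mk _ _, h => h.elim
  | mk _ _, ur _, h => h.elim

end Pre

/-- the universe of sets over the urelements `X` -/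
def U (X : Type 1) : Type 1 := Quotient (Pre.setoid X)

namespace U
variable {X Y Z : Type 1}

/-- the urelements -/
def ur (a : X) : U X := Quotient.mk _ (Pre.ur a)

/-- membership -/
def Mem (x y : U X) : Prop :=
  Quotient.liftOn₂ x y Pre.Mem (fun _ _ _ _ h h' => propext (Pre.mem_congr h h'))

/-- `x` is a set -/
def IsSt (x : U X) : Prop := Quotient.liftOn x Pre.IsSt (fun _ _ h => propext (Pre.isSt_congr h))

/-- the set with the given small extension -/
noncomputable def st (s : Set (U X)) (_ : Small.{0} s) : U X :=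
  Quotient.mk _ (Pre.mk (Shrink.{0} s) (fun i => ((equivShrink s).symm i).1.out))

theorem mem_st {s : Set (U X)} {h : Small.{0} s} {x : U X} : Mem x (st s h) ↔ x ∈ s := by
  induction x using Quotient.inductionOn with
  | h x =>
  constructor
  · rintro ⟨i, hi⟩
    have h1 : (Quotient.mk _ x : U X) = ((equivShrink s).symm i).1 := by
      have h2 := Quotient.sound (s := Pre.setoid X) hi
      refine h2.trans ?_
      exact Quotient.out_eq _
    rw [h1]
    exact ((equivShrink s).symm i).2
  · intro hx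
    refine ⟨equivShrink s ⟨_, hx⟩, ?_⟩
    have h1 : ∀ t : s, t = ⟨_, hx⟩ → Pre.Eqv x (Quotient.out (s := Pre.setoid X) t.1) := by
      rintro t rfl
      exact Pre.Eqv.symm (Quotient.mk_out (s := Pre.setoid X) x)
    exact h1 _ (Equiv.symm_apply_apply _ _)

theorem not_mem_ur {a : X} {x : U X} : ¬ Mem x (ur a) := by
  induction x using Quotient.inductionOn with
  | h x => exact fun h => h

theorem isSt_st {s : Set (U X)} {h : Small.{0} s} : IsSt (st s h) := trivial

theorem not_isSt_ur {a : X} : ¬ IsSt (ur a) := fun h => h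

theorem ur_inj {a b : X} : ur a = ur b ↔ a = b := by
  constructor
  · intro h
    exact Quotient.exact h
  · rintro rfl; rfl

theorem isSt_of_mem {x y : U X} (h : Mem x y) : IsSt y := by
  induction x using Quotient.inductionOn with
  | h x =>
  induction y using Quotient.inductionOn with
  | h y =>
  cases y with
  | ur a => exact h
  | mk α f => trivial

theorem small_mem (x : U X) : Small.{0} {y | Mem y x} := by
  induction x using Quotient.inductionOn with
  | h x =>
  cases x with
  | ur a =>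
    have : {y | Mem y (Quotient.mk _ (Pre.ur a) : U X)} = ∅ := by
      ext y
      simp only [Set.mem_empty_iff_false, iff_false]
      exact not_mem_ur
    rw [this]
    infer_instance
  | mk α f =>
    obtain ⟨F, hF⟩ : ∃ F : α → U X, ∀ a, F a = (Quotient.mk _ (f a) : U X) := ⟨_, fun _ => rfl⟩
    have h1 : {y | Mem y (Quotient.mk _ (Pre.mk α f) : U X)} ⊆ Set.range F := by
      intro y
      induction y using Quotient.inductionOn with
      | h y =>
      rintro ⟨a, ha⟩
      refine ⟨a, ?_⟩
      rw [hF]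
      exact (Quotient.sound (s := Pre.setoid X) ha).symm
    have h2 : Small.{0} (Set.range F) := small_range F
    exact small_subset h1

theorem ext {x y : U X} (hx : IsSt x) (hy : IsSt y) (h : ∀ z, Mem z x ↔ Mem z y) : x = y := by
  induction x using Quotient.inductionOn with
  | h x =>
  induction y using Quotient.inductionOn with
  | h y =>
  cases x with
  | ur a => exact hx.elim
  | mk α f =>
  cases y with
  | ur a => exact hy.elim
  | mk β g =>
    apply Quotient.sound (s := Pre.setoid X)
    constructor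
    · intro a
      exact (h (Quotient.mk _ (f a))).1 ⟨a, Pre.Eqv.refl _⟩
    · intro b
      obtain ⟨a, ha⟩ := (h (Quotient.mk _ (g b))).2 ⟨b, Pre.Eqv.refl _⟩
      exact ⟨a, ha.symm⟩

theorem cases_ur (x : U X) : (∃ a, x = ur a) ∨ IsSt x := by
  induction x using Quotient.inductionOn with
  | h x =>
  cases x with
  | ur a => exact Or.inl ⟨a, rfl⟩
  | mk α f => exact Or.inr trivial

theorem st_eq {x : U X} (hx : IsSt x) : st {y | Mem y x} (small_mem x) = x :=
  ext isSt_st hx (fun _ => mem_st)

theorem ind {P : U X → Prop} (h : ∀ x, (∀ y, Mem y x → P y) → P x) (x : U X) : P x := by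
  induction x using Quotient.inductionOn with
  | h x =>
  induction x with
  | ur a => exact h _ (fun y hy => (not_mem_ur hy).elim)
  | mk α f ih =>
    apply h
    intro y
    induction y using Quotient.inductionOn with
    | h y =>
    rintro ⟨a, ha⟩
    have := Quotient.sound (s := Pre.setoid X) ha
    rw [this]
    exact ih a

theorem wf : WellFounded (Mem : U X → U X → Prop) :=
  ⟨fun x => ind (fun _ h => Acc.intro _ h) x⟩

/-- the action of a map of the urelements -/
def map (g : X → Y) (x : U X) : U Y :=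
  Quotient.liftOn x (fun x => Quotient.mk _ (Pre.map g x))
    (fun _ _ h => Quotient.sound (s := Pre.setoid Y) (Pre.map_congr g h))

theorem map_ur (g : X → Y) (a : X) : map g (ur a) = ur (g a) := rfl

theorem isSt_map {g : X → Y} {x : U X} : IsSt (map g x) ↔ IsSt x := by
  induction x using Quotient.inductionOn with
  | h x =>
  cases x with
  | ur a => exact Iff.rfl
  | mk α f => exact Iff.rfl

theorem mem_map {g : X → Y} {x : U X} {y : U Y} : Mem y (map g x) ↔ ∃ z, Mem z x ∧ map g z = y := by
  induction x using Quotient.inductionOn with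
  | h x =>
  induction y using Quotient.inductionOn with
  | h y =>
  cases x with
  | ur a =>
    constructor
    · intro h; exact h.elim
    · rintro ⟨z, hz, -⟩
      exact (not_mem_ur hz).elim
  | mk α f =>
    constructor
    · rintro ⟨a, ha⟩
      exact ⟨Quotient.mk _ (f a), ⟨a, Pre.Eqv.refl _⟩, (Quotient.sound (s := Pre.setoid Y) ha).symm⟩
    · rintro ⟨z, hz, hzy⟩
      induction z using Quotient.inductionOn with
      | h z =>
      obtain ⟨a, ha⟩ := hz
      refine ⟨a, ?_⟩
      have h1 : Pre.Eqv (Pre.map g z) y := Quotient.exact hzy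
      exact h1.symm.trans (Pre.map_congr g ha)

theorem map_map (g : X → Y) (h : Y → Z) (x : U X) : map h (map g x) = map (h ∘ g) x := by
  induction x using ind with
  | _ x ih =>
  rcases cases_ur x with ⟨a, rfl⟩ | hx
  · rfl
  · apply ext (isSt_map.2 (isSt_map.2 hx)) (isSt_map.2 hx)
    intro z
    rw [mem_map, mem_map]
    constructor
    · rintro ⟨y, hy, rfl⟩
      obtain ⟨w, hw, rfl⟩ := mem_map.1 hy
      exact ⟨w, hw, (ih w hw).symm⟩
    · rintro ⟨w, hw, rfl⟩
      exact ⟨_, mem_map.2 ⟨w, hw, rfl⟩, ih w hw⟩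

/-- the urelements in the transitive closure of `x` -/
inductive Ker (a : X) : U X → Prop
  | ur : Ker a (ur a)
  | mem {x y : U X} : Mem x y → Ker a x → Ker a y

theorem ker_ur {a b : X} : Ker a (ur b) ↔ a = b := by
  constructor
  · intro h
    generalize hx : ur b = x at h
    cases h with
    | ur => exact (ur_inj.1 hx).symm
    | mem h1 _ =>
      rw [← hx] at h1
      exact (not_mem_ur h1).elim
  · rintro rfl
    exact Ker.ur

theorem ker_st {a : X} {x : U X} (hx : IsSt x) : Ker a x ↔ ∃ y, Mem y x ∧ Ker a y := by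
  constructor
  · intro h
    cases h with
    | ur => exact (not_isSt_ur hx).elim
    | mem h1 h2 => exact ⟨_, h1, h2⟩
  · rintro ⟨y, h1, h2⟩
    exact Ker.mem h1 h2

theorem small_ker (x : U X) : Small.{0} {a | Ker a x} := by
  induction x using ind with
  | _ x ih =>
  rcases cases_ur x with ⟨b, rfl⟩ | hx
  · have : {a | Ker a (ur b)} = {b} := by
      ext a
      exact ker_ur
    rw [this]
    infer_instance
  · have h1 : {a | Ker a x} = ⋃ y : {y | Mem y x}, {a | Ker a y.1} := by
      ext a
      rw [Set.mem_iUnion]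
      exact (ker_st hx).trans ⟨fun ⟨y, h1, h2⟩ => ⟨⟨y, h1⟩, h2⟩, fun ⟨y, h2⟩ => ⟨y.1, y.2, h2⟩⟩
    rw [h1]
    have := small_mem x
    have : ∀ y : {y | Mem y x}, Small.{0} {a | Ker a y.1} := fun y => ih y.1 y.2
    exact small_iUnion _

theorem map_eq_self {g : X → X} {x : U X} (h : ∀ a, Ker a x → g a = a) : map g x = x := by
  induction x using ind with
  | _ x ih =>
  rcases cases_ur x with ⟨b, rfl⟩ | hx
  · rw [map_ur, h b Ker.ur]
  · have h1 : ∀ y, Mem y x → map g y = y := fun y hy => ih y hy (fun a ha => h a (Ker.mem hy ha))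
    apply ext (isSt_map.2 hx) hx
    intro z
    rw [mem_map]
    constructor
    · rintro ⟨w, hw, rfl⟩
      rw [h1 w hw]; exact hw
    · intro hz
      exact ⟨z, hz, h1 z hz⟩

theorem map_congr {g g' : X → Y} {x : U X} (h : ∀ a, Ker a x → g a = g' a) :
    map g x = map g' x := by
  induction x using ind with
  | _ x ih =>
  rcases cases_ur x with ⟨b, rfl⟩ | hx
  · rw [map_ur, map_ur, h b Ker.ur]
  · have h1 : ∀ y, Mem y x → map g y = map g' y :=
      fun y hy => ih y hy (fun a ha => h a (Ker.mem hy ha))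
    apply ext (isSt_map.2 hx) (isSt_map.2 hx)
    intro z
    rw [mem_map, mem_map]
    constructor
    · rintro ⟨w, hw, rfl⟩
      exact ⟨w, hw, (h1 w hw).symm⟩
    · rintro ⟨w, hw, rfl⟩
      exact ⟨w, hw, h1 w hw⟩

theorem ker_map {g : X → Y} {b : Y} {x : U X} : Ker b (map g x) ↔ ∃ a, Ker a x ∧ g a = b := by
  induction x using ind with
  | _ x ih =>
  rcases cases_ur x with ⟨c, rfl⟩ | hx
  · rw [map_ur, ker_ur]
    constructor
    · rintro rfl
      exact ⟨c, Ker.ur, rfl⟩
    · rintro ⟨a, ha, rfl⟩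
      rw [ker_ur.1 ha]
  · rw [ker_st (isSt_map.2 hx)]
    constructor
    · rintro ⟨y, hy, hb⟩
      obtain ⟨z, hz, rfl⟩ := mem_map.1 hy
      obtain ⟨a, ha, rfl⟩ := (ih z hz).1 hb
      exact ⟨a, Ker.mem hz ha, rfl⟩
    · rintro ⟨a, ha, rfl⟩
      obtain ⟨z, hz, hz'⟩ := (ker_st hx).1 ha
      exact ⟨map g z, mem_map.2 ⟨z, hz, rfl⟩, (ih z hz).2 ⟨a, hz', rfl⟩⟩

theorem mem_map_iff {g : X → Y} (hg : Function.Injective g) {x y : U X} :
    Mem (map g x) (map g y) ↔ Mem x y := by
  have hinj : ∀ x y : U X, map g x = map g y → x = y := by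
    intro x
    induction x using ind with
    | _ x ih =>
    intro y hxy
    rcases cases_ur x with ⟨a, rfl⟩ | hx
    · rcases cases_ur y with ⟨b, rfl⟩ | hy
      · rw [map_ur, map_ur, ur_inj] at hxy
        rw [hg hxy]
      · have := (isSt_map (g := g)).2 hy
        rw [← hxy] at this
        exact (not_isSt_ur this).elim
    · rcases cases_ur y with ⟨b, rfl⟩ | hy
      · have := (isSt_map (g := g)).2 hx
        rw [hxy] at this
        exact (not_isSt_ur this).elim
      · apply ext hx hy
        intro z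
        constructor
        · intro hz
          have h1 : Mem (map g z) (map g y) := by
            rw [← hxy]; exact mem_map.2 ⟨z, hz, rfl⟩
          obtain ⟨w, hw, hw'⟩ := mem_map.1 h1
          rw [ih z hz w hw'.symm]
          exact hw
        · intro hz
          have h1 : Mem (map g z) (map g x) := by
            rw [hxy]; exact mem_map.2 ⟨z, hz, rfl⟩
          obtain ⟨w, hw, hw'⟩ := mem_map.1 h1
          rw [← ih w hw z hw']
          exact hw
  rw [mem_map]
  constructor
  · rintro ⟨z, hz, hzx⟩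
    rw [← hinj _ _ hzx]; exact hz
  · intro h
    exact ⟨x, h, rfl⟩

end U

end Q207.UR
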