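import Pool.Agent.Q207.UR.Hom
import Pool.Agent.Q207.UR.Univ
import Pool.Agent.Q207.UR.KDefs

namespace Q207.UR

/-- automorphisms of structures -/
theorem sat_aut {V C : Type 1} (S : Str V C) (e : V ≃ V) (e' : C ≃ C)
    (h1 : ∀ x y, S.mem (e x) (e y) ↔ S.mem x y) (h2 : ∀ x, S.ur (e x) ↔ S.ur x)
    (h3 : ∀ x X, S.cm (e x) (e' X) ↔ S.cm x X) : ∀ {n m : ℕ} (φ : Fml n m) (v : Fin n → V)
      (w : Fin m → C), Holds S φ (fun i => e (v i)) (fun i => e' (w i)) ↔ Holds S φ v w := by
  intro n m φ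
  induction φ with
  | eq i j => intro v w; exact e.injective.eq_iff
  | mem i j => intro v w; exact h1 _ _
  | ur i => intro v w; exact h2 _
  | cm i j => intro v w; exact h3 _ _
  | bot => intro v w; exact Iff.rfl
  | imp φ ψ ih1 ih2 => intro v w; exact imp_congr (ih1 v w) (ih2 v w)
  | all φ ih =>
    intro v w
    constructor
    · intro h x
      rw [← ih]
      have h4 := h (e x)
      have h5 : (fun i => e ((Fin.cons x v : Fin _ → V) i)) =
          (Fin.cons (e x) (fun i => e (v i)) : Fin _ → V) := by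
        funext i
        refine Fin.cases ?_ (fun i => ?_) i <;> simp
      rw [h5]; exact h4
    · intro h x
      have h4 := (ih (Fin.cons (e.symm x) v) w).2 (h (e.symm x))
      have h5 : (fun i => e ((Fin.cons (e.symm x) v : Fin _ → V) i)) =
          (Fin.cons x (fun i => e (v i)) : Fin _ → V) := by
        funext i
        refine Fin.cases ?_ (fun i => ?_) i <;> simp
      rw [h5] at h4; exact h4
  | allC φ ih =>
    intro v w
    constructor
    · intro h x
      rw [← ih]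
      have h4 := h (e' x)
      have h5 : (fun i => e' ((Fin.cons x w : Fin _ → C) i)) =
          (Fin.cons (e' x) (fun i => e' (w i)) : Fin _ → C) := by
        funext i
        refine Fin.cases ?_ (fun i => ?_) i <;> simp
      rw [h5]; exact h4
    · intro h x
      have h4 := (ih v (Fin.cons (e'.symm x) w)).2 (h (e'.symm x))
      have h5 : (fun i => e' ((Fin.cons (e'.symm x) w : Fin _ → C) i)) =
          (Fin.cons x (fun i => e' (w i)) : Fin _ → C) := by
        funext i
        refine Fin.cases ?_ (fun i => ?_) i <;> simp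
      rw [h5] at h4; exact h4

/-- the sets and urelements of the model -/
def VV : Type 1 := {x : U Ao // WO {a | U.Ker a x}}

/-- the kernel of an object of the model -/
def ke (x : VV) : Set Ao := {a | U.Ker a x.1}

theorem ke_wo (x : VV) : WO (ke x) := x.2

theorem ke_small (x : VV) : Small.{0} (ke x) := U.small_ker x.1

/-- the action of the automorphisms -/
noncomputable def act (g : Ao ≃o Ao) (x : VV) : VV :=
  ⟨U.map g x.1, by
    have h1 : {a | U.Ker a (U.map g x.1)} = g '' {a | U.Ker a x.1} := by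
      ext a
      exact U.ker_map
    rw [h1]
    exact x.2.image g (fun a _ b _ hab => g.strictMono hab)⟩

theorem act_act (g h : Ao ≃o Ao) (x : VV) : act h (act g x) = act (g.trans h) x :=
  Subtype.ext (U.map_map g h x.1)

theorem act_eq {g : Ao ≃o Ao} {x : VV} (h : ∀ a ∈ ke x, g a = a) : act g x = x :=
  Subtype.ext (U.map_eq_self h)

theorem act_symm (g : Ao ≃o Ao) (x : VV) : act g.symm (act g x) = x := by
  rw [act_act]
  exact act_eq (fun a _ => g.symm_apply_apply a)

theorem act_symm' (g : Ao ≃o Ao) (x : VV) : act g (act g.symm x) = x := by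
  rw [act_act]
  exact act_eq (fun a _ => g.apply_symm_apply a)

theorem mem_ke_act {g : Ao ≃o Ao} {x : VV} {b : Ao} : b ∈ ke (act g x) ↔ ∃ a ∈ ke x, g a = b :=
  U.ker_map

/-- the classes of the model -/
def CC : Type 1 := {X : Set VV // ∃ K : Set Ao, WO K ∧ Small.{0} K ∧
  ∀ g : Ao ≃o Ao, (∀ k ∈ K, g k = k) → ∀ x, x ∈ X → act g x ∈ X}

theorem CC.supp (X : CC) : ∃ K : Set Ao, WO K ∧ Small.{0} K ∧
    ∀ g : Ao ≃o Ao, (∀ k ∈ K, g k = k) → ∀ x, x ∈ X.1 ↔ act g x ∈ X.1 := by
  obtain ⟨K, h1, h2, h3⟩ := X.2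
  refine ⟨K, h1, h2, fun g hg x => ⟨h3 g hg x, fun h => ?_⟩⟩
  have h4 := h3 g.symm (fun k hk => by
    rw [OrderIso.symm_apply_eq]; exact (hg k hk).symm) _ h
  rwa [act_symm] at h4

/-- the model -/
def MM : Str VV CC where
  mem := fun x y => U.Mem x.1 y.1
  ur := fun x => ¬ U.IsSt x.1
  cm := fun x X => x ∈ X.1

/-- the action on the classes -/
noncomputable def actC (g : Ao ≃o Ao) (X : CC) : CC :=
  ⟨{x | act g.symm x ∈ X.1}, by
    obtain ⟨K, h1, h2, h3⟩ := X.supp
    refine ⟨g '' K, h1.image g (fun a _ b _ hab => g.strictMono hab), inferInstance, ?_⟩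
    intro h hh x hx
    change act g.symm (act h x) ∈ X.1
    have h4 : act g.symm (act h x) = act ((g.trans h).trans g.symm) (act g.symm x) := by
      rw [act_act, act_act]
      congr 1
      ext a
      simp
    rw [h4, ← h3]
    · exact hx
    · intro k hk
      simp only [OrderIso.trans_apply]
      rw [hh (g k) ⟨k, hk, rfl⟩, g.symm_apply_apply]⟩

theorem cm_act {g : Ao ≃o Ao} {x : VV} {X : CC} : MM.cm (act g x) (actC g X) ↔ MM.cm x X := by
  change act g.symm (act g x) ∈ X.1 ↔ x ∈ X.1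
  rw [act_symm]

theorem mem_act {g : Ao ≃o Ao} {x y : VV} : MM.mem (act g x) (act g y) ↔ MM.mem x y :=
  U.mem_map_iff g.injective

theorem ur_act {g : Ao ≃o Ao} {x : VV} : MM.ur (act g x) ↔ MM.ur x :=
  not_congr U.isSt_map

/-- the permutation of the objects -/
noncomputable def eqV (g : Ao ≃o Ao) : VV ≃ VV := ⟨act g, act g.symm, act_symm g, act_symm' g⟩

/-- the permutation of the classes -/
noncomputable def eqC (g : Ao ≃o Ao) : CC ≃ CC where
  toFun := actC g
  invFun := actC g.symm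
  left_inv := fun X => Subtype.ext (by
    ext x
    change act g.symm (act g x) ∈ X.1 ↔ x ∈ X.1
    rw [act_symm])
  right_inv := fun X => Subtype.ext (by
    ext x
    change act g (act g.symm x) ∈ X.1 ↔ x ∈ X.1
    rw [act_symm'])

theorem sat_act (g : Ao ≃o Ao) {n m : ℕ} (φ : Fml n m) (v : Fin n → VV) (w : Fin m → CC) :
    Holds MM φ (fun i => act g (v i)) (fun i => actC g (w i)) ↔ Holds MM φ v w :=
  sat_aut MM (eqV g) (eqC g) (fun _ _ => mem_act) (fun _ => ur_act) (fun _ _ => cm_act) φ v w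

theorem actC_eq {X : CC} {K : Set Ao}
    (hK : ∀ g : Ao ≃o Ao, (∀ k ∈ K, g k = k) → ∀ x, x ∈ X.1 ↔ act g x ∈ X.1)
    {g : Ao ≃o Ao} (hg : ∀ k ∈ K, g k = k) : actC g X = X := by
  apply Subtype.ext
  ext x
  change act g.symm x ∈ X.1 ↔ x ∈ X.1
  rw [hK g hg (act g.symm x), act_symm']

theorem small_mem (x : VV) : Small.{0} {w | MM.mem w x} := by
  have := U.small_mem x.1
  have h1 : Function.Injective (fun w : {w | MM.mem w x} => (⟨w.1.1, w.2⟩ : {y | U.Mem y x.1})) := by
    intro w w' h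
    have h2 : w.1.1 = w'.1.1 := congrArg (fun t : {y | U.Mem y x.1} => t.1) h
    exact Subtype.ext (Subtype.ext h2)
  exact small_of_injective h1

theorem ke_mem {x y : VV} (h : MM.mem x y) : ke x ⊆ ke y := fun _ ha => U.Ker.mem h ha

/-- elements of members are in the model -/
theorem ex_of_mem {x : VV} {y : U Ao} (h : U.Mem y x.1) : ∃ w : VV, w.1 = y ∧ MM.mem w x :=
  ⟨⟨y, x.2.mono (fun _ ha => U.Ker.mem h ha)⟩, rfl, h⟩

/-- the underlying object -/
def vl (x : VV) : U Ao := x.1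

theorem exists_set (s : Set VV) (hs : Small.{0} s) (K : Set Ao) (hK : WO K)
    (h : ∀ x ∈ s, ke x ⊆ K) : ∃ z : VV, ¬ MM.ur z ∧ (∀ w, MM.mem w z ↔ w ∈ s) ∧ ke z ⊆ K := by
  have hs' : Small.{0} (vl '' s : Set (U Ao)) := small_image vl s
  have h1 : ∀ a, U.Ker a (U.st _ hs') → a ∈ K := by
    intro a ha
    obtain ⟨y, hy, hay⟩ := (U.ker_st U.isSt_st).1 ha
    obtain ⟨w, hw, rfl⟩ := U.mem_st.1 hy
    exact h w hw hay
  refine ⟨⟨U.st _ hs', hK.mono h1⟩, fun h => h U.isSt_st, fun w => ?_, h1⟩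
  change U.Mem w.1 (U.st _ hs') ↔ w ∈ s
  rw [U.mem_st]
  constructor
  · rintro ⟨w', hw', h2⟩
    rwa [Subtype.ext h2.symm]
  · intro hw
    exact ⟨w, hw, rfl⟩

theorem mm_ext {x y : VV} (hx : ¬ MM.ur x) (hy : ¬ MM.ur y) (h : ∀ z, MM.mem z x ↔ MM.mem z y) :
    x = y := by
  apply Subtype.ext
  apply U.ext (not_not.1 hx) (not_not.1 hy)
  intro z
  constructor
  · intro hz
    obtain ⟨w, rfl, hw⟩ := ex_of_mem hz
    exact (h w).1 hw
  · intro hz
    obtain ⟨w, rfl, hw⟩ := ex_of_mem hz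
    exact (h w).2 hw

theorem not_ur_of_mem {x y : VV} (h : MM.mem x y) : ¬ MM.ur y := fun h' => h' (U.isSt_of_mem h)

theorem ex_up (x y : VV) : ∃ z, IsUp MM z x y := by
  obtain ⟨z, h1, h2, -⟩ := exists_set {x, y} inferInstance (ke x ∪ ke y)
    ((ke_wo x).union (ke_wo y)) (by
      rintro w (rfl | rfl)
      · exact Set.subset_union_left
      · exact Set.subset_union_right)
  exact ⟨z, h1, h2⟩

/-- unordered pairs -/
noncomputable def up (x y : VV) : VV := (ex_up x y).choose

theorem mem_up {w x y : VV} : MM.mem w (up x y) ↔ w = x ∨ w = y := (ex_up x y).choose_spec.2 w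

theorem up_nur {x y : VV} : ¬ MM.ur (up x y) := (ex_up x y).choose_spec.1

theorem isUp_iff {z x y : VV} : IsUp MM z x y ↔ z = up x y := by
  constructor
  · intro h
    apply mm_ext h.1 up_nur
    intro w
    rw [h.2, mem_up]
  · rintro rfl
    exact ⟨up_nur, fun w => mem_up⟩

/-- ordered pairs -/
noncomputable def op (x y : VV) : VV := up (up x x) (up x y)

theorem isOp_iff {p x y : VV} : IsOp MM p x y ↔ p = op x y := by
  constructor
  · rintro ⟨a, b, h1, h2, h3⟩
    rw [isUp_iff] at h1 h2 h3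
    rw [h3, h1, h2]; rfl
  · rintro rfl
    exact ⟨_, _, isUp_iff.2 rfl, isUp_iff.2 rfl, isUp_iff.2 rfl⟩

theorem up_inj {x y y' : VV} (h : up x y = up x y') : y = y' := by
  have h1 : MM.mem y (up x y') := by rw [← h]; exact mem_up.2 (Or.inr rfl)
  rcases mem_up.1 h1 with h2 | h2
  · have h3 : MM.mem y' (up x y) := by rw [h]; exact mem_up.2 (Or.inr rfl)
    rcases mem_up.1 h3 with h4 | h4
    · rw [h2, h4]
    · exact h4.symm
  · exact h2

theorem up_comm (x y : VV) : up x y = up y x :=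
  mm_ext up_nur up_nur (fun w => by rw [mem_up, mem_up, or_comm])

theorem op_inj {x y x' y' : VV} (h : op x y = op x' y') : x = x' ∧ y = y' := by
  have h1 : MM.mem (up x x) (op x' y') := by rw [← h]; exact mem_up.2 (Or.inl rfl)
  have h2 : x = x' := by
    rcases mem_up.1 h1 with h2 | h2
    · have h3 : MM.mem x (up x' x') := by rw [← h2]; exact mem_up.2 (Or.inl rfl)
      rcases mem_up.1 h3 with h4 | h4 <;> exact h4
    · have h3 : MM.mem x' (up x x) := by rw [h2]; exact mem_up.2 (Or.inl rfl)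
      rcases mem_up.1 h3 with h4 | h4 <;> exact h4.symm
  subst h2
  exact ⟨rfl, up_inj (up_inj h)⟩

theorem act_up {g : Ao ≃o Ao} {x y : VV} : act g (up x y) = up (act g x) (act g y) := by
  apply mm_ext (by rw [ur_act]; exact up_nur) up_nur
  intro w
  have h1 : w = act g (act g.symm w) := (act_symm' g w).symm
  rw [h1, mem_act, mem_up, mem_up]
  have h2 : ∀ z, act g.symm w = z ↔ act g (act g.symm w) = act g z := fun z =>
    ((eqV g).injective.eq_iff (a := act g.symm w) (b := z)).symm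
  rw [h2, h2]

theorem act_op {g : Ao ≃o Ao} {x y : VV} : act g (op x y) = op (act g x) (act g y) := by
  unfold op
  rw [act_up, act_up, act_up]

theorem inC_iff {F : CC} {x y : VV} : InC MM F x y ↔ op x y ∈ F.1 := by
  constructor
  · rintro ⟨p, hp, h⟩
    rw [isOp_iff.1 hp] at h
    exact h
  · intro h
    exact ⟨_, isOp_iff.2 rfl, h⟩

/-- definable and symmetric classes -/
theorem comp {n m : ℕ} (φ : Fml (n + 1) m) (v : Fin n → VV) (w : Fin m → CC) :
    ∃ X : CC, ∀ x, MM.cm x X ↔ Holds MM φ (Fin.cons x v) w := by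
  choose K hK1 hK2 hK3 using fun i => (w i).supp
  have hwo : ∀ {k : ℕ} (f : Fin k → Set Ao), (∀ i, WO (f i)) → WO (⋃ i, f i) := by
    intro k
    induction k with
    | zero =>
      intro f _
      have : (⋃ i, f i) = ∅ := Set.iUnion_of_empty f
      rw [this]
      exact WO.finite Set.finite_empty
    | succ k ih =>
      intro f hf
      have h1 : (⋃ i, f i) = f 0 ∪ ⋃ i : Fin k, f i.succ := by
        ext a
        simp only [Set.mem_iUnion, Set.mem_union]
        exact Fin.exists_fin_succ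
      rw [h1]
      exact (hf 0).union (ih _ (fun i => hf _))
  refine ⟨⟨{x | Holds MM φ (Fin.cons x v) w}, (⋃ i, K i) ∪ ⋃ i, ke (v i),
    (hwo K hK1).union (hwo _ (fun i => ke_wo _)), ?_, ?_⟩, fun x => Iff.rfl⟩
  · have := fun i => hK2 i
    have := fun i => ke_small (v i)
    have h1 : Small.{0} (⋃ i, K i : Set Ao) := small_iUnion _
    have h2 : Small.{0} (⋃ i, ke (v i) : Set Ao) := small_iUnion _
    exact small_union _ _
  · intro g hg x hx
    have h1 := (sat_act g φ (Fin.cons x v) w).2 hx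
    have h2 : (fun i => act g ((Fin.cons x v : Fin _ → VV) i)) =
        (Fin.cons (act g x) v : Fin _ → VV) := by
      funext i
      refine Fin.cases ?_ (fun i => ?_) i
      · simp
      · simp only [Fin.cons_succ]
        exact act_eq (fun a ha => hg a (Or.inr (Set.mem_iUnion.2 ⟨i, ha⟩)))
    have h3 : (fun i => actC g (w i)) = w := by
      funext i
      exact actC_eq (hK3 i) (fun k hk => hg k (Or.inl (Set.mem_iUnion.2 ⟨i, hk⟩)))
    rw [h2, h3] at h1
    exact h1

/-- values of class functions have small kernels -/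
theorem ke_val {F : CC} (hF : ∀ x y y', InC MM F x y → InC MM F x y' → y = y') {K : Set Ao}
    (hKs : Small.{0} K)
    (hK : ∀ g : Ao ≃o Ao, (∀ k ∈ K, g k = k) → ∀ x, x ∈ F.1 ↔ act g x ∈ F.1) {x y : VV}
    (hx : ke x ⊆ K) (h : InC MM F x y) : ke y ⊆ K := by
  obtain ⟨j, hj⟩ := ao_enum
  intro a ha
  by_contra haK
  obtain ⟨g, hg1, hg2⟩ := exists_down ao_sat hj K hKs a haK
  have h1 : act g x = x := act_eq (fun b hb => hg1 b (hx hb))
  have h2 : InC MM F x (act g y) := by
    rw [inC_iff] at h ⊢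
    have h3 := (hK g hg1 _).1 h
    rwa [act_op, h1] at h3
  have h3 : act g y = y := hF _ _ _ h2 h
  have h4 : ∀ n, (g^[n]) a ∈ ke y := by
    intro n
    induction n with
    | zero => exact ha
    | succ n ih =>
      rw [Function.iterate_succ_apply', ← h3]
      exact mem_ke_act.2 ⟨_, ih, rfl⟩
  refine (ke_wo y).no_desc (fun n => (g^[n]) a) h4 (fun n => ?_)
  induction n with
  | zero => exact hg2
  | succ n ih =>
    simp only [Function.iterate_succ_apply'] at ih ⊢
    exact g.strictMono ih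

/-- the model satisfies the axioms -/
theorem kmu : KMU MM where
  urel := fun x y hy h => hy (U.isSt_of_mem h)
  ext := fun x y hx hy h => mm_ext hx hy h
  foundation := by
    rintro x ⟨y, hy⟩
    obtain ⟨m, hm, hm'⟩ := U.wf.has_min {z | U.Mem z x.1} ⟨y.1, hy⟩
    obtain ⟨w, rfl, hw⟩ := ex_of_mem hm
    exact ⟨w, hw, fun z hz hz' => hm' z.1 hz' hz⟩
  pairing := ex_up
  union := by
    intro x
    obtain ⟨z, h1, h2, -⟩ := exists_set {w | ∃ y, MM.mem y x ∧ MM.mem w y} (by
      have h1 : {w | ∃ y, MM.mem y x ∧ MM.mem w y} = ⋃ y : {y | MM.mem y x}, {w | MM.mem w y.1} := by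
        ext w
        rw [Set.mem_iUnion]
        exact ⟨fun ⟨y, h1, h2⟩ => ⟨⟨y, h1⟩, h2⟩, fun ⟨y, h2⟩ => ⟨y.1, y.2, h2⟩⟩
      rw [h1]
      have := small_mem x
      have := fun y : {y | MM.mem y x} => small_mem y.1
      exact small_iUnion _) (ke x) (ke_wo x) (fun w ⟨y, h1, h2⟩ => (ke_mem h2).trans (ke_mem h1))
    exact ⟨z, h1, h2⟩
  power := by
    intro x _
    obtain ⟨z, h1, h2, -⟩ := exists_set {w | ¬ MM.ur w ∧ ∀ t, MM.mem t w → MM.mem t x} (by
      have := small_mem x
      have h1 : Function.Injective (fun (w : {w | ¬ MM.ur w ∧ ∀ t, MM.mem t w → MM.mem t x}) =>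
          (fun t : {t | MM.mem t x} => MM.mem t.1 w.1)) := by
        intro w w' h
        apply Subtype.ext
        apply mm_ext w.2.1 w'.2.1
        intro t
        constructor
        · intro ht
          have h2 := congrFun h ⟨t, w.2.2 t ht⟩
          exact h2.mp ht
        · intro ht
          have h2 := congrFun h ⟨t, w'.2.2 t ht⟩
          exact h2.mpr ht
      exact small_of_injective h1) (ke x) (ke_wo x) (by
        intro w hw a ha
        obtain ⟨y, hy, hay⟩ := (U.ker_st (not_not.1 hw.1)).1 ha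
        obtain ⟨t, rfl, ht⟩ := ex_of_mem hy
        exact ke_mem (hw.2 t ht) hay)
    exact ⟨z, h1, h2⟩
  infinity := by
    have h0 : ∃ e : VV, ¬ MM.ur e ∧ (∀ w, MM.mem w e ↔ w ∈ (∅ : Set VV)) ∧ ke e ⊆ (∅ : Set Ao) :=
      exists_set ∅ inferInstance ∅ (WO.finite Set.finite_empty) (fun x hx => hx.elim)
    obtain ⟨e, he1, he2, he3⟩ := h0
    have hs : ∀ x : VV, ∃ y, ¬ MM.ur y ∧ (∀ w, MM.mem w y ↔ w ∈ {w | MM.mem w x ∨ w = x}) ∧
        ke y ⊆ ke x := by
      intro x
      refine exists_set _ ?_ (ke x) (ke_wo x) ?_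
      · have h1 : {w | MM.mem w x ∨ w = x} = {w | MM.mem w x} ∪ {x} := rfl
        rw [h1]
        have := small_mem x
        exact small_union _ _
      · rintro w (hw | rfl)
        · exact ke_mem hw
        · exact subset_rfl
    choose S hS1 hS2 hS3 using hs
    have hN : ∀ n : ℕ, ke (S^[n] e) ⊆ (∅ : Set Ao) := by
      intro n
      induction n with
      | zero => exact he3
      | succ n ih =>
        rw [Function.iterate_succ_apply']
        exact (hS3 _).trans ih
    obtain ⟨z, -, h2, -⟩ := exists_set (Set.range (fun n : ℕ => S^[n] e)) inferInstance ∅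
      (WO.finite Set.finite_empty) (by rintro _ ⟨n, rfl⟩; exact hN n)
    refine ⟨z, ⟨e, (h2 e).2 ⟨0, rfl⟩, he1, fun w hw => (he2 w).1 hw⟩, fun x hx => ?_⟩
    obtain ⟨n, rfl⟩ := (h2 x).1 hx
    refine ⟨S^[n + 1] e, (h2 _).2 ⟨n + 1, rfl⟩, ?_, ?_⟩
    · rw [Function.iterate_succ_apply']; exact hS1 _
    · intro w
      rw [Function.iterate_succ_apply']
      exact hS2 _ w
  separation := by
    intro X x
    obtain ⟨z, h1, h2, -⟩ := exists_set {w | MM.mem w x ∧ MM.cm w X} (by
      have := small_mem x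
      exact small_subset (s := {w | MM.mem w x}) (fun w hw => hw.1)) (ke x) (ke_wo x)
      (fun w hw => ke_mem hw.1)
    exact ⟨z, h1, h2⟩
  classExt := fun X Y h => Subtype.ext (Set.ext h)
  comprehension := fun φ v w => comp φ v w
  replacement := by
    intro F hF x
    obtain ⟨K, hK1, hK2, hK3⟩ := F.supp
    have := ke_small x
    obtain ⟨z, h1, h2, -⟩ := exists_set {y | ∃ w, MM.mem w x ∧ InC MM F w y} (by
      classical
      have := small_mem x
      have h1 : {y | ∃ w, MM.mem w x ∧ InC MM F w y} ⊆ Set.range (fun w : {w | MM.mem w x} =>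
          if h : ∃ y, InC MM F w.1 y then h.choose else w.1) := by
        rintro y ⟨w, hw, hy⟩
        have h2 : ∃ y, InC MM F w y := ⟨y, hy⟩
        refine ⟨⟨w, hw⟩, ?_⟩
        simp only [dif_pos h2]
        exact hF _ _ _ h2.choose_spec hy
      exact small_subset h1) (K ∪ ke x) (hK1.union (ke_wo x)) (by
        rintro y ⟨w, hw, hy⟩
        refine ke_val hF (K := K ∪ ke x) (small_union _ _) (fun g hg => hK3 g fun k hk =>
          hg k (Or.inl hk)) ((ke_mem hw).trans Set.subset_union_right) hy)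
    exact ⟨z, h1, h2⟩

theorem collection : Collection MM := by
  intro R w hw
  obtain ⟨K, hK1, hK2, hK3⟩ := R.supp
  obtain ⟨j, hj⟩ := ao_enum
  have := small_mem w
  have := ke_small w
  obtain ⟨T, hT⟩ : ∃ T : Set VV, T = {x | MM.mem x w} := ⟨_, rfl⟩
  have hTs : Small.{0} T := hT ▸ small_mem w
  have hTw : ∀ x, x ∈ T ↔ MM.mem x w := fun x => by rw [hT]; rfl
  let I := Shrink.{0} T
  let xi : I → VV := fun i => ((equivShrink T).symm i).1
  have hxi : ∀ i, MM.mem (xi i) w := fun i => (hTw _).1 ((equivShrink T).symm i).2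
  choose y hy using fun i => hw (xi i) (hxi i)
  obtain ⟨S, hS1, hS2, hS3, hS4⟩ := exists_univ ao_sat hj (K ∪ ke w) (hK1.union (ke_wo w))
    (small_union _ _) (fun i => ke (y i)) (fun i => ke_wo _) (fun i => ke_small _)
  choose g hg1 hg2 using hS4
  obtain ⟨v, hv1, hv2, -⟩ := exists_set (Set.range (fun i => act (g i) (y i))) inferInstance S hS2
    (by
      rintro _ ⟨i, rfl⟩ a ha
      obtain ⟨b, hb, rfl⟩ := mem_ke_act.1 ha
      exact hg2 i b hb)
  refine ⟨v, hv1, fun x hx => ?_⟩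
  obtain ⟨i, hi⟩ : ∃ i, xi i = x := ⟨equivShrink T ⟨x, (hTw x).2 hx⟩, by
    simp only [xi, Equiv.symm_apply_apply]⟩
  refine ⟨act (g i) (y i), (hv2 _).2 ⟨i, rfl⟩, ?_⟩
  have h1 := hy i
  rw [inC_iff] at h1 ⊢
  have h2 := (hK3 (g i) (fun k hk => hg1 i k (Or.inl hk)) _).1 h1
  rw [act_op, hi, act_eq (x := x) (fun a ha => hg1 i a (Or.inr (ke_mem hx ha)))] at h2
  exact h2

theorem rigid {g : Ao ≃o Ao} {x : VV} (h : act g x = x) : ∀ a ∈ ke x, g a = a := by
  refine (ke_wo x).rigid g (fun a ha => ?_) (fun a ha => ?_)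
  · rw [← h]
    exact mem_ke_act.2 ⟨a, ha, rfl⟩
  · have h1 : act g.symm x = x := by
      conv_lhs => rw [← h]
      exact act_symm g x
    rw [← h1]
    exact mem_ke_act.2 ⟨a, ha, rfl⟩

theorem globalChoice : GlobalChoice MM := by
  classical
  -- orbit representatives
  let s : Setoid VV := ⟨fun x y => ∃ g : Ao ≃o Ao, act g x = y,
    fun x => ⟨OrderIso.refl _, act_eq (fun a _ => rfl)⟩,
    fun {x y} ⟨g, hg⟩ => ⟨g.symm, by rw [← hg, act_symm]⟩,
    fun {x y z} ⟨g, hg⟩ ⟨h, hh⟩ => ⟨g.trans h, by rw [← act_act, hg, hh]⟩⟩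
  obtain ⟨rep, hrep1, hrep2⟩ : ∃ rep : VV → VV, (∀ x, ∃ g, act g (rep x) = x) ∧
      ∀ g x, rep (act g x) = rep x := by
    refine ⟨fun x => (Quotient.mk s x).out, fun x => ?_, fun g x => ?_⟩
    · exact Quotient.mk_out (s := s) x
    · have h1 : Quotient.mk s (act g x) = Quotient.mk s x := by
        apply Quotient.sound (s := s)
        exact ⟨g.symm, act_symm g x⟩
      simp only [h1]
  have hch : ∃ c : VV → VV, ∀ x, (∃ y, MM.mem y x) → MM.mem (c x) x := by
    refine ⟨fun x => if h : ∃ y, MM.mem y x then h.choose else x, fun x hx => ?_⟩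
    simp only [dif_pos hx]
    exact hx.choose_spec
  obtain ⟨c, hc⟩ := hch
  refine ⟨⟨{p | ∃ x g, act g (rep x) = x ∧ (∃ y, MM.mem y x) ∧ p = op x (act g (c (rep x)))},
    ∅, WO.finite Set.finite_empty, inferInstance, ?_⟩, ?_, ?_, ?_⟩
  · rintro h - _ ⟨x, g, hg, ⟨y, hy⟩, rfl⟩
    refine ⟨act h x, g.trans h, ?_, ⟨act h y, mem_act.2 hy⟩, ?_⟩
    · rw [hrep2, ← act_act, hg]
    · rw [act_op, hrep2, ← act_act]
  · rintro p ⟨x, g, -, -, rfl⟩
    exact ⟨_, _, isOp_iff.2 rfl⟩
  · intro x y y' h1 h2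
    obtain ⟨x1, g1, hg1, hx1, hp1⟩ := inC_iff.1 h1
    obtain ⟨x2, g2, hg2, hx2, hp2⟩ := inC_iff.1 h2
    obtain ⟨rfl, rfl⟩ := op_inj hp1
    obtain ⟨rfl, rfl⟩ := op_inj hp2
    have h3 : act (g1.trans g2.symm) (rep x) = rep x := by
      rw [← act_act, hg1]
      conv_lhs => rw [← hg2]
      exact act_symm g2 _
    have h4 := rigid h3
    have h5 : MM.mem (c (rep x)) (rep x) := by
      apply hc
      obtain ⟨z, hz⟩ := hx1
      refine ⟨act g1.symm z, ?_⟩
      have h6 : MM.mem (act g1.symm z) (act g1.symm x) := mem_act.2 hz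
      have h7 : act g1.symm x = rep x := by
        conv_lhs => rw [← hg1]
        exact act_symm g1 _
      rwa [h7] at h6
    have h6 : act (g1.trans g2.symm) (c (rep x)) = c (rep x) :=
      act_eq (fun a ha => h4 a (ke_mem h5 ha))
    rw [← act_act] at h6
    have h7 := congrArg (act g2) h6
    rwa [act_symm'] at h7
  · intro x hx
    obtain ⟨g, hg⟩ := hrep1 x
    refine ⟨act g (c (rep x)), inC_iff.2 ⟨x, g, hg, hx, rfl⟩, ?_⟩
    have h5 : MM.mem (c (rep x)) (rep x) := by
      apply hc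
      obtain ⟨z, hz⟩ := hx
      refine ⟨act g.symm z, ?_⟩
      have h6 : MM.mem (act g.symm z) (act g.symm x) := mem_act.2 hz
      have h7 : act g.symm x = rep x := by
        conv_lhs => rw [← hg]
        exact act_symm g _
      rwa [h7] at h6
    have h8 : MM.mem (act g (c (rep x))) (act g (rep x)) := mem_act.2 h5
    rwa [hg] at h8

/-- the urelement with the given name -/
def uu (a : Ao) : VV := ⟨U.ur a, by
  have : {b | U.Ker b (U.ur a)} = {a} := by
    ext b
    exact U.ker_ur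
  rw [this]
  exact WO.finite (Set.finite_singleton a)⟩

theorem act_uu (g : Ao ≃o Ao) (a : Ao) : act g (uu a) = uu (g a) := rfl

theorem uu_inj {a b : Ao} : uu a = uu b ↔ a = b :=
  ⟨fun h => U.ur_inj.1 (congrArg Subtype.val h), fun h => h ▸ rfl⟩

theorem mem_ke_uu {a : Ao} : a ∈ ke (uu a) := U.Ker.ur

theorem ke_op {p x y f : VV} (hp : IsOp MM p x y) (h : MM.mem p f) : ke y ⊆ ke f := by
  rw [isOp_iff] at hp
  rw [hp] at h
  intro a ha
  refine ke_mem h (ke_mem (x := up x y) (mem_up.2 (Or.inr rfl)) (ke_mem (mem_up.2 (Or.inr rfl)) ha))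

theorem not_omegaDC : ¬ OmegaDC MM := by
  intro h
  have hR : ∃ R : CC, ∀ s y, InC MM R s y ↔
      ∃ a, y = uu a ∧ ∀ p x b, IsOp MM p x (uu b) → MM.mem p s → a < b := by
    refine ⟨⟨{p | ∃ s a, p = op s (uu a) ∧ ∀ p x b, IsOp MM p x (uu b) → MM.mem p s → a < b},
      ∅, WO.finite Set.finite_empty, inferInstance, ?_⟩, ?_⟩
    · rintro g - _ ⟨s, a, rfl, hs⟩
      refine ⟨act g s, g a, by rw [act_op, act_uu], ?_⟩
      intro p x b hp hps
      rw [isOp_iff] at hp
      have h1 : MM.mem (act g.symm p) s := by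
        have := (mem_act (g := g.symm)).2 hps
        rwa [act_symm] at this
      have h2 := hs (act g.symm p) (act g.symm x) (g.symm b)
        (by rw [isOp_iff, hp, act_op, act_uu]) h1
      have h3 := g.strictMono h2
      rwa [g.apply_symm_apply] at h3
    · intro s y
      refine inC_iff.trans ?_
      constructor
      · rintro ⟨s', a, hp, hs⟩
        obtain ⟨rfl, rfl⟩ := op_inj hp
        exact ⟨a, rfl, hs⟩
      · rintro ⟨a, rfl, hs⟩
        exact ⟨s, a, rfl, hs⟩
  obtain ⟨R, hR⟩ := hR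
  obtain ⟨w, f, hw, hw', hf, hn⟩ := h R (by
    intro s n _ _
    have := ke_small s
    obtain ⟨a, -, ha⟩ := ao_sat ∅ (ke s) inferInstance this (fun l hl => hl.elim)
    refine ⟨uu a, (hR _ _).2 ⟨a, rfl, fun p x b hp hps => ha b (ke_op hp hps mem_ke_uu)⟩⟩)
  -- the empty set and successors
  have h0 : ∃ e, IsNat MM e := by
    obtain ⟨e, he1, he2, -⟩ := exists_set ∅ inferInstance ∅ (WO.finite Set.finite_empty)
      (fun x hx => hx.elim)
    have he3 : ∀ x, ¬ MM.mem x e := fun x hx => (he2 x).1 hx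
    exact ⟨e, ⟨he1, fun x hx => (he3 x hx).elim⟩, fun x hx => (he3 x hx).elim,
      Or.inl ⟨he1, he3⟩, fun x hx => (he3 x hx).elim⟩
  have hsucc : ∀ n, IsNat MM n → ∃ n', IsNat MM n' ∧ MM.mem n n' := by
    intro n hn
    obtain ⟨n', h1, h2, -⟩ := exists_set {x | MM.mem x n ∨ x = n} (by
      have h1 : {w | MM.mem w n ∨ w = n} = {w | MM.mem w n} ∪ {n} := rfl
      rw [h1]
      have := small_mem n
      exact small_union _ _) (ke n) (ke_wo n) (by
      rintro x (hx | rfl)
      · exact ke_mem hx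
      · exact subset_rfl)
    obtain ⟨hn1, hn2, hn3, hn4⟩ := hn
    refine ⟨n', ⟨⟨h1, ?_⟩, ?_, Or.inr ⟨n, h1, h2⟩, ?_⟩, (h2 n).2 (Or.inr rfl)⟩
    · intro x hx y hy
      rw [h2]
      rcases (h2 x).1 hx with h3 | h3
      · exact Or.inl (hn1.2 x h3 y hy)
      · rw [h3] at hy; exact Or.inl hy
    · intro x hx
      rcases (h2 x).1 hx with h3 | h3
      · exact hn2 x h3
      · rw [h3]; exact hn1
    · intro x hx
      rcases (h2 x).1 hx with h3 | h3
      · exact hn4 x h3
      · rw [h3]; exact hn3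
  obtain ⟨e, he⟩ := h0
  have hval : ∀ n, MM.mem n w → ∃ a p, IsOp MM p n (uu a) ∧ MM.mem p f ∧
      ∀ m b q, MM.mem m n → IsOp MM q m (uu b) → MM.mem q f → a < b := by
    intro n hnw
    obtain ⟨s, y, p, h1, h2, h3, h4⟩ := hn n hnw
    obtain ⟨a, rfl, ha⟩ := (hR _ _).1 h4
    refine ⟨a, p, h2, h3, fun m b q hm hq hqf => ha q m b hq ?_⟩
    exact (h1.2 q).2 ⟨hqf, m, uu b, hq, hm⟩
  obtain ⟨a, ⟨n, p, hn1, hn2, hn3⟩, hmin⟩ := ke_wo f
    {a | ∃ n p, MM.mem n w ∧ IsOp MM p n (uu a) ∧ MM.mem p f} (by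
      rintro a ⟨n, p, -, hp, hpf⟩
      exact ke_op hp hpf mem_ke_uu) (by
      obtain ⟨a, p, h1, h2, -⟩ := hval e ((hw' e).2 he)
      exact ⟨a, e, p, (hw' e).2 he, h1, h2⟩)
  obtain ⟨n', hn', hnn'⟩ := hsucc n ((hw' n).1 hn1)
  obtain ⟨a', p', h1, h2, h3⟩ := hval n' ((hw' n').2 hn')
  have h4 := h3 n a p hnn' hn2 hn3
  exact absurd (hmin a' ⟨n', p', (hw' n').2 hn', h1, h2⟩) (not_le.2 h4)

end Q207.UR
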