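import Mathlib

namespace Q207.UR

universe u

/-- A structure for the language of set theory with urelements: `mem x y` is `x ∈ y` and `ur x`
says that `x` is an urelement. -/
structure UStr (V : Type u) where
  mem : V → V → Prop
  ur : V → Prop

/-- The first-order formulas of the language of set theory with urelements, with free variables
among `n` variables. -/
inductive UF : ℕ → Type
  | eq {n : ℕ} (i j : Fin n) : UF n
  | mem {n : ℕ} (i j : Fin n) : UF n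
  | ur {n : ℕ} (i : Fin n) : UF n
  | bot {n : ℕ} : UF n
  | imp {n : ℕ} (φ ψ : UF n) : UF n
  | all {n : ℕ} (φ : UF (n + 1)) : UF n

variable {V : Type u}

/-- `Tru S D φ v`: the formula `φ` with all quantifiers bounded by `D` holds of `v` in `S`. -/
def Tru (S : UStr V) (D : V → Prop) : ∀ {n : ℕ}, UF n → (Fin n → V) → Prop
  | _, .eq i j, v => v i = v j
  | _, .mem i j, v => S.mem (v i) (v j)
  | _, .ur i, v => S.ur (v i)
  | _, .bot, _ => False
  | _, .imp φ ψ, v => Tru S D φ v → Tru S D ψ v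
  | _, .all φ, v => ∀ x : V, D x → Tru S D φ (Fin.cons x v)

/-- The formula `φ` holds of `v` in `S`. -/
def Ho (S : UStr V) {n : ℕ} (φ : UF n) (v : Fin n → V) : Prop := Tru S (fun _ => True) φ v

/-- The theory `ZFU_R`. -/
structure ZFU (S : UStr V) : Prop where
  urel : ∀ x y, S.ur y → ¬ S.mem x y
  ext : ∀ x y, ¬ S.ur x → ¬ S.ur y → (∀ z, S.mem z x ↔ S.mem z y) → x = y
  foundation : ∀ x, (∃ y, S.mem y x) → ∃ y, S.mem y x ∧ ∀ z, S.mem z y → ¬ S.mem z x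
  pairing : ∀ x y, ∃ z, ¬ S.ur z ∧ ∀ w, S.mem w z ↔ w = x ∨ w = y
  union : ∀ x, ∃ z, ¬ S.ur z ∧ ∀ w, S.mem w z ↔ ∃ y, S.mem y x ∧ S.mem w y
  power : ∀ x, ¬ S.ur x → ∃ z, ¬ S.ur z ∧
    ∀ w, S.mem w z ↔ ¬ S.ur w ∧ ∀ t, S.mem t w → S.mem t x
  infinity : ∃ z, (∃ e, S.mem e z ∧ ¬ S.ur e ∧ ∀ w, ¬ S.mem w e) ∧
    ∀ x, S.mem x z → ∃ y, S.mem y z ∧ ¬ S.ur y ∧ ∀ w, S.mem w y ↔ S.mem w x ∨ w = x
  separation : ∀ {n : ℕ} (φ : UF (n + 1)) (v : Fin n → V) (x : V),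
    ∃ z, ¬ S.ur z ∧ ∀ w, S.mem w z ↔ S.mem w x ∧ Ho S φ (Fin.cons w v)
  replacement : ∀ {n : ℕ} (φ : UF (n + 2)) (v : Fin n → V) (x : V),
    (∀ w, S.mem w x → ∀ y y', Ho S φ (Fin.cons w (Fin.cons y v)) →
      Ho S φ (Fin.cons w (Fin.cons y' v)) → y = y') →
    ∃ z, ¬ S.ur z ∧ ∀ y, S.mem y z ↔ ∃ w, S.mem w x ∧ Ho S φ (Fin.cons w (Fin.cons y v))

/-- The Collection scheme. -/
def Coll (S : UStr V) : Prop :=
  ∀ {n : ℕ} (φ : UF (n + 2)) (v : Fin n → V) (x : V),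
    (∀ w, S.mem w x → ∃ y, Ho S φ (Fin.cons w (Fin.cons y v))) →
    ∃ z, ¬ S.ur z ∧ ∀ w, S.mem w x → ∃ y, S.mem y z ∧ Ho S φ (Fin.cons w (Fin.cons y v))

/-- `t` is a transitive set. -/
def IsTra (S : UStr V) (t : V) : Prop :=
  ¬ S.ur t ∧ ∀ x, S.mem x t → ∀ y, S.mem y x → S.mem y t

/-- The reflection scheme RP: for every formula `φ` and every set `s` there is a transitive set `t`
that includes `s` such that `φ ↔ φ^t` for all arguments in `t`. -/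
def RP (S : UStr V) : Prop :=
  ∀ {n : ℕ} (φ : UF n) (s : V), ¬ S.ur s → ∃ t, IsTra S t ∧ (∀ x, S.mem x s → S.mem x t) ∧
    ∀ v : Fin n → V, (∀ i, S.mem (v i) t) → (Ho S φ v ↔ Tru S (fun z => S.mem z t) φ v)

/-- The weak reflection scheme RP⁻: if `φ` holds of `v` then `φ^t` holds of `v` for some transitive
set `t` that contains the members of `v`. -/
def RPm (S : UStr V) : Prop :=
  ∀ {n : ℕ} (φ : UF n) (v : Fin n → V), Ho S φ v → ∃ t, IsTra S t ∧ (∀ i, S.mem (v i) t) ∧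
    Tru S (fun z => S.mem z t) φ v

end Q207.UR
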