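import Pool.Agent.Q207.UR.NDefs

namespace Q207.UR

section
variable {V : Type 1} (S : UStr V)

/-- definable, uniformly in the domain of the quantifiers -/
def Df {n : ℕ} (P : (V → Prop) → (Fin n → V) → Prop) : Prop :=
  ∃ φ : UF n, ∀ D v, Tru S D φ v ↔ P D v

variable {S} {n : ℕ}

theorem Df.eq (i j : Fin n) : Df S (fun _ v => v i = v j) := ⟨.eq i j, fun _ _ => Iff.rfl⟩

theorem Df.mem (i j : Fin n) : Df S (fun _ v => S.mem (v i) (v j)) := ⟨.mem i j, fun _ _ => Iff.rfl⟩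

theorem Df.ur (i : Fin n) : Df S (fun _ v => S.ur (v i)) := ⟨.ur i, fun _ _ => Iff.rfl⟩

theorem Df.imp {P Q : (V → Prop) → (Fin n → V) → Prop} (hP : Df S P) (hQ : Df S Q) :
    Df S (fun D v => P D v → Q D v) := by
  obtain ⟨φ, hφ⟩ := hP
  obtain ⟨ψ, hψ⟩ := hQ
  exact ⟨.imp φ ψ, fun D v => imp_congr (hφ D v) (hψ D v)⟩

theorem Df.not {P : (V → Prop) → (Fin n → V) → Prop} (hP : Df S P) :
    Df S (fun D v => ¬ P D v) := by
  obtain ⟨φ, hφ⟩ := hP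
  exact ⟨.imp φ .bot, fun D v => not_congr (hφ D v)⟩

theorem Df.congr {P Q : (V → Prop) → (Fin n → V) → Prop} (hP : Df S P)
    (h : ∀ D v, P D v ↔ Q D v) : Df S Q := by
  obtain ⟨φ, hφ⟩ := hP
  exact ⟨φ, fun D v => (hφ D v).trans (h D v)⟩

theorem Df.and {P Q : (V → Prop) → (Fin n → V) → Prop} (hP : Df S P) (hQ : Df S Q) :
    Df S (fun D v => P D v ∧ Q D v) :=
  (hP.imp hQ.not).not.congr (fun D v => by tauto)

theorem Df.or {P Q : (V → Prop) → (Fin n → V) → Prop} (hP : Df S P) (hQ : Df S Q) :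
    Df S (fun D v => P D v ∨ Q D v) :=
  (hP.not.imp hQ).congr (fun D v => by tauto)

theorem Df.iff {P Q : (V → Prop) → (Fin n → V) → Prop} (hP : Df S P) (hQ : Df S Q) :
    Df S (fun D v => (P D v ↔ Q D v)) :=
  ((hP.imp hQ).and (hQ.imp hP)).congr (fun D v => by tauto)

theorem Df.all {P : (V → Prop) → (Fin (n + 1) → V) → Prop} (hP : Df S P) :
    Df S (fun D v => ∀ x, D x → P D (Fin.cons x v)) := by
  obtain ⟨φ, hφ⟩ := hP
  exact ⟨.all φ, fun D v => forall_congr' fun x => imp_congr_right fun _ => hφ D _⟩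

theorem Df.ex {P : (V → Prop) → (Fin (n + 1) → V) → Prop} (hP : Df S P) :
    Df S (fun D v => ∃ x, D x ∧ P D (Fin.cons x v)) :=
  hP.not.all.not.congr (fun D v => by
    constructor
    · intro h
      by_contra hcon
      exact h fun x hx hP => hcon ⟨x, hx, hP⟩
    · rintro ⟨x, hx, hP⟩ h
      exact h x hx hP)

end

section
variable {V : Type 1} (S : UStr V) (D : V → Prop)

/-- `z = {x, y}` -/
def UpD (z x y : V) : Prop := ¬ S.ur z ∧ ∀ w, D w → (S.mem w z ↔ w = x ∨ w = y)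

/-- `p = (x, y)` -/
def OpD (p x y : V) : Prop := ∃ a, D a ∧ ∃ b, D b ∧ UpD S D a x x ∧ UpD S D b x y ∧ UpD S D p a b

/-- `(u, (p, (q, r))) ∈ f` -/
def QuD (f u p q r : V) : Prop :=
  ∃ s, D s ∧ ∃ t, D t ∧ ∃ w, D w ∧ OpD S D s q r ∧ OpD S D t p s ∧ OpD S D w u t ∧ S.mem w f

/-- `x` is infinite -/
def InD (x : V) : Prop :=
  ∃ F, D F ∧ (∃ s, D s ∧ S.mem s F) ∧ ∀ s, D s → (S.mem s F →
    (∀ w, D w → (S.mem w s → S.mem w x)) ∧
    ∃ s', D s' ∧ (S.mem s' F ∧ (∀ w, D w → (S.mem w s → S.mem w s')) ∧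
      ∃ w, D w ∧ (S.mem w s' ∧ ¬ S.mem w s)))

/-- all members are urelements -/
def AuD (x : V) : Prop := ∀ w, D w → (S.mem w x → S.ur w)

/-- `x` is linked to `y` -/
def LiD (x y : V) : Prop :=
  AuD S D x ∧ AuD S D y ∧ InD S D x ∧ InD S D y ∧ ∃ f, D f ∧
    ((∀ p, D p → ∀ q, D q → ∀ r, D r → (S.mem p y → S.mem q x → S.mem r x →
      ∃ u, D u ∧ (S.ur u ∧ QuD S D f u p q r))) ∧
    ∀ u, D u → ∀ p, D p → ∀ q, D q → ∀ r, D r → ∀ p', D p' → ∀ q', D q' → ∀ r', D r' →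
      (QuD S D f u p q r → QuD S D f u p' q' r' → p = p' ∧ q = q' ∧ r = r'))

/-- the sentence that is not reflected -/
def PhD : Prop :=
  (∃ x, D x ∧ ∃ y, D y ∧ LiD S D x y) ∧ ∀ x, D x → ∀ y, D y → (LiD S D x y →
    ∃ y', D y' ∧ ((∀ w, D w → (S.mem w y' → S.mem w y)) ∧ ∃ z, D z ∧ LiD S D y' z))

end

section
variable {V : Type 1} {S : UStr V} {n : ℕ}

theorem Df.up (i j k : Fin n) : Df S (fun D v => UpD S D (v i) (v j) (v k)) :=
  (Df.ur i).not.and (Df.all (P := fun _ v => S.mem (v 0) (v i.succ) ↔ v 0 = v j.succ ∨ v 0 = v k.succ)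
    ((Df.mem 0 i.succ).iff ((Df.eq 0 j.succ).or (Df.eq 0 k.succ))))

theorem Df.op (i j k : Fin n) : Df S (fun D v => OpD S D (v i) (v j) (v k)) :=
  Df.ex (P := fun D v => ∃ b, D b ∧ UpD S D (v 0) (v j.succ) (v j.succ) ∧
      UpD S D b (v j.succ) (v k.succ) ∧ UpD S D (v i.succ) (v 0) b)
    (Df.ex (P := fun D v => UpD S D (v (Fin.succ 0)) (v j.succ.succ) (v j.succ.succ) ∧
      UpD S D (v 0) (v j.succ.succ) (v k.succ.succ) ∧ UpD S D (v i.succ.succ) (v (Fin.succ 0)) (v 0))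
      ((Df.up _ _ _).and ((Df.up _ _ _).and (Df.up _ _ _))))

theorem Df.qu (f u p q r : Fin n) :
    Df S (fun D v => QuD S D (v f) (v u) (v p) (v q) (v r)) :=
  Df.ex (P := fun D v => ∃ t, D t ∧ ∃ w, D w ∧ OpD S D (v 0) (v q.succ) (v r.succ) ∧
      OpD S D t (v p.succ) (v 0) ∧ OpD S D w (v u.succ) t ∧ S.mem w (v f.succ))
    (Df.ex (P := fun D v => ∃ w, D w ∧ OpD S D (v (Fin.succ 0)) (v q.succ.succ) (v r.succ.succ) ∧
      OpD S D (v 0) (v p.succ.succ) (v (Fin.succ 0)) ∧ OpD S D w (v u.succ.succ) (v 0) ∧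
        S.mem w (v f.succ.succ))
      (Df.ex (P := fun D v => OpD S D (v (Fin.succ (Fin.succ 0))) (v q.succ.succ.succ)
          (v r.succ.succ.succ) ∧
        OpD S D (v (Fin.succ 0)) (v p.succ.succ.succ) (v (Fin.succ (Fin.succ 0))) ∧
        OpD S D (v 0) (v u.succ.succ.succ) (v (Fin.succ 0)) ∧ S.mem (v 0) (v f.succ.succ.succ))
        ((Df.op _ _ _).and ((Df.op _ _ _).and ((Df.op _ _ _).and (Df.mem _ _))))))

theorem Df.inf (x : Fin n) : Df S (fun D v => InD S D (v x)) :=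
  Df.ex (P := fun D v => (∃ s, D s ∧ S.mem s (v 0)) ∧ ∀ s, D s → (S.mem s (v 0) →
      (∀ w, D w → (S.mem w s → S.mem w (v x.succ))) ∧
      ∃ s', D s' ∧ (S.mem s' (v 0) ∧ (∀ w, D w → (S.mem w s → S.mem w s')) ∧
        ∃ w, D w ∧ (S.mem w s' ∧ ¬ S.mem w s))))
    ((Df.ex (P := fun _ v => S.mem (v 0) (v (Fin.succ 0))) (Df.mem _ _)).and
      (Df.all (P := fun D v => S.mem (v 0) (v (Fin.succ 0)) →
        (∀ w, D w → (S.mem w (v 0) → S.mem w (v x.succ.succ))) ∧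
        ∃ s', D s' ∧ (S.mem s' (v (Fin.succ 0)) ∧ (∀ w, D w → (S.mem w (v 0) → S.mem w s')) ∧
        ∃ w, D w ∧ (S.mem w s' ∧ ¬ S.mem w (v 0))))
      ((Df.mem _ _).imp ((Df.all (P := fun _ v => S.mem (v 0) (v (Fin.succ 0)) →
          S.mem (v 0) (v x.succ.succ.succ)) ((Df.mem _ _).imp (Df.mem _ _))).and
        (Df.ex (P := fun D v => S.mem (v 0) (v (Fin.succ (Fin.succ 0))) ∧
          (∀ w, D w → (S.mem w (v (Fin.succ 0)) → S.mem w (v 0))) ∧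
          ∃ w, D w ∧ (S.mem w (v 0) ∧ ¬ S.mem w (v (Fin.succ 0))))
        ((Df.mem _ _).and ((Df.all (P := fun _ v => S.mem (v 0) (v (Fin.succ (Fin.succ 0))) →
            S.mem (v 0) (v (Fin.succ 0))) ((Df.mem _ _).imp (Df.mem _ _))).and
          (Df.ex (P := fun _ v => S.mem (v 0) (v (Fin.succ 0)) ∧
            ¬ S.mem (v 0) (v (Fin.succ (Fin.succ 0)))) ((Df.mem _ _).and (Df.mem _ _).not)))))))))

theorem Df.au (x : Fin n) : Df S (fun D v => AuD S D (v x)) :=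
  Df.all (P := fun _ v => S.mem (v 0) (v x.succ) → S.ur (v 0)) ((Df.mem _ _).imp (Df.ur _))

theorem Df.li (x y : Fin n) : Df S (fun D v => LiD S D (v x) (v y)) := by
  refine (Df.au x).and ((Df.au y).and ((Df.inf x).and ((Df.inf y).and ?_)))
  refine Df.ex (P := fun D v =>
    ((∀ p, D p → ∀ q, D q → ∀ r, D r → (S.mem p (v y.succ) → S.mem q (v x.succ) →
      S.mem r (v x.succ) → ∃ u, D u ∧ (S.ur u ∧ QuD S D (v 0) u p q r))) ∧
    ∀ u, D u → ∀ p, D p → ∀ q, D q → ∀ r, D r → ∀ p', D p' → ∀ q', D q' → ∀ r', D r' →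
      (QuD S D (v 0) u p q r → QuD S D (v 0) u p' q' r' → p = p' ∧ q = q' ∧ r = r'))) ?_
  refine Df.and ?_ ?_
  · have h1 : Df S (n := n + 1 + 1 + 1 + 1) (fun D v => (S.mem (v 2) (v y.succ.succ.succ.succ) →
        S.mem (v 1) (v x.succ.succ.succ.succ) → S.mem (v 0) (v x.succ.succ.succ.succ) →
        ∃ u, D u ∧ (S.ur u ∧ QuD S D (v (Fin.succ (Fin.succ (Fin.succ 0)))) u (v 2) (v 1) (v 0)))) := by
      refine (Df.mem _ _).imp ((Df.mem _ _).imp ((Df.mem _ _).imp ?_))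
      exact Df.ex (P := fun D v => S.ur (v 0) ∧ QuD S D
        (v (Fin.succ (Fin.succ (Fin.succ (Fin.succ 0))))) (v 0) (v (Fin.succ 2)) (v (Fin.succ 1))
        (v (Fin.succ 0))) ((Df.ur _).and (Df.qu _ _ _ _ _))
    exact h1.all.all.all
  · have h1 : Df S (n := n + 1 + 1 + 1 + 1 + 1 + 1 + 1 + 1) (fun D v =>
        QuD S D (v 7) (v 6) (v 5) (v 4) (v 3) → QuD S D (v 7) (v 6) (v 2) (v 1) (v 0) →
          v 5 = v 2 ∧ v 4 = v 1 ∧ v 3 = v 0) :=
      (Df.qu _ _ _ _ _).imp ((Df.qu _ _ _ _ _).imp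
        ((Df.eq _ _).and ((Df.eq _ _).and (Df.eq _ _))))
    exact h1.all.all.all.all.all.all.all

theorem Df.ph : Df S (n := 0) (fun D _ => PhD S D) := by
  refine Df.and ?_ ?_
  · have h1 : Df S (n := 2) (fun D v => LiD S D (v 1) (v 0)) := Df.li _ _
    exact h1.ex.ex
  · have h1 : Df S (n := 2) (fun D v => LiD S D (v 1) (v 0) →
        ∃ y', D y' ∧ ((∀ w, D w → (S.mem w y' → S.mem w (v 0))) ∧ ∃ z, D z ∧ LiD S D y' z)) := by
      refine (Df.li _ _).imp ?_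
      refine Df.ex (P := fun D v => (∀ w, D w → (S.mem w (v 0) → S.mem w (v (Fin.succ 0)))) ∧
        ∃ z, D z ∧ LiD S D (v 0) z) ?_
      refine Df.and ?_ ?_
      · exact Df.all (P := fun _ v => S.mem (v 0) (v (Fin.succ 0)) →
          S.mem (v 0) (v (Fin.succ (Fin.succ 0)))) ((Df.mem _ _).imp (Df.mem _ _))
      · exact Df.ex (P := fun D v => LiD S D (v (Fin.succ 0)) (v 0)) (Df.li _ _)
    exact h1.all.all

end

end Q207.UR
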