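import Pool.Agent.Q207.UR.NM
import Pool.Agent.Q207.UR.NF

namespace Q207.UR

/-- the urelements of the model -/
def uN (u : Ur) : VN := ⟨U.ur u, by
  constructor
  · refine HS.mk ⟨pts u, pts_fin u, fun π hπ => ?_⟩ (fun y hy => (U.not_mem_ur hy).elim)
    rw [U.map_ur, gact_eq (fun p hp => ⟨rfl, hπ p hp⟩)]
  · have h1 : ik (U.ur u) = Prod.fst '' pts u := by
      ext a
      constructor
      · rintro ⟨v, hv, k, hk⟩
        rw [U.ker_ur.1 hv] at hk
        exact ⟨(a, k), hk, rfl⟩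
      · rintro ⟨p, hp, rfl⟩
        exact ⟨u, U.Ker.ur, p.2, hp⟩
    rw [h1]
    exact WO.finite ((pts_fin u).image _)⟩

theorem uN_inj {u v : Ur} : uN u = uN v ↔ u = v :=
  ⟨fun h => U.ur_inj.1 (congrArg Subtype.val h), fun h => h ▸ rfl⟩

theorem ac_uN (g : Ao ≃o Ao) (π : Pm) (u : Ur) : ac g π (uN u) = uN (gact g π u) := rfl

theorem ur_uN (u : Ur) : NN.ur (uN u) := U.not_isSt_ur

theorem ex_uN {x : VN} (h : NN.ur x) : ∃ u, x = uN u := by
  rcases U.cases_ur x.1 with ⟨u, hu⟩ | hx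
  · exact ⟨u, Subtype.ext hu⟩
  · exact absurd hx h

theorem mem_ki_uN {u : Ur} {a : Ao} : a ∈ ki (uN u) ↔ ∃ k, (a, k) ∈ pts u := by
  constructor
  · rintro ⟨v, hv, hk⟩
    rw [U.ker_ur.1 hv] at hk
    exact hk
  · intro h
    exact ⟨u, U.Ker.ur, h⟩

theorem ex_upN (x y : VN) : ∃ z, ¬ NN.ur z ∧ ∀ w, NN.mem w z ↔ w = x ∨ w = y := zfu.pairing x y

/-- unordered pairs -/
noncomputable def upN (x y : VN) : VN := (ex_upN x y).choose

theorem mem_upN {w x y : VN} : NN.mem w (upN x y) ↔ w = x ∨ w = y := (ex_upN x y).choose_spec.2 w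

theorem upN_nur {x y : VN} : ¬ NN.ur (upN x y) := (ex_upN x y).choose_spec.1

/-- ordered pairs -/
noncomputable def opN (x y : VN) : VN := upN (upN x x) (upN x y)

theorem upN_inj {x y y' : VN} (h : upN x y = upN x y') : y = y' := by
  have h1 : NN.mem y (upN x y') := by rw [← h]; exact mem_upN.2 (Or.inr rfl)
  rcases mem_upN.1 h1 with h2 | h2
  · have h3 : NN.mem y' (upN x y) := by rw [h]; exact mem_upN.2 (Or.inr rfl)
    rcases mem_upN.1 h3 with h4 | h4
    · rw [h2, h4]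
    · exact h4.symm
  · exact h2

theorem opN_inj {x y x' y' : VN} (h : opN x y = opN x' y') : x = x' ∧ y = y' := by
  have h1 : NN.mem (upN x x) (opN x' y') := by rw [← h]; exact mem_upN.2 (Or.inl rfl)
  have h2 : x = x' := by
    rcases mem_upN.1 h1 with h2 | h2
    · have h3 : NN.mem x (upN x' x') := by rw [← h2]; exact mem_upN.2 (Or.inl rfl)
      rcases mem_upN.1 h3 with h4 | h4 <;> exact h4
    · have h3 : NN.mem x' (upN x x) := by rw [h2]; exact mem_upN.2 (Or.inl rfl)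
      rcases mem_upN.1 h3 with h4 | h4 <;> exact h4.symm
  subst h2
  exact ⟨rfl, upN_inj (upN_inj h)⟩

theorem ac_upN {g : Ao ≃o Ao} {π : Pm} {x y : VN} :
    ac g π (upN x y) = upN (ac g π x) (ac g π y) := by
  apply nn_ext (by rw [ur_ac]; exact upN_nur) upN_nur
  intro w
  have h1 : w = ac g π (ac g.symm (inv g π) w) := (ac_inv' g π w).symm
  rw [h1, mem_ac, mem_upN, mem_upN]
  have h2 : ∀ z, ac g.symm (inv g π) w = z ↔ ac g π (ac g.symm (inv g π) w) = ac g π z := fun z =>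
    ((eqN g π).injective.eq_iff (a := ac g.symm (inv g π) w) (b := z)).symm
  rw [h2, h2]

theorem ac_opN {g : Ao ≃o Ao} {π : Pm} {x y : VN} :
    ac g π (opN x y) = opN (ac g π x) (ac g π y) := by
  unfold opN
  rw [ac_upN, ac_upN, ac_upN]

/-- the quadruples -/
noncomputable def qu (u p q r : VN) : VN := opN u (opN p (opN q r))

theorem ac_qu {g : Ao ≃o Ao} {π : Pm} {u p q r : VN} :
    ac g π (qu u p q r) = qu (ac g π u) (ac g π p) (ac g π q) (ac g π r) := by
  unfold qu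
  rw [ac_opN, ac_opN, ac_opN]

/-- transitive domains -/
def TrD (D : VN → Prop) : Prop := ∀ x, D x → ∀ y, NN.mem y x → D y

section
variable {D : VN → Prop} (hD : TrD D)
include hD

theorem upD_iff {z x y : VN} (hz : D z) (hx : D x) (hy : D y) : UpD NN D z x y ↔ z = upN x y := by
  constructor
  · rintro ⟨h1, h2⟩
    apply nn_ext h1 upN_nur
    intro w
    rw [mem_upN]
    constructor
    · intro hw
      exact (h2 w (hD z hz w hw)).1 hw
    · rintro (rfl | rfl)
      · exact (h2 _ hx).2 (Or.inl rfl)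
      · exact (h2 _ hy).2 (Or.inr rfl)
  · rintro rfl
    exact ⟨upN_nur, fun w _ => mem_upN⟩

theorem opD_iff {p x y : VN} (hp : D p) (hx : D x) (hy : D y) : OpD NN D p x y ↔ p = opN x y := by
  constructor
  · rintro ⟨a, ha, b, hb, h1, h2, h3⟩
    rw [upD_iff hD ha hx hx] at h1
    rw [upD_iff hD hb hx hy] at h2
    rw [upD_iff hD hp ha hb] at h3
    rw [h3, h1, h2]; rfl
  · rintro rfl
    have ha : D (upN x x) := hD _ hp _ (mem_upN.2 (Or.inl rfl))
    have hb : D (upN x y) := hD _ hp _ (mem_upN.2 (Or.inr rfl))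
    exact ⟨_, ha, _, hb, (upD_iff hD ha hx hx).2 rfl, (upD_iff hD hb hx hy).2 rfl,
      (upD_iff hD hp ha hb).2 rfl⟩

theorem quD_iff {f u p q r : VN} (hf : D f) (hu : D u) (hp : D p) (hq : D q) (hr : D r) :
    QuD NN D f u p q r ↔ NN.mem (qu u p q r) f := by
  constructor
  · rintro ⟨s, hs, t, ht, w, hw, h1, h2, h3, h4⟩
    rw [opD_iff hD hs hq hr] at h1
    rw [opD_iff hD ht hp hs] at h2
    rw [opD_iff hD hw hu ht] at h3
    rw [h3, h2, h1] at h4
    exact h4
  · intro h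
    have hw : D (qu u p q r) := hD _ hf _ h
    have ht : D (opN p (opN q r)) :=
      hD _ (hD _ hw (upN u (opN p (opN q r))) (mem_upN.2 (Or.inr rfl))) _ (mem_upN.2 (Or.inr rfl))
    have hs : D (opN q r) :=
      hD _ (hD _ ht (upN p (opN q r)) (mem_upN.2 (Or.inr rfl))) _ (mem_upN.2 (Or.inr rfl))
    exact ⟨_, hs, _, ht, _, hw, (opD_iff hD hs hq hr).2 rfl, (opD_iff hD ht hp hs).2 rfl,
      (opD_iff hD hw hu ht).2 rfl, h⟩

theorem inD_inf {x : VN} (h : InD NN D x) : {w | NN.mem w x}.Infinite := by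
  classical
  obtain ⟨F, hF, ⟨s0, -, hs0⟩, h2⟩ := h
  intro hfin
  -- the subsets in `F` grow for ever
  have h3 : ∀ n : ℕ, ∃ s, NN.mem s F ∧ ∃ T : Finset VN, (∀ w ∈ T, NN.mem w s) ∧ T.card = n := by
    intro n
    induction n with
    | zero => exact ⟨s0, hs0, ∅, by simp, rfl⟩
    | succ n ih =>
      obtain ⟨s, hs, T, hT, hTn⟩ := ih
      have hsD := hD F hF s hs
      obtain ⟨-, s', hs'D, hs', hss, w, hwD, hw, hw'⟩ := h2 s hsD hs
      refine ⟨s', hs', insert w T, ?_, ?_⟩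
      · intro v hv
        rcases Finset.mem_insert.1 hv with h | h
        · rw [h]; exact hw
        · exact hss v (hD s hsD v (hT v h)) (hT v h)
      · rw [Finset.card_insert_of_notMem (fun h => hw' (hT w h)), hTn]
  obtain ⟨s, hs, T, hT, hTn⟩ := h3 (hfin.toFinset.card + 1)
  have hsD := hD F hF s hs
  have h4 : T ⊆ hfin.toFinset := by
    intro v hv
    rw [Set.Finite.mem_toFinset]
    exact (h2 s hsD hs).1 v (hD s hsD v (hT v hv)) (hT v hv)
  have := Finset.card_le_card h4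
  omega

end

/-- real links -/
structure Lnk (x y f : VN) : Prop where
  ux : ∀ w, NN.mem w x → NN.ur w
  uy : ∀ w, NN.mem w y → NN.ur w
  ix : {w | NN.mem w x}.Infinite
  iy : {w | NN.mem w y}.Infinite
  sur : ∀ p q r, NN.mem p y → NN.mem q x → NN.mem r x → ∃ u, NN.ur u ∧ NN.mem (qu u p q r) f
  fn : ∀ u p q r p' q' r', NN.mem (qu u p q r) f → NN.mem (qu u p' q' r') f →
    p = p' ∧ q = q' ∧ r = r'

theorem qu_mem {u p q r f : VN} {D : VN → Prop} (hD : TrD D) (hf : D f)
    (h : NN.mem (qu u p q r) f) : D u ∧ D p ∧ D q ∧ D r := by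
  have h1 : ∀ a b, D (opN a b) → D a ∧ D b := fun a b hab =>
    ⟨hD _ (hD _ hab (upN a b) (mem_upN.2 (Or.inr rfl))) _ (mem_upN.2 (Or.inl rfl)),
      hD _ (hD _ hab (upN a b) (mem_upN.2 (Or.inr rfl))) _ (mem_upN.2 (Or.inr rfl))⟩
  have h2 := h1 _ _ (hD _ hf _ h)
  have h3 := h1 _ _ h2.2
  have h4 := h1 _ _ h3.2
  exact ⟨h2.1, h3.1, h4.1, h4.2⟩

theorem LiD.lnk {D : VN → Prop} (hD : TrD D) {x y : VN} (hx : D x) (hy : D y)
    (h : LiD NN D x y) : ∃ f, Lnk x y f := by
  obtain ⟨h1, h2, h3, h4, f, hf, h5, h6⟩ := h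
  refine ⟨f, fun w hw => h1 w (hD _ hx _ hw) hw, fun w hw => h2 w (hD _ hy _ hw) hw,
    inD_inf hD h3, inD_inf hD h4, ?_, ?_⟩
  · intro p q r hp hq hr
    have hp' := hD _ hy _ hp
    have hq' := hD _ hx _ hq
    have hr' := hD _ hx _ hr
    obtain ⟨u, hu, hu1, hu2⟩ := h5 p hp' q hq' r hr' hp hq hr
    exact ⟨u, hu1, (quD_iff hD hf hu hp' hq' hr').1 hu2⟩
  · intro u p q r p' q' r' h7 h8
    obtain ⟨a1, a2, a3, a4⟩ := qu_mem hD hf h7
    obtain ⟨-, b2, b3, b4⟩ := qu_mem hD hf h8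
    exact h6 u a1 p a2 q a3 r a4 p' b2 q' b3 r' b4 ((quD_iff hD hf a1 a2 a3 a4).2 h7)
      ((quD_iff hD hf a1 b2 b3 b4).2 h8)

/-- infinite sets are infinite in the model -/
theorem inD_top {x : VN} (hx : {w | NN.mem w x}.Infinite) : InD NN (fun _ => True) x := by
  obtain ⟨E, hE, hEx⟩ := ex_su x
  obtain ⟨P, hP0, hP⟩ := zfu.power x (fun h => hx.nonempty.elim fun w hw => h (U.isSt_of_mem hw))
  obtain ⟨F, hF0, hF⟩ := sub_set P (fun s => {w | NN.mem w s}.Finite) ∅ Set.finite_empty (by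
    intro π _ w hw
    have : {v | NN.mem v (ap π w)} = ap π '' {v | NN.mem v w} := by
      ext v
      constructor
      · intro hv
        refine ⟨ac (OrderIso.refl Ao).symm (inv (OrderIso.refl Ao) π) v, ?_,
          ac_inv' (OrderIso.refl Ao) π v⟩
        have h1 : NN.mem v (ap π w) := hv
        rw [← ac_inv' (OrderIso.refl Ao) π v] at h1
        exact mem_ac.1 h1
      · rintro ⟨v, hv, rfl⟩
        exact mem_ac.2 hv
    rw [this]
    exact hw.image _)
  obtain ⟨e, he0, he⟩ : ∃ e, ¬ NN.ur e ∧ ∀ w, ¬ NN.mem w e := by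
    obtain ⟨z, ⟨e, -, h1, h2⟩, -⟩ := zfu.infinity
    exact ⟨e, h1, h2⟩
  refine ⟨F, trivial, ⟨e, trivial, (hF e).2 ⟨(hP e).2 ⟨he0, fun t ht => (he t ht).elim⟩, ?_⟩⟩, ?_⟩
  · have : {w | NN.mem w e} = ∅ := by
      ext w
      simp only [Set.mem_empty_iff_false, iff_false]
      exact he w
    rw [this]
    exact Set.finite_empty
  · intro s _ hs
    obtain ⟨hs1, hs2⟩ := (hF s).1 hs
    obtain ⟨hs3, hs4⟩ := (hP s).1 hs1
    refine ⟨fun w _ hw => hs4 w hw, ?_⟩
    obtain ⟨w, hw, hws⟩ := (hx.sdiff hs2).nonempty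
    obtain ⟨y, hy0, hy⟩ := zfu.pairing w w
    obtain ⟨z, hz0, hz⟩ := zfu.pairing s y
    obtain ⟨s', hs'0, hs'⟩ := zfu.union z
    have h5 : ∀ v, NN.mem v s' ↔ NN.mem v s ∨ v = w := by
      intro v
      rw [hs']
      constructor
      · rintro ⟨a, ha, hva⟩
        rcases (hz a).1 ha with rfl | rfl
        · exact Or.inl hva
        · rcases (hy v).1 hva with h | h <;> exact Or.inr h
      · rintro (h | h)
        · exact ⟨s, (hz s).2 (Or.inl rfl), h⟩
        · exact ⟨y, (hz y).2 (Or.inr rfl), (hy v).2 (Or.inl h)⟩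
    refine ⟨s', trivial, (hF s').2 ⟨(hP s').2 ⟨hs'0, fun t ht => ?_⟩, ?_⟩,
      fun v _ hv => (h5 v).2 (Or.inl hv), w, trivial, (h5 w).2 (Or.inr rfl), hws⟩
    · rcases (h5 t).1 ht with h | h
      · exact hs4 t h
      · rw [h]; exact hw
    · have : {v | NN.mem v s'} = {v | NN.mem v s} ∪ {w} := by
        ext v
        exact h5 v
      rw [this]
      exact hs2.union (Set.finite_singleton w)

/-- finitely many urelements have given points -/
theorem fin_pts {E : Set (Ao × ℕ)} (hE : E.Finite) : {u : Ur | pts u ⊆ E}.Finite := by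
  classical
  let F1 : Ao × ℕ → Ur := fun p => .b p.1 p.2
  let F2 : (Ao × ℕ) × (Ao × ℕ) × (Ao × ℕ) → Ur := fun p =>
    if h : p.1.1 < p.2.1.1 then .d p.1.1 p.2.1.1 h p.1.2 p.2.1.2 p.2.2.2 else .b p.1.1 0
  refine ((hE.image F1).union ((hE.prod (hE.prod hE)).image F2)).subset ?_
  intro u hu
  cases u with
  | b a k => exact Or.inl ⟨(a, k), hu rfl, rfl⟩
  | d a c h k l m =>
    refine Or.inr ⟨((a, k), (c, l), (c, m)), ⟨hu (Or.inl rfl), hu (Or.inr (Or.inl rfl)),
      hu (Or.inr (Or.inr rfl))⟩, ?_⟩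
    simp only [F2, dif_pos h]

theorem exists_gen {x : VN} (hx : ∀ w, NN.mem w x → NN.ur w) (hi : {w | NN.mem w x}.Infinite)
    {E : Set (Ao × ℕ)} (hE : E.Finite) : ∃ u, NN.mem (uN u) x ∧ ∃ p ∈ pts u, p ∉ E := by
  by_contra hcon
  push Not at hcon
  apply hi
  refine ((fin_pts hE).image uN).subset ?_
  intro w hw
  obtain ⟨u, rfl⟩ := ex_uN (hx w hw)
  exact ⟨u, fun p hp => hcon u hw p hp, rfl⟩

/-- the permutation that exchanges `k` and `k + N` for `k ∈ A` -/
theorem shift_inv (A : Set ℕ) (N : ℕ) (hA : ∀ k ∈ A, k < N) [DecidablePred (· ∈ A)] :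
    Function.Involutive (fun k => if k ∈ A then k + N else if N ≤ k ∧ k - N ∈ A then k - N
      else k) := by
  intro k
  by_cases h1 : k ∈ A
  · have h2 : k + N ∉ A := fun h => by have := hA _ h; omega
    simp only [if_pos h1, if_neg h2]
    rw [if_pos ⟨by omega, by rw [Nat.add_sub_cancel]; exact h1⟩]
    omega
  · by_cases h2 : N ≤ k ∧ k - N ∈ A
    · simp only [if_neg h1, if_pos h2, if_pos h2.2]
      omega
    · simp only [if_neg h1, if_neg h2]

theorem exists_shift (A E : Set (Ao × ℕ)) (N : ℕ) (hA : ∀ p ∈ A, p.2 < N)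
    (hE : ∀ p ∈ E, p.2 < N) (hAE : ∀ p ∈ A, p ∉ E) :
    ∃ π : Pm, Fx E π ∧ ∀ p ∈ A, π p.1 p.2 = p.2 + N := by
  classical
  refine ⟨fun a => (shift_inv {k | (a, k) ∈ A} N (fun k hk => hA _ hk)).toPerm, ?_, ?_⟩
  · intro p hp
    change (if p.2 ∈ {k | (p.1, k) ∈ A} then p.2 + N else
      if N ≤ p.2 ∧ p.2 - N ∈ {k | (p.1, k) ∈ A} then p.2 - N else p.2) = p.2
    rw [if_neg (show ¬ p.2 ∈ {k | (p.1, k) ∈ A} from fun h => hAE _ h hp), if_neg]
    rintro ⟨h1, -⟩
    have := hE p hp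
    omega
  · intro p hp
    change (if p.2 ∈ {k | (p.1, k) ∈ A} then p.2 + N else
      if N ≤ p.2 ∧ p.2 - N ∈ {k | (p.1, k) ∈ A} then p.2 - N else p.2) = p.2 + N
    exact if_pos hp

/-- the transposition in one block -/
noncomputable def tr (a : Ao) (k l : ℕ) : Pm := by
  classical
  exact fun c => if c = a then Equiv.swap k l else Equiv.refl ℕ

theorem tr_self (a : Ao) (k l : ℕ) : tr a k l a = Equiv.swap k l := by
  classical
  unfold tr
  exact if_pos rfl

theorem tr_of {a c : Ao} {k l m : ℕ} (h1 : (c, m) ≠ (a, k)) (h2 : (c, m) ≠ (a, l)) :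
    tr a k l c m = m := by
  classical
  by_cases h : c = a
  · subst h
    rw [tr_self]
    exact Equiv.swap_apply_of_ne_of_ne (fun h => h1 (by rw [h])) (fun h => h2 (by rw [h]))
  · unfold tr
    simp only [if_neg h]
    rfl

theorem exists_bound {E : Set (Ao × ℕ)} (hE : E.Finite) : ∃ N, ∀ p ∈ E, p.2 < N := by
  obtain ⟨N, hN⟩ := (hE.image Prod.snd).bddAbove
  refine ⟨N + 1, fun p hp => ?_⟩
  have := hN ⟨p, hp, rfl⟩
  omega

theorem three {α : Type*} {x y z P Q R : α} (hPQ : P ≠ Q) (hPR : P ≠ R) (hQR : Q ≠ R)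
    (hP : P = x ∨ P = y ∨ P = z) (hQ : Q = x ∨ Q = y ∨ Q = z) (hR : R = x ∨ R = y ∨ R = z)
    (w : α) (hw : w = x ∨ w = y ∨ w = z) : w = P ∨ w = Q ∨ w = R := by
  rcases hP with rfl | rfl | rfl <;> rcases hQ with rfl | rfl | rfl <;>
    rcases hR with rfl | rfl | rfl <;> simp_all <;> tauto

/-- the key lemma on links -/
theorem link_key {x y f : VN} (h : Lnk x y f) {E : Set (Ao × ℕ)} (hE : E.Finite)
    (hEx : SuN E x) (hEf : SuN E f) {p0 q0 : Ur} (hp : NN.mem (uN p0) y)
    (hq : NN.mem (uN q0) x) {P Q : Ao × ℕ} (hP : P ∈ pts p0) (hPE : P ∉ E) (hQ : Q ∈ pts q0)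
    (hQE : Q ∉ E) : P.1 < Q.1 ∧ (∀ R ∈ pts p0, R ∉ E → R = P) ∧ ∀ R ∈ pts q0, R ∉ E → R = Q := by
  obtain ⟨N, hN⟩ := exists_bound (((pts_fin p0).union (pts_fin q0)).union hE)
  have hNp : ∀ R ∈ pts p0, R.2 < N := fun R hR => hN R (Or.inl (Or.inl hR))
  have hNq : ∀ R ∈ pts q0, R.2 < N := fun R hR => hN R (Or.inl (Or.inr hR))
  have hNE : ∀ R ∈ E, R.2 < N := fun R hR => hN R (Or.inr hR)
  obtain ⟨π1, hπ1, hs1⟩ := exists_shift (pts q0 \ E) E N (fun R hR => hNq R hR.1) hNE
    (fun R hR => hR.2)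
  obtain ⟨π2, hπ2, hs2⟩ := exists_shift (pts q0 \ E) E (N + N)
    (fun R hR => by have := hNq R hR.1; omega) (fun R hR => by have := hNE R hR; omega)
    (fun R hR => hR.2)
  have hq1 : NN.mem (ap π1 (uN q0)) x := by
    rw [← hEx π1 hπ1]; exact mem_ac.2 hq
  have hq2 : NN.mem (ap π2 (uN q0)) x := by
    rw [← hEx π2 hπ2]; exact mem_ac.2 hq
  obtain ⟨u, hu, hqu⟩ := h.sur _ _ _ hp hq1 hq2
  obtain ⟨u0, rfl⟩ := ex_uN hu
  -- the points of `u0`
  have hpts : ∀ R : Ao × ℕ, R ∉ E → (R ∈ pts p0 ∨ R ∈ pts (gact (OrderIso.refl Ao) π1 q0) ∨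
      R ∈ pts (gact (OrderIso.refl Ao) π2 q0)) → R ∈ pts u0 := by
    intro R hRE hR
    by_contra hRu
    obtain ⟨M, hM⟩ := exists_bound (((((pts_fin p0).union
      (pts_fin (gact (OrderIso.refl Ao) π1 q0))).union
      (pts_fin (gact (OrderIso.refl Ao) π2 q0))).union (pts_fin u0)).union hE)
    have hfix : Fx E (tr R.1 R.2 M) := by
      intro p hp
      refine tr_of (fun h => hRE ?_) (fun h => ?_)
      · have : R = p := h.symm
        rw [this]; exact hp
      · have h1 := hM p (Or.inr hp)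
        have h2 : p.2 = M := congrArg Prod.snd h
        omega
    have hu' : ap (tr R.1 R.2 M) (uN u0) = uN u0 := by
      change uN _ = uN u0
      rw [gact_eq]
      intro p hp
      refine ⟨rfl, tr_of (fun h => hRu ?_) (fun h => ?_)⟩
      · have : R = p := h.symm
        rw [this]; exact hp
      · have h1 := hM p (Or.inl (Or.inr hp))
        have h2 : p.2 = M := congrArg Prod.snd h
        omega
    have h3 := (mem_ac (g := OrderIso.refl Ao) (π := tr R.1 R.2 M)).2 hqu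
    rw [ac_qu, hEf _ hfix] at h3
    change NN.mem (qu (ap (tr R.1 R.2 M) (uN u0)) _ _ _) f at h3
    rw [hu'] at h3
    obtain ⟨e1, e2, e3⟩ := h.fn _ _ _ _ _ _ _ h3 hqu
    have hcon : ∀ v : Ur, ap (tr R.1 R.2 M) (uN v) = uN v → (∀ p ∈ pts v, p.2 < M) →
        R ∉ pts v := by
      intro v hv hvM hRv
      have h4 : gact (OrderIso.refl Ao) (tr R.1 R.2 M) v = v := uN_inj.1 hv
      have h5 : ((R.1, M) : Ao × ℕ) ∈ pts v := by
        rw [← h4]
        refine mem_pts_gact.2 ⟨R, hRv, ?_⟩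
        rw [tr_self, Equiv.swap_apply_left]
        rfl
      have := hvM _ h5
      simp only at this
      omega
    rcases hR with h6 | h6 | h6
    · exact hcon p0 e1 (fun p hp => hM p (Or.inl (Or.inl (Or.inl (Or.inl hp))))) h6
    · exact hcon _ e2 (fun p hp => hM p (Or.inl (Or.inl (Or.inl (Or.inr hp))))) h6
    · exact hcon _ e3 (fun p hp => hM p (Or.inl (Or.inl (Or.inr hp)))) h6
  have hsh1 : ∀ R ∈ pts q0, R ∉ E → ((R.1, R.2 + N) : Ao × ℕ) ∈ pts u0 := by
    intro R hR hRE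
    apply hpts
    · intro h1
      have := hNE _ h1
      simp only at this
      omega
    · right; left
      exact mem_pts_gact.2 ⟨R, hR, by rw [hs1 R ⟨hR, hRE⟩]; rfl⟩
  have hsh2 : ∀ R ∈ pts q0, R ∉ E → ((R.1, R.2 + (N + N)) : Ao × ℕ) ∈ pts u0 := by
    intro R hR hRE
    apply hpts
    · intro h1
      have := hNE _ h1
      simp only at this
      omega
    · right; right
      exact mem_pts_gact.2 ⟨R, hR, by rw [hs2 R ⟨hR, hRE⟩]; rfl⟩
  have hPu := hpts P hPE (Or.inl hP)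
  have hQ1 := hsh1 Q hQ hQE
  have hQ2 := hsh2 Q hQ hQE
  have hPN := hNp P hP
  have hQN := hNq Q hQ
  have n1 : P ≠ (Q.1, Q.2 + N) := fun h => by
    have := congrArg Prod.snd h
    simp only at this
    omega
  have n2 : P ≠ (Q.1, Q.2 + (N + N)) := fun h => by
    have := congrArg Prod.snd h
    simp only at this
    omega
  have n3 : ((Q.1, Q.2 + N) : Ao × ℕ) ≠ (Q.1, Q.2 + (N + N)) := fun h => by
    have := congrArg Prod.snd h
    simp only at this
    omega
  cases u0 with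
  | b a k =>
    exfalso
    rw [show P = (a, k) from hPu, show ((Q.1, Q.2 + N) : Ao × ℕ) = (a, k) from hQ1] at n1
    exact n1 rfl
  | d a c hac k l m =>
    have hall := three n1 n2 n3 hPu hQ1 hQ2
    refine ⟨?_, ?_, ?_⟩
    · -- the first point is `P`
      have h1 : P.1 = a ∨ P.1 = c := by
        rcases hPu with h | h | h
        · exact Or.inl (congrArg Prod.fst h)
        · exact Or.inr (congrArg Prod.fst h)
        · exact Or.inr (congrArg Prod.fst h)
      have h2 : Q.1 = c := by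
        rcases hQ1 with h | h | h
        · rcases hQ2 with h' | h' | h'
          · exact absurd (h.trans h'.symm) n3
          · exact congrArg Prod.fst h'
          · exact congrArg Prod.fst h'
        · exact congrArg Prod.fst h
        · exact congrArg Prod.fst h
      rcases h1 with h1 | h1
      · rw [h1, h2]; exact hac
      · exfalso
        rcases hall (a, k) (Or.inl rfl) with h | h | h
        · have : a = c := by rw [← h1, ← h]
          exact hac.ne this
        · have : a = c := by rw [← h2]; exact congrArg Prod.fst h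
          exact hac.ne this
        · have : a = c := by rw [← h2]; exact congrArg Prod.fst h
          exact hac.ne this
    · intro R hR hRE
      rcases hall R (hpts R hRE (Or.inl hR)) with h | h | h
      · exact h
      · have h1 := congrArg Prod.snd h
        have h2 := hNp R hR
        simp only at h1
        omega
      · have h1 := congrArg Prod.snd h
        have h2 := hNp R hR
        simp only at h1
        omega
    · intro R hR hRE
      have h2 := hNq R hR
      rcases hall _ (hsh1 R hR hRE) with h | h | h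
      · have h1 := congrArg Prod.snd h
        simp only at h1
        omega
      · have h1 := congrArg Prod.snd h
        have h3 := congrArg Prod.fst h
        simp only at h1 h3
        exact Prod.ext h3 (by omega)
      · have h1 := congrArg Prod.snd h
        simp only at h1
        omega

end Q207.UR
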