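import Pool.Agent.Q207.UR.NU

namespace Q207.UR

theorem Fx.mono {E E' : Set (Ao × ℕ)} {π : Pm} (h : Fx E' π) (hE : E ⊆ E') : Fx E π :=
  fun p hp => h p (hE hp)

/-- the action of the permutations alone -/
noncomputable abbrev ap (π : Pm) (x : VN) : VN := ac (OrderIso.refl Ao) π x

theorem ki_ap {π : Pm} {x : VN} : ki (ap π x) = ki x := by
  unfold ki
  have := ik_map (g := OrderIso.refl Ao) (π := π) (x := x.1)
  refine this.trans ?_
  ext a
  constructor
  · rintro ⟨b, hb, rfl⟩; exact hb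
  · intro h; exact ⟨a, h, rfl⟩

theorem ki_ac {g : Ao ≃o Ao} {π : Pm} {x : VN} : ki (ac g π x) = g '' ki x := ik_map

/-- finite support and index set for finitely many parameters -/
theorem ex_su_fin {n : ℕ} (v : Fin n → VN) : ∃ E : Set (Ao × ℕ), E.Finite ∧
    ∀ π : Pm, Fx E π → (fun i => ap π (v i)) = v := by
  choose E h1 h2 using fun i => ex_su (v i)
  refine ⟨⋃ i, E i, Set.finite_iUnion h1, fun π hπ => ?_⟩
  funext i
  exact h2 i π (hπ.mono (Set.subset_iUnion E i))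

theorem ex_ki_fin {n : ℕ} (v : Fin n → VN) : ∃ K : Set Ao, WO K ∧ Small.{0} K ∧
    ∀ i, ki (v i) ⊆ K := by
  induction n with
  | zero => exact ⟨∅, WO.finite Set.finite_empty, inferInstance, fun i => i.elim0⟩
  | succ n ih =>
    obtain ⟨K, h1, h2, h3⟩ := ih (fun i => v i.succ)
    have := ki_small (v 0)
    refine ⟨ki (v 0) ∪ K, (ki_wo _).union h1, small_union _ _, fun i => ?_⟩
    refine Fin.cases ?_ (fun i => ?_) i
    · exact Set.subset_union_left
    · exact (h3 i).trans Set.subset_union_right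

theorem cons_map {V : Type 1} (e : V → V) {n : ℕ} (x : V) (v : Fin n → V) :
    (fun i => e ((Fin.cons x v : Fin (n + 1) → V) i)) =
      (Fin.cons (e x) (fun i => e (v i)) : Fin (n + 1) → V) := by
  funext i
  refine Fin.cases ?_ (fun i => ?_) i <;> simp

theorem ho_ac1 (g : Ao ≃o Ao) (π : Pm) {n : ℕ} {φ : UF (n + 1)} {v : Fin n → VN}
    (hv : (fun i => ac g π (v i)) = v) {x : VN} (h : Ho NN φ (Fin.cons x v)) :
    Ho NN φ (Fin.cons (ac g π x) v) := by
  have h1 := (ho_ac g π φ (Fin.cons x v)).2 h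
  rw [cons_map, hv] at h1
  exact h1

theorem ho_ac2 (g : Ao ≃o Ao) (π : Pm) {n : ℕ} {φ : UF (n + 2)} {v : Fin n → VN}
    (hv : (fun i => ac g π (v i)) = v) {x y : VN} (h : Ho NN φ (Fin.cons x (Fin.cons y v))) :
    Ho NN φ (Fin.cons (ac g π x) (Fin.cons (ac g π y) v)) := by
  have h1 := (ho_ac g π φ (Fin.cons x (Fin.cons y v))).2 h
  rw [cons_map, cons_map, hv] at h1
  exact h1

/-- the subsets of a set given by invariant properties -/
theorem sub_set (x : VN) (P : VN → Prop) (E : Set (Ao × ℕ)) (hE : E.Finite)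
    (hP : ∀ π : Pm, Fx E π → ∀ w, P w → P (ap π w)) :
    ∃ z, ¬ NN.ur z ∧ ∀ w, NN.mem w z ↔ NN.mem w x ∧ P w := by
  obtain ⟨E', hE', hx⟩ := ex_su x
  have := small_memN x
  obtain ⟨z, h1, h2, -⟩ := exists_setN {w | NN.mem w x ∧ P w}
    (small_subset (s := {w | NN.mem w x}) (fun w hw => hw.1)) (E ∪ E') (hE.union hE') (by
      rintro π hπ w ⟨hw1, hw2⟩
      refine ⟨?_, hP π (hπ.mono Set.subset_union_left) w hw2⟩
      rw [← hx π (hπ.mono Set.subset_union_right)]
      exact mem_ac.2 hw1) (ki x) (ki_wo x) (fun w hw => ki_mem hw.1)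
  exact ⟨z, h1, h2⟩

theorem ki_val {n : ℕ} {φ : UF (n + 2)} {v : Fin n → VN} {K : Set Ao} (hKs : Small.{0} K)
    (hv : ∀ i, ki (v i) ⊆ K) {x y : VN} (hx : ki x ⊆ K)
    (hF : ∀ y', Ho NN φ (Fin.cons x (Fin.cons y' v)) → y' = y)
    (h : Ho NN φ (Fin.cons x (Fin.cons y v))) : ki y ⊆ K := by
  obtain ⟨j, hj⟩ := ao_enum
  intro a ha
  by_contra haK
  obtain ⟨g, hg1, hg2⟩ := exists_down ao_sat hj K hKs a haK
  have hfix : ∀ z : VN, ki z ⊆ K → ac g (fun _ => Equiv.refl ℕ) z = z := fun z hz =>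
    (ac_congr fun b hb => ⟨hg1 b (hz hb), rfl⟩).trans ac_one
  have h1 := hfix x hx
  have h2 : (fun i => ac g (fun _ => Equiv.refl ℕ) (v i)) = v := by
    funext i; exact hfix _ (hv i)
  have h3 := ho_ac2 g (fun _ => Equiv.refl ℕ) h2 h
  rw [h1] at h3
  have h4 := hF _ h3
  have h5 : ∀ n, (g^[n]) a ∈ ki y := by
    intro n
    induction n with
    | zero => exact ha
    | succ n ih =>
      rw [Function.iterate_succ_apply', ← h4, ki_ac]
      exact ⟨_, ih, rfl⟩
  refine (ki_wo y).no_desc (fun n => (g^[n]) a) h5 (fun n => ?_)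
  induction n with
  | zero => exact hg2
  | succ n ih =>
    simp only [Function.iterate_succ_apply'] at ih ⊢
    exact g.strictMono ih

/-- the model satisfies `ZFU_R` -/
theorem zfu : ZFU NN where
  urel := fun x y hy h => hy (U.isSt_of_mem h)
  ext := fun x y hx hy h => nn_ext hx hy h
  foundation := by
    rintro x ⟨y, hy⟩
    obtain ⟨m, hm, hm'⟩ := U.wf.has_min {z | U.Mem z x.1} ⟨y.1, hy⟩
    obtain ⟨w, rfl, hw⟩ := ex_of_memN hm
    exact ⟨w, hw, fun z hz hz' => hm' z.1 hz' hz⟩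
  pairing := by
    intro x y
    obtain ⟨E, hE, hx⟩ := ex_su x
    obtain ⟨E', hE', hy⟩ := ex_su y
    obtain ⟨z, h1, h2, -⟩ := exists_setN {x, y} inferInstance (E ∪ E') (hE.union hE') (by
      rintro π hπ w (rfl | rfl)
      · exact Or.inl (hx π (hπ.mono Set.subset_union_left))
      · exact Or.inr (hy π (hπ.mono Set.subset_union_right))) (ki x ∪ ki y)
      ((ki_wo x).union (ki_wo y)) (by
      rintro w (rfl | rfl)
      · exact Set.subset_union_left
      · exact Set.subset_union_right)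
    exact ⟨z, h1, h2⟩
  union := by
    intro x
    obtain ⟨E, hE, hx⟩ := ex_su x
    obtain ⟨z, h1, h2, -⟩ := exists_setN {w | ∃ y, NN.mem y x ∧ NN.mem w y} (by
      have h1 : {w | ∃ y, NN.mem y x ∧ NN.mem w y} = ⋃ y : {y | NN.mem y x}, {w | NN.mem w y.1} := by
        ext w
        rw [Set.mem_iUnion]
        exact ⟨fun ⟨y, h1, h2⟩ => ⟨⟨y, h1⟩, h2⟩, fun ⟨y, h2⟩ => ⟨y.1, y.2, h2⟩⟩
      rw [h1]
      have := small_memN x
      have := fun y : {y | NN.mem y x} => small_memN y.1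
      exact small_iUnion _) E hE (by
        rintro π hπ w ⟨y, hy, hw⟩
        refine ⟨ap π y, ?_, mem_ac.2 hw⟩
        rw [← hx π hπ]
        exact mem_ac.2 hy) (ki x) (ki_wo x) (fun w ⟨y, h1, h2⟩ => (ki_mem h2).trans (ki_mem h1))
    exact ⟨z, h1, h2⟩
  power := by
    intro x _
    obtain ⟨E, hE, hx⟩ := ex_su x
    obtain ⟨z, h1, h2, -⟩ := exists_setN {w | ¬ NN.ur w ∧ ∀ t, NN.mem t w → NN.mem t x} (by
      have := small_memN x
      have h1 : Function.Injective (fun (w : {w | ¬ NN.ur w ∧ ∀ t, NN.mem t w → NN.mem t x}) =>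
          (fun t : {t | NN.mem t x} => NN.mem t.1 w.1)) := by
        intro w w' h
        apply Subtype.ext
        apply nn_ext w.2.1 w'.2.1
        intro t
        constructor
        · intro ht
          have h2 := congrFun h ⟨t, w.2.2 t ht⟩
          exact h2.mp ht
        · intro ht
          have h2 := congrFun h ⟨t, w'.2.2 t ht⟩
          exact h2.mpr ht
      exact small_of_injective h1) E hE (by
        rintro π hπ w ⟨hw1, hw2⟩
        refine ⟨fun h => hw1 (ur_ac.1 h), fun t ht => ?_⟩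
        obtain ⟨s, rfl⟩ : ∃ s, ap π s = t := ⟨_, ac_inv' (OrderIso.refl Ao) π t⟩
        rw [← hx π hπ]
        exact mem_ac.2 (hw2 s (mem_ac.1 ht))) (ki x) (ki_wo x) (by
        rintro w ⟨hw1, hw2⟩ a ⟨u, hu, hk⟩
        obtain ⟨y, hy, hay⟩ := (U.ker_st (not_not.1 hw1)).1 hu
        obtain ⟨t, rfl, ht⟩ := ex_of_memN hy
        exact ki_mem (hw2 t ht) ⟨u, hay, hk⟩)
    exact ⟨z, h1, h2⟩
  infinity := by
    have h0 : ∃ e : VN, ¬ NN.ur e ∧ (∀ w, NN.mem w e ↔ w ∈ (∅ : Set VN)) ∧ ki e ⊆ (∅ : Set Ao) ∧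
        SuN ∅ e :=
      exists_setN ∅ inferInstance ∅ Set.finite_empty (fun _ _ x hx => hx.elim) ∅
        (WO.finite Set.finite_empty) (fun x hx => hx.elim)
    obtain ⟨e, he1, he2, he3, he4⟩ := h0
    have hs : ∀ x : VN, ∃ y, ¬ NN.ur y ∧ (∀ w, NN.mem w y ↔ w ∈ {w | NN.mem w x ∨ w = x}) ∧
        ki y ⊆ ki x ∧ (SuN ∅ x → SuN ∅ y) := by
      intro x
      obtain ⟨E, hE, hx⟩ := ex_su x
      have hsm : Small.{0} {w | NN.mem w x ∨ w = x} := by
        have h1 : {w | NN.mem w x ∨ w = x} = {w | NN.mem w x} ∪ {x} := rfl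
        rw [h1]
        have := small_memN x
        exact small_union _ _
      have hki : ∀ w ∈ {w | NN.mem w x ∨ w = x}, ki w ⊆ ki x := by
        rintro w (hw | rfl)
        · exact ki_mem hw
        · exact subset_rfl
      have hinv : ∀ E, SuN E x → ∀ π : Pm, Fx E π → ∀ w ∈ {w | NN.mem w x ∨ w = x},
          ac (OrderIso.refl Ao) π w ∈ {w | NN.mem w x ∨ w = x} := by
        intro E hx π hπ w hw
        rcases hw with hw | hw
        · left
          rw [← hx π hπ]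
          exact mem_ac.2 hw
        · right
          rw [hw]; exact hx π hπ
      by_cases h : SuN ∅ x
      · obtain ⟨y, h1, h2, h3, h4⟩ := exists_setN _ hsm ∅ Set.finite_empty (hinv ∅ h) (ki x)
          (ki_wo x) hki
        exact ⟨y, h1, h2, h3, fun _ => h4⟩
      · obtain ⟨y, h1, h2, h3, h4⟩ := exists_setN _ hsm E hE (hinv E hx) (ki x) (ki_wo x) hki
        exact ⟨y, h1, h2, h3, fun h' => absurd h' h⟩
    choose S hS1 hS2 hS3 hS4 using hs
    have hN : ∀ n : ℕ, ki (S^[n] e) ⊆ (∅ : Set Ao) ∧ SuN ∅ (S^[n] e) := by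
      intro n
      induction n with
      | zero => exact ⟨he3, he4⟩
      | succ n ih =>
        rw [Function.iterate_succ_apply']
        exact ⟨(hS3 _).trans ih.1, hS4 _ ih.2⟩
    obtain ⟨z, -, h2, -⟩ := exists_setN (Set.range (fun n : ℕ => S^[n] e)) inferInstance ∅
      Set.finite_empty (by
        rintro π hπ _ ⟨n, rfl⟩
        exact ⟨n, ((hN n).2 π hπ).symm⟩) ∅
      (WO.finite Set.finite_empty) (by rintro _ ⟨n, rfl⟩; exact (hN n).1)
    refine ⟨z, ⟨e, (h2 e).2 ⟨0, rfl⟩, he1, fun w hw => (he2 w).1 hw⟩, fun x hx => ?_⟩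
    obtain ⟨n, rfl⟩ := (h2 x).1 hx
    refine ⟨S^[n + 1] e, (h2 _).2 ⟨n + 1, rfl⟩, ?_, ?_⟩
    · rw [Function.iterate_succ_apply']; exact hS1 _
    · intro w
      rw [Function.iterate_succ_apply']
      exact hS2 _ w
  separation := by
    intro n φ v x
    obtain ⟨E, hE, hv⟩ := ex_su_fin v
    exact sub_set x _ E hE (fun π hπ w hw => ho_ac1 _ π (hv π hπ) hw)
  replacement := by
    intro n φ v x hF
    obtain ⟨E, hE, hv⟩ := ex_su_fin v
    obtain ⟨E', hE', hx⟩ := ex_su x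
    obtain ⟨K, hK1, hK2, hK3⟩ := ex_ki_fin v
    have := ki_small x
    obtain ⟨z, h1, h2, -⟩ := exists_setN {y | ∃ w, NN.mem w x ∧ Ho NN φ (Fin.cons w (Fin.cons y v))}
      (by
      classical
      have := small_memN x
      have h1 : {y | ∃ w, NN.mem w x ∧ Ho NN φ (Fin.cons w (Fin.cons y v))} ⊆
          Set.range (fun w : {w | NN.mem w x} =>
          if h : ∃ y, Ho NN φ (Fin.cons w.1 (Fin.cons y v)) then h.choose else w.1) := by
        rintro y ⟨w, hw, hy⟩
        have h2 : ∃ y, Ho NN φ (Fin.cons w (Fin.cons y v)) := ⟨y, hy⟩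
        refine ⟨⟨w, hw⟩, ?_⟩
        simp only [dif_pos h2]
        exact hF w hw _ _ h2.choose_spec hy
      exact small_subset h1) (E ∪ E') (hE.union hE') (by
        rintro π hπ y ⟨w, hw, hy⟩
        refine ⟨ap π w, ?_, ho_ac2 _ π (hv π (hπ.mono Set.subset_union_left)) hy⟩
        rw [← hx π (hπ.mono Set.subset_union_right)]
        exact mem_ac.2 hw) (K ∪ ki x) (hK1.union (ki_wo x)) (by
        rintro y ⟨w, hw, hy⟩
        exact ki_val (small_union _ _) (fun i => (hK3 i).trans Set.subset_union_left)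
          ((ki_mem hw).trans Set.subset_union_right) (fun y' hy' => hF w hw _ _ hy' hy) hy)
    exact ⟨z, h1, h2⟩

/-- the orbits under the permutations are small -/
theorem small_orb (x : VN) : Small.{0} (Set.range (fun π : Pm => ap π x)) := by
  classical
  have := ki_small x
  have h1 : Small.{0} (ki x → Equiv.Perm ℕ) := inferInstance
  have h2 : Set.range (fun π : Pm => ap π x) ⊆
      Set.range (fun q : ki x → Equiv.Perm ℕ =>
        ap (fun a => if h : a ∈ ki x then q ⟨a, h⟩ else Equiv.refl ℕ) x) := by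
    rintro _ ⟨π, rfl⟩
    refine ⟨fun a => π a.1, ?_⟩
    apply ac_congr
    intro a ha
    refine ⟨rfl, ?_⟩
    simp only [dif_pos ha]
  have h3 : Small.{0} (Set.range (fun q : ki x → Equiv.Perm ℕ =>
        ap (fun a => if h : a ∈ ki x then q ⟨a, h⟩ else Equiv.refl ℕ) x)) := small_range _
  exact small_subset h2

theorem coll : Coll NN := by
  intro n φ v x hx
  obtain ⟨K, hK1, hK2, hK3⟩ := ex_ki_fin v
  obtain ⟨j, hj⟩ := ao_enum
  have := ki_small x
  obtain ⟨T, hT⟩ : ∃ T : Set VN, T = {w | NN.mem w x} := ⟨_, rfl⟩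
  have hTs : Small.{0} T := hT ▸ small_memN x
  have hTw : ∀ w, w ∈ T ↔ NN.mem w x := fun w => by rw [hT]; rfl
  let I := Shrink.{0} T
  let xi : I → VN := fun i => ((equivShrink T).symm i).1
  have hxi : ∀ i, NN.mem (xi i) x := fun i => (hTw _).1 ((equivShrink T).symm i).2
  choose y hy using fun i => hx (xi i) (hxi i)
  obtain ⟨S, hS1, hS2, hS3, hS4⟩ := exists_univ ao_sat hj (K ∪ ki x) (hK1.union (ki_wo x))
    (small_union _ _) (fun i => ki (y i)) (fun i => ki_wo _) (fun i => ki_small _)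
  choose g hg1 hg2 using hS4
  have hfix : ∀ i, ∀ z : VN, ki z ⊆ K ∪ ki x → ac (g i) (fun _ => Equiv.refl ℕ) z = z :=
    fun i z hz => (ac_congr fun b hb => ⟨hg1 i b (hz hb), rfl⟩).trans ac_one
  obtain ⟨z, hz1, hz2, -⟩ := exists_setN
    (⋃ i, Set.range (fun π : Pm => ap π (ac (g i) (fun _ => Equiv.refl ℕ) (y i)))) (by
      have := fun i => small_orb (ac (g i) (fun _ => Equiv.refl ℕ) (y i))
      exact small_iUnion _) ∅ Set.finite_empty (by
      intro π _ w hw
      obtain ⟨i, π', rfl⟩ := Set.mem_iUnion.1 hw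
      refine Set.mem_iUnion.2 ⟨i, fun a => (π' a).trans (π a), ?_⟩
      exact (ac_ac (OrderIso.refl Ao) (OrderIso.refl Ao) π' π
        (ac (g i) (fun _ => Equiv.refl ℕ) (y i))).symm) S hS2 (by
      intro w hw
      obtain ⟨i, π', rfl⟩ := Set.mem_iUnion.1 hw
      simp only
      rw [ki_ap, ki_ac]
      rintro _ ⟨b, hb, rfl⟩
      exact hg2 i b hb)
  refine ⟨z, hz1, fun w hw => ?_⟩
  obtain ⟨i, hi⟩ : ∃ i, xi i = w := ⟨equivShrink T ⟨w, (hTw w).2 hw⟩, by
    simp only [xi, Equiv.symm_apply_apply]⟩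
  refine ⟨ac (g i) (fun _ => Equiv.refl ℕ) (y i), (hz2 _).2 (Set.mem_iUnion.2
    ⟨i, fun _ => Equiv.refl ℕ, ac_one⟩), ?_⟩
  have h1 := hy i
  rw [hi] at h1
  have h2 := ho_ac2 (g i) (fun _ => Equiv.refl ℕ)
    (by funext k; exact hfix i _ ((hK3 k).trans Set.subset_union_left)) h1
  rwa [hfix i w ((ki_mem hw).trans Set.subset_union_right)] at h2

end Q207.UR
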