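import Pool.Agent.Q207.UR.NL

namespace Q207.UR

/-- the types of a set of urelements -/
def Ty (x : VN) : Set Ao := {a | {k | ∃ u, NN.mem (uN u) x ∧ (a, k) ∈ pts u}.Infinite}

theorem tr_fix {E : Set (Ao × ℕ)} {a : Ao} {k l : ℕ} (hk : (a, k) ∉ E) (hl : (a, l) ∉ E) :
    Fx E (tr a k l) := by
  intro p hp
  refine tr_of (fun h => hk ?_) (fun h => hl ?_)
  · have : (a, k) = p := h.symm
    rw [this]; exact hp
  · have : (a, l) = p := h.symm
    rw [this]; exact hp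

theorem ty_of_gen {x : VN} {E : Set (Ao × ℕ)} (hE : E.Finite) (hEx : SuN E x) {u : Ur}
    (hu : NN.mem (uN u) x) {P : Ao × ℕ} (hP : P ∈ pts u) (hPE : P ∉ E) : P.1 ∈ Ty x := by
  obtain ⟨N, hN⟩ := exists_bound hE
  refine Set.Infinite.mono (s := {k | N ≤ k}) ?_ (Set.infinite_of_not_bddAbove ?_)
  · intro l hl
    have h1 : (P.1, l) ∉ E := fun h => by
      have := hN _ h
      simp only at this
      have h2 : N ≤ l := hl
      omega
    have h2 : Fx E (tr P.1 P.2 l) := tr_fix (k := P.2) hPE h1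
    refine ⟨gact (OrderIso.refl Ao) (tr P.1 P.2 l) u, ?_, ?_⟩
    · rw [← hEx _ h2]
      exact mem_ac.2 hu
    · refine mem_pts_gact.2 ⟨P, hP, ?_⟩
      rw [tr_self, Equiv.swap_apply_left]
      rfl
  · rintro ⟨M, hM⟩
    have := hM (show N + M + 1 ∈ {k | N ≤ k} by
      change N ≤ N + M + 1
      omega)
    omega

theorem gen_of_ty {x : VN} {E : Set (Ao × ℕ)} (hE : E.Finite) {a : Ao} (ha : a ∈ Ty x) :
    ∃ u, NN.mem (uN u) x ∧ ∃ P ∈ pts u, P ∉ E ∧ P.1 = a := by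
  have h1 : {k : ℕ | (a, k) ∈ E}.Finite := by
    refine (hE.image Prod.snd).subset ?_
    intro k hk
    exact ⟨(a, k), hk, rfl⟩
  obtain ⟨k, ⟨u, hu, hk⟩, hk'⟩ := (Set.Infinite.sdiff ha h1).nonempty
  exact ⟨u, hu, (a, k), hk, hk', rfl⟩

theorem link_ty {x y f : VN} (h : Lnk x y f) {a c : Ao} (ha : a ∈ Ty y) (hc : c ∈ Ty x) :
    a < c := by
  obtain ⟨E, hE, hEx⟩ := ex_su x
  obtain ⟨E', hE', hEf⟩ := ex_su f
  obtain ⟨p0, hp0, P, hP, hPE, rfl⟩ := gen_of_ty (hE.union hE') ha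
  obtain ⟨q0, hq0, Q, hQ, hQE, rfl⟩ := gen_of_ty (hE.union hE') hc
  exact (link_key h (hE.union hE') (hEx.mono Set.subset_union_left)
    (hEf.mono Set.subset_union_right) hp0 hq0 hP hPE hQ hQE).1

theorem ty_ne {x : VN} (hx : ∀ w, NN.mem w x → NN.ur w) (hi : {w | NN.mem w x}.Infinite) :
    (Ty x).Nonempty := by
  obtain ⟨E, hE, hEx⟩ := ex_su x
  obtain ⟨u, hu, P, hP, hPE⟩ := exists_gen hx hi hE
  exact ⟨P.1, ty_of_gen hE hEx hu hP hPE⟩

theorem ty_mono {x y : VN} (h : ∀ w, NN.mem w x → NN.mem w y) : Ty x ⊆ Ty y := by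
  intro a ha
  refine Set.Infinite.mono ?_ ha
  rintro k ⟨u, hu, hk⟩
  exact ⟨u, h _ hu, hk⟩

theorem ty_ki {x : VN} : Ty x ⊆ ki x := by
  intro a ha
  obtain ⟨k, u, hu, hk⟩ := ha.nonempty
  exact ki_mem hu (mem_ki_uN.2 ⟨k, hk⟩)

theorem ki_upN {x y : VN} : ki (upN x y) ⊆ ki x ∪ ki y := by
  rintro a ⟨u, hu, hk⟩
  obtain ⟨w, hw, hw'⟩ := (U.ker_st (not_not.1 upN_nur)).1 hu
  obtain ⟨t, rfl, ht⟩ := ex_of_memN hw
  rcases mem_upN.1 ht with rfl | rfl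
  · exact Or.inl ⟨u, hw', hk⟩
  · exact Or.inr ⟨u, hw', hk⟩

theorem ki_opN {x y : VN} {K : Set Ao} (hx : ki x ⊆ K) (hy : ki y ⊆ K) : ki (opN x y) ⊆ K :=
  ki_upN.trans (Set.union_subset (ki_upN.trans (Set.union_subset hx hx))
    (ki_upN.trans (Set.union_subset hx hy)))

theorem ki_qu {u p q r : VN} {K : Set Ao} (hu : ki u ⊆ K) (hp : ki p ⊆ K) (hq : ki q ⊆ K)
    (hr : ki r ⊆ K) : ki (qu u p q r) ⊆ K :=
  ki_opN hu (ki_opN hp (ki_opN hq hr))

theorem trD_top : TrD (fun _ => True) := fun _ _ _ _ => trivial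

theorem qu_inj {u p q r u' p' q' r' : VN} (h : qu u p q r = qu u' p' q' r') :
    u = u' ∧ p = p' ∧ q = q' ∧ r = r' := by
  obtain ⟨h1, h2⟩ := opN_inj h
  obtain ⟨h3, h4⟩ := opN_inj h2
  obtain ⟨h5, h6⟩ := opN_inj h4
  exact ⟨h1, h3, h5, h6⟩

theorem exists_link {y : VN} {E : Set (Ao × ℕ)} (hE : E.Finite) (hEy : SuN E y) {p0 : Ur}
    (hp0 : NN.mem (uN p0) y) {a : Ao} {k : ℕ} (hak : (a, k) ∈ pts p0) (hakE : (a, k) ∉ E)
    (hs : ∀ R ∈ pts p0, R ∉ E → R = (a, k)) {c : Ao} (hca : c < a) :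
    ∃ y' z, (∀ w, NN.mem w y' → NN.mem w y) ∧ LiD NN (fun _ => True) y' z := by
  obtain ⟨G, hG⟩ : ∃ G : ℕ → Ur, ∀ l, G l = gact (OrderIso.refl Ao) (tr a k l) p0 :=
    ⟨_, fun _ => rfl⟩
  have hGy : ∀ l, (a, l) ∉ E → NN.mem (uN (G l)) y := by
    intro l hl
    rw [← hEy _ (tr_fix hakE hl), hG]
    exact mem_ac.2 hp0
  have hnotE : ∀ π : Pm, Fx E π → ∀ l, (a, l) ∉ E → (a, π a l) ∉ E := by
    intro π hπ l hl h
    have h1 := hπ _ h
    simp only at h1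
    have h2 := (π a).injective h1
    rw [h2] at h
    exact hl h
  have hGeq : ∀ π : Pm, Fx E π → ∀ l, (a, l) ∉ E →
      gact (OrderIso.refl Ao) π (G l) = G (π a l) := by
    intro π hπ l hl
    rw [hG, hG, gact_gact]
    apply gact_congr
    intro p hp
    refine ⟨rfl, ?_⟩
    change π p.1 (tr a k l p.1 p.2) = tr a k (π a l) p.1 p.2
    by_cases hpE : p ∈ E
    · rw [tr_fix hakE hl p hpE, tr_fix hakE (hnotE π hπ l hl) p hpE, hπ p hpE]
    · rw [hs p hp hpE]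
      simp only
      rw [tr_self, tr_self, Equiv.swap_apply_left, Equiv.swap_apply_left]
  have hGpts : ∀ l, ∀ R ∈ pts (G l), R ∈ E ∨ R = (a, l) ∨ (a, l) ∈ E := by
    intro l R hR
    by_cases hl : (a, l) ∈ E
    · exact Or.inr (Or.inr hl)
    rw [hG] at hR
    obtain ⟨q, hq, hq'⟩ := mem_pts_gact.1 hR
    by_cases hqE : q ∈ E
    · left
      rw [tr_fix hakE hl q hqE] at hq'
      have : R = q := hq'
      rw [this]; exact hqE
    · right; left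
      rw [hs q hq hqE] at hq'
      simp only at hq'
      rw [tr_self, Equiv.swap_apply_left] at hq'
      exact hq'
  have hGmem : ∀ l, (a, l) ∈ pts (G l) := by
    intro l
    rw [hG]
    refine mem_pts_gact.2 ⟨(a, k), hak, ?_⟩
    simp only
    rw [tr_self, Equiv.swap_apply_left]
    rfl
  have hGinj : ∀ l l', (a, l) ∉ E → (a, l') ∉ E → G l = G l' → l = l' := by
    intro l l' hl hl' h
    have h1 := hGmem l'
    rw [← h] at h1
    rcases hGpts l _ h1 with h2 | h2 | h2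
    · exact absurd h2 hl'
    · exact (congrArg Prod.snd h2).symm
    · exact absurd h2 hl
  have hGki : ∀ l, ki (uN (G l)) ⊆ Prod.fst '' pts p0 := by
    intro l b hb
    obtain ⟨m, hm⟩ := mem_ki_uN.1 hb
    rw [hG] at hm
    obtain ⟨q, hq, hq'⟩ := mem_pts_gact.1 hm
    exact ⟨q, hq, (congrArg Prod.fst hq').symm⟩
  have hfinE : {l : ℕ | (a, l) ∈ E}.Finite := by
    refine (hE.image Prod.snd).subset ?_
    intro l hl
    exact ⟨(a, l), hl, rfl⟩
  -- the set `y'`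
  obtain ⟨y', hy'0, hy', -, -⟩ := exists_setN {w | ∃ l, (a, l) ∉ E ∧ w = uN (G l)} (by
      have h1 : {w | ∃ l, (a, l) ∉ E ∧ w = uN (G l)} ⊆ Set.range (fun l : ℕ => uN (G l)) := by
        rintro w ⟨l, -, rfl⟩; exact ⟨l, rfl⟩
      exact small_subset h1) E hE (by
      rintro π hπ w ⟨l, hl, rfl⟩
      refine ⟨π a l, hnotE π hπ l hl, ?_⟩
      rw [ac_uN, hGeq π hπ l hl]) (Prod.fst '' pts p0) (WO.finite ((pts_fin p0).image _)) (by
      rintro w ⟨l, hl, rfl⟩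
      exact hGki l)
  -- the block
  obtain ⟨z, hz0, hz, -, -⟩ := exists_setN (Set.range (fun m : ℕ => uN (.b c m))) inferInstance ∅
    Set.finite_empty (by
      rintro π - _ ⟨m, rfl⟩
      exact ⟨π c m, rfl⟩) {c} (WO.finite (Set.finite_singleton c)) (by
      rintro _ ⟨m, rfl⟩ b hb
      obtain ⟨j, hj⟩ := mem_ki_uN.1 hb
      exact congrArg Prod.fst (show (b, j) = (c, m) from hj))
  -- the linking function
  obtain ⟨f, hf0, hf, -, -⟩ := exists_setN {w | ∃ m l l' : ℕ, (a, l) ∉ E ∧ (a, l') ∉ E ∧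
      w = qu (uN (.d c a hca m l l')) (uN (.b c m)) (uN (G l)) (uN (G l'))} (by
      have h1 : {w | ∃ m l l' : ℕ, (a, l) ∉ E ∧ (a, l') ∉ E ∧
          w = qu (uN (.d c a hca m l l')) (uN (.b c m)) (uN (G l)) (uN (G l'))} ⊆
          Set.range (fun q : ℕ × ℕ × ℕ => qu (uN (.d c a hca q.1 q.2.1 q.2.2)) (uN (.b c q.1))
            (uN (G q.2.1)) (uN (G q.2.2))) := by
        rintro w ⟨m, l, l', -, -, rfl⟩
        exact ⟨(m, l, l'), rfl⟩
      exact small_subset h1) E hE (by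
      rintro π hπ w ⟨m, l, l', hl, hl', rfl⟩
      refine ⟨π c m, π a l, π a l', hnotE π hπ l hl, hnotE π hπ l' hl', ?_⟩
      rw [ac_qu, ac_uN, ac_uN, ac_uN, ac_uN, hGeq π hπ l hl, hGeq π hπ l' hl']
      rfl) ({c} ∪ ({a} ∪ Prod.fst '' pts p0)) (WO.finite ((Set.finite_singleton c).union
        ((Set.finite_singleton a).union ((pts_fin p0).image _)))) (by
      rintro w ⟨m, l, l', hl, hl', rfl⟩
      refine ki_qu ?_ ?_ ((hGki l).trans ?_) ((hGki l').trans ?_)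
      · intro b hb
        obtain ⟨j, hj⟩ := mem_ki_uN.1 hb
        rcases hj with hj | hj | hj
        · exact Or.inl (congrArg Prod.fst hj)
        · exact Or.inr (Or.inl (congrArg Prod.fst hj))
        · exact Or.inr (Or.inl (congrArg Prod.fst hj))
      · intro b hb
        obtain ⟨j, hj⟩ := mem_ki_uN.1 hb
        exact Or.inl (congrArg Prod.fst (show (b, j) = (c, m) from hj))
      · exact fun b hb => Or.inr (Or.inr hb)
      · exact fun b hb => Or.inr (Or.inr hb))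
  refine ⟨y', z, ?_, ?_, ?_, ?_, ?_, f, trivial, ?_, ?_⟩
  · intro w hw
    obtain ⟨l, hl, rfl⟩ := (hy' w).1 hw
    exact hGy l hl
  · intro w _ hw
    obtain ⟨l, hl, rfl⟩ := (hy' w).1 hw
    exact ur_uN _
  · intro w _ hw
    obtain ⟨l, rfl⟩ := (hz w).1 hw
    exact ur_uN _
  · apply inD_top
    have h1 : Set.InjOn (fun l => uN (G l)) {l | (a, l) ∈ E}ᶜ := by
      intro l hl l' hl' h
      exact hGinj l l' hl hl' (uN_inj.1 h)
    refine ((hfinE.infinite_compl).image h1).mono ?_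
    rintro _ ⟨l, hl, rfl⟩
    exact (hy' _).2 ⟨l, hl, rfl⟩
  · apply inD_top
    have h1 : Function.Injective (fun m : ℕ => uN (.b c m)) := by
      intro m m' h
      have h2 := uN_inj.1 h
      injection h2
    refine (Set.infinite_range_of_injective h1).mono ?_
    rintro _ ⟨m, rfl⟩
    exact (hz _).2 ⟨m, rfl⟩
  · intro p _ q _ r _ hp hq hr
    obtain ⟨m, rfl⟩ := (hz p).1 hp
    obtain ⟨l, hl, rfl⟩ := (hy' q).1 hq
    obtain ⟨l', hl', rfl⟩ := (hy' r).1 hr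
    refine ⟨uN (.d c a hca m l l'), trivial, ur_uN _, ?_⟩
    rw [quD_iff trD_top trivial trivial trivial trivial trivial, hf]
    exact ⟨m, l, l', hl, hl', rfl⟩
  · intro u _ p _ q _ r _ p' _ q' _ r' _ h1 h2
    rw [quD_iff trD_top trivial trivial trivial trivial trivial, hf] at h1 h2
    obtain ⟨m, l, l', hl, hl', h1⟩ := h1
    obtain ⟨n, j, j', hj, hj', h2⟩ := h2
    obtain ⟨a1, a2, a3, a4⟩ := qu_inj h1
    obtain ⟨b1, b2, b3, b4⟩ := qu_inj h2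
    rw [a1] at b1
    have h3 := uN_inj.1 b1
    injection h3 with _ _ e1 e2 e3
    subst e1; subst e2; subst e3
    exact ⟨a2.trans b2.symm, a3.trans b3.symm, a4.trans b4.symm⟩

theorem ao_below (a : Ao) : ∃ c, c < a := by
  obtain ⟨c, -, hc⟩ := ao_sat ∅ {a} inferInstance inferInstance (fun l hl => hl.elim)
  exact ⟨c, hc a rfl⟩

theorem ph_top : PhD NN (fun _ => True) := by
  constructor
  · obtain ⟨a, -⟩ := ao_sat ∅ ∅ inferInstance inferInstance (fun l hl => hl.elim)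
    obtain ⟨c, hc⟩ := ao_below a
    obtain ⟨z, hz0, hz, -, hz'⟩ := exists_setN (Set.range (fun m : ℕ => uN (.b a m))) inferInstance ∅
      Set.finite_empty (by
        rintro π - _ ⟨m, rfl⟩
        exact ⟨π a m, rfl⟩) {a} (WO.finite (Set.finite_singleton a)) (by
        rintro _ ⟨m, rfl⟩ b hb
        obtain ⟨j, hj⟩ := mem_ki_uN.1 hb
        exact congrArg Prod.fst (show (b, j) = (a, m) from hj))
    obtain ⟨y', z', -, h⟩ := exists_link Set.finite_empty hz' (p0 := .b a 0) ((hz _).2 ⟨0, rfl⟩)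
      (a := a) (k := 0) rfl (fun h => h) (fun R hR _ => hR) hc
    exact ⟨y', trivial, z', trivial, h⟩
  · intro x _ y _ h
    obtain ⟨f, hf⟩ := h.lnk trD_top trivial trivial
    obtain ⟨E1, hE1, h1⟩ := ex_su x
    obtain ⟨E2, hE2, h2⟩ := ex_su y
    obtain ⟨E3, hE3, h3⟩ := ex_su f
    obtain ⟨E, hE, hE1', hE2', hE3'⟩ : ∃ E : Set (Ao × ℕ), E.Finite ∧ E1 ⊆ E ∧ E2 ⊆ E ∧ E3 ⊆ E :=
      ⟨E1 ∪ (E2 ∪ E3), hE1.union (hE2.union hE3), Set.subset_union_left,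
        Set.subset_union_left.trans Set.subset_union_right,
        Set.subset_union_right.trans Set.subset_union_right⟩
    obtain ⟨p0, hp0, P, hP, hPE⟩ := exists_gen hf.uy hf.iy hE
    obtain ⟨q0, hq0, Q, hQ, hQE⟩ := exists_gen hf.ux hf.ix hE
    obtain ⟨-, h4, -⟩ := link_key hf hE (h1.mono hE1') (h3.mono hE3') hp0 hq0 hP hPE hQ hQE
    obtain ⟨c, hc⟩ := ao_below P.1
    obtain ⟨y', z, hy', hz⟩ := exists_link hE (h2.mono hE2') hp0 (a := P.1) (k := P.2) hP hPE h4 hc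
    exact ⟨y', trivial, fun w _ hw => hy' w hw, z, trivial, hz⟩

theorem ph_not {t : VN} (ht : IsTra NN t) : ¬ PhD NN (fun z => NN.mem z t) := by
  rintro ⟨⟨x, hx, y, hy, hxy⟩, h2⟩
  have hD : TrD (fun z => NN.mem z t) := fun a ha b hb => ht.2 a ha b hb
  obtain ⟨a, ⟨x, y, hx, hy, hxy, ha⟩, hmin⟩ := ki_wo t
    {a | ∃ x y, NN.mem x t ∧ NN.mem y t ∧ LiD NN (fun z => NN.mem z t) x y ∧ a ∈ Ty x} (by
      rintro a ⟨x, y, hx, -, -, ha⟩
      exact ki_mem hx (ty_ki ha)) (by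
      obtain ⟨f, hf⟩ := hxy.lnk hD hx hy
      obtain ⟨a, ha⟩ := ty_ne hf.ux hf.ix
      exact ⟨a, x, y, hx, hy, hxy, ha⟩)
  obtain ⟨f, hf⟩ := hxy.lnk hD hx hy
  obtain ⟨y', hy', hyy, z, hz, hyz⟩ := h2 x hx y hy hxy
  obtain ⟨f', hf'⟩ := hyz.lnk hD hy' hz
  obtain ⟨c, hc⟩ := ty_ne hf'.ux hf'.ix
  have h3 : c ∈ Ty y := ty_mono (fun w hw => hyy w (hD y' hy' w hw) hw) hc
  have h4 : c < a := link_ty hf h3 ha
  exact absurd (hmin c ⟨y', z, hy', hz, hyz, hc⟩) (not_le.2 h4)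

theorem not_rpm : ¬ RPm NN := by
  intro h
  obtain ⟨φ, hφ⟩ := Df.ph (S := NN)
  obtain ⟨t, ht, -, ht'⟩ := h φ (fun i => i.elim0) ((hφ _ _).2 ph_top)
  exact ph_not ht ((hφ _ _).1 ht')

theorem not_rp : ¬ RP NN := by
  intro h
  obtain ⟨φ, hφ⟩ := Df.ph (S := NN)
  obtain ⟨e, he⟩ : ∃ e, ¬ NN.ur e := by
    obtain ⟨z, ⟨e, -, h1, -⟩, -⟩ := zfu.infinity
    exact ⟨e, h1⟩
  obtain ⟨t, ht, -, ht'⟩ := h φ e he
  have h1 := (ht' (fun i => i.elim0) (fun i => i.elim0)).1 ((hφ _ _).2 ph_top)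
  exact ph_not ht ((hφ _ _).1 h1)

end Q207.UR
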