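import Pool.Agent.Q207.UR.Hom
import Pool.Agent.Q207.UR.Univ
import Pool.Agent.Q207.UR.NDefs

namespace Q207.UR

/-- the urelements of the second model: the blocks `b a` and the sets `d a c` (`a < c`) of triples -/
inductive Ur : Type 1
  | b (a : Ao) (k : ℕ) : Ur
  | d (a c : Ao) (h : a < c) (k l m : ℕ) : Ur

/-- the points on which a urelement depends -/
def pts : Ur → Set (Ao × ℕ)
  | .b a k => {(a, k)}
  | .d a c _ k l m => {(a, k), (c, l), (c, m)}

theorem pts_fin (u : Ur) : (pts u).Finite := by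
  cases u with
  | b a k => exact Set.finite_singleton _
  | d a c h k l m => exact (Set.finite_singleton _).insert _ |>.insert _

theorem pts_ne (u : Ur) : (pts u).Nonempty := by
  cases u with
  | b a k => exact ⟨_, rfl⟩
  | d a c h k l m => exact ⟨_, Or.inl rfl⟩

/-- the action of an automorphism of the order and of permutations of the blocks -/
noncomputable def gact (g : Ao ≃o Ao) (π : Ao → Equiv.Perm ℕ) : Ur → Ur
  | .b a k => .b (g a) (π a k)
  | .d a c h k l m => .d (g a) (g c) (g.strictMono h) (π a k) (π c l) (π c m)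

theorem mem_pts_gact {g : Ao ≃o Ao} {π : Ao → Equiv.Perm ℕ} {u : Ur} {p : Ao × ℕ} :
    p ∈ pts (gact g π u) ↔ ∃ q ∈ pts u, p = (g q.1, π q.1 q.2) := by
  cases u with
  | b a k =>
    constructor
    · intro h
      exact ⟨(a, k), rfl, h⟩
    · rintro ⟨q, hq, rfl⟩
      rw [show q = (a, k) from hq]
      exact rfl
  | d a c h k l m =>
    constructor
    · rintro (h1 | h1 | h1)
      · exact ⟨(a, k), Or.inl rfl, h1⟩
      · exact ⟨(c, l), Or.inr (Or.inl rfl), h1⟩
      · exact ⟨(c, m), Or.inr (Or.inr rfl), h1⟩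
    · rintro ⟨q, (rfl | rfl | rfl), rfl⟩
      · exact Or.inl rfl
      · exact Or.inr (Or.inl rfl)
      · exact Or.inr (Or.inr rfl)

theorem gact_gact (g g' : Ao ≃o Ao) (π π' : Ao → Equiv.Perm ℕ) (u : Ur) :
    gact g' π' (gact g π u) = gact (g.trans g') (fun a => (π a).trans (π' (g a))) u := by
  cases u <;> rfl

theorem gact_eq {g : Ao ≃o Ao} {π : Ao → Equiv.Perm ℕ} {u : Ur}
    (h : ∀ p ∈ pts u, g p.1 = p.1 ∧ π p.1 p.2 = p.2) : gact g π u = u := by
  cases u with
  | b a k =>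
    have h1 := h (a, k) rfl
    simp only [gact]
    rw [h1.1, h1.2]
  | d a c hac k l m =>
    have h1 := h (a, k) (Or.inl rfl)
    have h2 := h (c, l) (Or.inr (Or.inl rfl))
    have h3 := h (c, m) (Or.inr (Or.inr rfl))
    simp only [gact]
    simp only at h1 h2 h3
    congr 1
    · exact h1.1
    · exact h2.1
    · exact h1.2
    · exact h2.2
    · exact h3.2

theorem gact_congr {g g' : Ao ≃o Ao} {π π' : Ao → Equiv.Perm ℕ} {u : Ur}
    (h : ∀ p ∈ pts u, g p.1 = g' p.1 ∧ π p.1 p.2 = π' p.1 p.2) : gact g π u = gact g' π' u := by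
  cases u with
  | b a k =>
    have h1 := h (a, k) rfl
    simp only [gact]
    rw [h1.1, h1.2]
  | d a c hac k l m =>
    have h1 := h (a, k) (Or.inl rfl)
    have h2 := h (c, l) (Or.inr (Or.inl rfl))
    have h3 := h (c, m) (Or.inr (Or.inr rfl))
    simp only [gact]
    simp only at h1 h2 h3
    congr 1
    · exact h1.1
    · exact h2.1
    · exact h1.2
    · exact h2.2
    · exact h3.2

/-- the permutations of the second kind -/
abbrev Pm := Ao → Equiv.Perm ℕ

/-- `π` fixes the points of `E` -/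
def Fx (E : Set (Ao × ℕ)) (π : Pm) : Prop := ∀ p ∈ E, π p.1 p.2 = p.2

/-- `E` supports `x` -/
def Supp (E : Set (Ao × ℕ)) (x : U Ur) : Prop :=
  ∀ π : Pm, Fx E π → U.map (gact (OrderIso.refl Ao) π) x = x

/-- hereditarily finitely supported -/
inductive HS : U Ur → Prop
  | mk {x : U Ur} : (∃ E : Set (Ao × ℕ), E.Finite ∧ Supp E x) → (∀ y, U.Mem y x → HS y) → HS x

/-- the indices that occur in `x` -/
def ik (x : U Ur) : Set Ao := {a | ∃ u, U.Ker u x ∧ ∃ k, (a, k) ∈ pts u}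

theorem ik_small (x : U Ur) : Small.{0} (ik x) := by
  have := U.small_ker x
  have h1 : ik x ⊆ ⋃ u : {u | U.Ker u x}, Prod.fst '' pts u.1 := by
    rintro a ⟨u, hu, k, hk⟩
    exact Set.mem_iUnion.2 ⟨⟨u, hu⟩, (a, k), hk, rfl⟩
  have h2 : ∀ u : {u | U.Ker u x}, Small.{0} (Prod.fst '' pts u.1) := fun u => by
    have := ((pts_fin u.1).image Prod.fst).countable.to_subtype
    infer_instance
  have h3 : Small.{0} (⋃ u : {u | U.Ker u x}, Prod.fst '' pts u.1 : Set Ao) := small_iUnion _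
  exact small_subset h1

/-- the objects of the model -/
def VN : Type 1 := {x : U Ur // HS x ∧ WO (ik x)}

/-- the model -/
def NN : UStr VN where
  mem := fun x y => U.Mem x.1 y.1
  ur := fun x => ¬ U.IsSt x.1

/-- the index set of an object -/
def ki (x : VN) : Set Ao := ik x.1

theorem ki_wo (x : VN) : WO (ki x) := x.2.2

theorem ki_small (x : VN) : Small.{0} (ki x) := ik_small x.1

theorem ki_mem {x y : VN} (h : NN.mem x y) : ki x ⊆ ki y :=
  fun _ ⟨u, hu, hk⟩ => ⟨u, U.Ker.mem h hu, hk⟩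

theorem HS.map {x : U Ur} (h : HS x) (g : Ao ≃o Ao) (π : Pm) : HS (U.map (gact g π) x) := by
  induction h with
  | @mk x h1 h2 ih =>
  refine HS.mk ?_ ?_
  · obtain ⟨E, hE, hEx⟩ := h1
    refine ⟨(fun p : Ao × ℕ => (g p.1, π p.1 p.2)) '' E, hE.image _, fun π' hπ' => ?_⟩
    have h3 := hEx (fun a => ((π a).trans (π' (g a))).trans (π a).symm) (by
      intro p hp
      have := hπ' _ ⟨p, hp, rfl⟩
      simp only at this
      simp [this])
    conv_rhs => rw [← h3]
    rw [U.map_map, U.map_map]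
    apply U.map_congr
    intro u _
    simp only [Function.comp_apply]
    rw [gact_gact, gact_gact]
    apply gact_congr
    intro p _
    refine ⟨rfl, ?_⟩
    simp
  · intro y hy
    obtain ⟨z, hz, rfl⟩ := U.mem_map.1 hy
    exact ih z hz

theorem ik_map {g : Ao ≃o Ao} {π : Pm} {x : U Ur} : ik (U.map (gact g π) x) = g '' ik x := by
  ext a
  constructor
  · rintro ⟨u, hu, k, hk⟩
    obtain ⟨v, hv, rfl⟩ := U.ker_map.1 hu
    obtain ⟨q, hq, hq'⟩ := mem_pts_gact.1 hk
    refine ⟨q.1, ⟨v, hv, q.2, hq⟩, ?_⟩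
    exact (congrArg Prod.fst hq').symm
  · rintro ⟨c, ⟨v, hv, k, hk⟩, rfl⟩
    exact ⟨_, U.ker_map.2 ⟨v, hv, rfl⟩, π c k, mem_pts_gact.2 ⟨(c, k), hk, rfl⟩⟩

/-- the action on the objects -/
noncomputable def ac (g : Ao ≃o Ao) (π : Pm) (x : VN) : VN :=
  ⟨U.map (gact g π) x.1, x.2.1.map g π, by
    rw [ik_map]
    exact x.2.2.image g (fun a _ b _ hab => g.strictMono hab)⟩

theorem ac_ac (g g' : Ao ≃o Ao) (π π' : Pm) (x : VN) :
    ac g' π' (ac g π x) = ac (g.trans g') (fun a => (π a).trans (π' (g a))) x := by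
  apply Subtype.ext
  change U.map (gact g' π') (U.map (gact g π) x.1) = _
  rw [U.map_map]
  apply U.map_congr
  intro u _
  exact gact_gact _ _ _ _ _

theorem ac_congr {g g' : Ao ≃o Ao} {π π' : Pm} {x : VN}
    (h : ∀ a ∈ ki x, g a = g' a ∧ π a = π' a) : ac g π x = ac g' π' x := by
  apply Subtype.ext
  apply U.map_congr
  intro u hu
  apply gact_congr
  intro p hp
  have := h p.1 ⟨u, hu, p.2, hp⟩
  exact ⟨this.1, by rw [this.2]⟩

theorem ac_one {x : VN} : ac (OrderIso.refl Ao) (fun _ => Equiv.refl ℕ) x = x := by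
  apply Subtype.ext
  apply U.map_eq_self
  intro u _
  exact gact_eq (fun p _ => ⟨rfl, rfl⟩)

/-- the inverse permutations -/
noncomputable def inv (g : Ao ≃o Ao) (π : Pm) : Pm := fun a => (π (g.symm a)).symm

theorem ac_inv (g : Ao ≃o Ao) (π : Pm) (x : VN) : ac g.symm (inv g π) (ac g π x) = x := by
  rw [ac_ac]
  refine (ac_congr fun a _ => ?_).trans ac_one
  refine ⟨g.symm_apply_apply a, ?_⟩
  ext k
  simp [inv]

theorem ac_inv' (g : Ao ≃o Ao) (π : Pm) (x : VN) : ac g π (ac g.symm (inv g π) x) = x := by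
  rw [ac_ac]
  refine (ac_congr fun a _ => ?_).trans ac_one
  refine ⟨g.apply_symm_apply a, ?_⟩
  ext k
  simp [inv]

/-- the action as a permutation -/
noncomputable def eqN (g : Ao ≃o Ao) (π : Pm) : VN ≃ VN :=
  ⟨ac g π, ac g.symm (inv g π), ac_inv g π, ac_inv' g π⟩

theorem gact_inj (g : Ao ≃o Ao) (π : Pm) : Function.Injective (gact g π) := by
  have h1 : ∀ u, gact g.symm (inv g π) (gact g π u) = u := by
    intro u
    rw [gact_gact]
    apply gact_eq
    intro p _
    refine ⟨g.symm_apply_apply _, ?_⟩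
    simp [inv]
  exact Function.LeftInverse.injective h1

theorem mem_ac {g : Ao ≃o Ao} {π : Pm} {x y : VN} : NN.mem (ac g π x) (ac g π y) ↔ NN.mem x y :=
  U.mem_map_iff (gact_inj g π)

theorem ur_ac {g : Ao ≃o Ao} {π : Pm} {x : VN} : NN.ur (ac g π x) ↔ NN.ur x :=
  not_congr U.isSt_map

theorem tru_aut {V : Type 1} (S : UStr V) (e : V ≃ V)
    (h1 : ∀ x y, S.mem (e x) (e y) ↔ S.mem x y) (h2 : ∀ x, S.ur (e x) ↔ S.ur x) :
    ∀ {n : ℕ} (φ : UF n) (v : Fin n → V), Ho S φ (fun i => e (v i)) ↔ Ho S φ v := by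
  intro n φ
  induction φ with
  | eq i j => intro v; exact e.injective.eq_iff
  | mem i j => intro v; exact h1 _ _
  | ur i => intro v; exact h2 _
  | bot => intro v; exact Iff.rfl
  | imp φ ψ ih1 ih2 => intro v; exact imp_congr (ih1 v) (ih2 v)
  | all φ ih =>
    intro v
    constructor
    · intro h x _
      have h6 := ih (Fin.cons x v)
      refine h6.1 ?_
      have h4 := h (e x) trivial
      have h5 : (fun i => e ((Fin.cons x v : Fin _ → V) i)) =
          (Fin.cons (e x) (fun i => e (v i)) : Fin _ → V) := by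
        funext i
        refine Fin.cases ?_ (fun i => ?_) i <;> simp
      rw [h5]; exact h4
    · intro h x _
      have h4 := (ih (Fin.cons (e.symm x) v)).2 (h (e.symm x) trivial)
      have h5 : (fun i => e ((Fin.cons (e.symm x) v : Fin _ → V) i)) =
          (Fin.cons x (fun i => e (v i)) : Fin _ → V) := by
        funext i
        refine Fin.cases ?_ (fun i => ?_) i <;> simp
      rw [h5] at h4; exact h4

theorem ho_ac (g : Ao ≃o Ao) (π : Pm) {n : ℕ} (φ : UF n) (v : Fin n → VN) :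
    Ho NN φ (fun i => ac g π (v i)) ↔ Ho NN φ v :=
  tru_aut NN (eqN g π) (fun _ _ => mem_ac) (fun _ => ur_ac) φ v

theorem small_memN (x : VN) : Small.{0} {w | NN.mem w x} := by
  have := U.small_mem x.1
  have h1 : Function.Injective (fun w : {w | NN.mem w x} => (⟨w.1.1, w.2⟩ : {y | U.Mem y x.1})) := by
    intro w w' h
    have h2 : w.1.1 = w'.1.1 := congrArg (fun t : {y | U.Mem y x.1} => t.1) h
    exact Subtype.ext (Subtype.ext h2)
  exact small_of_injective h1

theorem ex_of_memN {x : VN} {y : U Ur} (h : U.Mem y x.1) : ∃ w : VN, w.1 = y ∧ NN.mem w x := by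
  have h1 : HS y := by
    obtain ⟨-, h2⟩ := x.2.1
    exact h2 y h
  refine ⟨⟨y, h1, x.2.2.mono ?_⟩, rfl, h⟩
  rintro a ⟨u, hu, hk⟩
  exact ⟨u, U.Ker.mem h hu, hk⟩

/-- the underlying object -/
def vn (x : VN) : U Ur := x.1

theorem nn_ext {x y : VN} (hx : ¬ NN.ur x) (hy : ¬ NN.ur y) (h : ∀ z, NN.mem z x ↔ NN.mem z y) :
    x = y := by
  apply Subtype.ext
  apply U.ext (not_not.1 hx) (not_not.1 hy)
  intro z
  constructor
  · intro hz
    obtain ⟨w, rfl, hw⟩ := ex_of_memN hz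
    exact (h w).1 hw
  · intro hz
    obtain ⟨w, rfl, hw⟩ := ex_of_memN hz
    exact (h w).2 hw

/-- `E` supports the object `x` of the model -/
def SuN (E : Set (Ao × ℕ)) (x : VN) : Prop :=
  ∀ π : Pm, Fx E π → ac (OrderIso.refl Ao) π x = x

theorem ex_su (x : VN) : ∃ E : Set (Ao × ℕ), E.Finite ∧ SuN E x := by
  obtain ⟨h1, -⟩ := x.2.1
  obtain ⟨E, hE, hE'⟩ := h1
  exact ⟨E, hE, fun π hπ => Subtype.ext (hE' π hπ)⟩

theorem SuN.mono {E E' : Set (Ao × ℕ)} {x : VN} (h : SuN E x) (hE : E ⊆ E') : SuN E' x :=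
  fun π hπ => h π (fun p hp => hπ p (hE hp))

theorem exists_setN (s : Set VN) (hs : Small.{0} s) (E : Set (Ao × ℕ)) (hE : E.Finite)
    (hEs : ∀ π : Pm, Fx E π → ∀ x ∈ s, ac (OrderIso.refl Ao) π x ∈ s) (K : Set Ao) (hK : WO K)
    (h : ∀ x ∈ s, ki x ⊆ K) :
    ∃ z : VN, ¬ NN.ur z ∧ (∀ w, NN.mem w z ↔ w ∈ s) ∧ ki z ⊆ K ∧ SuN E z := by
  have hs' : Small.{0} (vn '' s : Set (U Ur)) := small_image vn s
  have h1 : ik (U.st _ hs') ⊆ K := by
    rintro a ⟨u, hu, hk⟩
    obtain ⟨y, hy, hay⟩ := (U.ker_st U.isSt_st).1 hu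
    obtain ⟨w, hw, rfl⟩ := U.mem_st.1 hy
    exact h w hw ⟨u, hay, hk⟩
  have h2 : Supp E (U.st _ hs') := by
    intro π hπ
    have hsub : ∀ π : Pm, Fx E π → ∀ z, U.Mem z (U.map (gact (OrderIso.refl Ao) π) (U.st _ hs')) →
        U.Mem z (U.st _ hs') := by
      intro π hπ z hz
      obtain ⟨w, hw, rfl⟩ := U.mem_map.1 hz
      obtain ⟨x, hx, rfl⟩ := U.mem_st.1 hw
      exact U.mem_st.2 ⟨_, hEs π hπ x hx, rfl⟩
    apply U.ext (U.isSt_map.2 U.isSt_st) U.isSt_st
    intro z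
    refine ⟨hsub π hπ z, fun hz => ?_⟩
    have h3 := hsub (fun a => (π a).symm) (by
      intro p hp
      rw [Equiv.symm_apply_eq]
      exact (hπ p hp).symm) (U.map (gact (OrderIso.refl Ao) (fun a => (π a).symm)) z)
      (U.mem_map.2 ⟨z, hz, rfl⟩)
    refine U.mem_map.2 ⟨_, h3, ?_⟩
    rw [U.map_map]
    apply U.map_eq_self
    intro u _
    simp only [Function.comp_apply]
    rw [gact_gact]
    apply gact_eq
    intro p _
    refine ⟨rfl, ?_⟩
    simp
  refine ⟨⟨U.st _ hs', HS.mk ⟨E, hE, h2⟩ ?_, hK.mono h1⟩, fun h => h U.isSt_st, fun w => ?_, h1,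
    fun π hπ => Subtype.ext (h2 π hπ)⟩
  · intro y hy
    obtain ⟨w, hw, rfl⟩ := U.mem_st.1 hy
    exact w.2.1
  · change U.Mem w.1 (U.st _ hs') ↔ w ∈ s
    rw [U.mem_st]
    constructor
    · rintro ⟨w', hw', h2⟩
      rwa [Subtype.ext h2.symm]
    · intro hw
      exact ⟨w, hw, rfl⟩

end Q207.UR
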