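import Mathlib

namespace Q207.UR

open Classical in
/-- the largest element of a set of elements of `Fin 3` -/
noncomputable def mx (S : Set (Fin 3)) : Fin 3 := if 2 ∈ S then 2 else if 1 ∈ S then 1 else 0

theorem le_mx {S : Set (Fin 3)} {s : Fin 3} (hs : s ∈ S) : s ≤ mx S := by
  unfold mx
  split_ifs with h1 h2
  · exact Fin.le_last s
  · by_contra h
    have : s = 2 := by omega
    exact h1 (this ▸ hs)
  · by_contra h
    have : s = 2 ∨ s = 1 := by omega
    rcases this with h3 | h3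
    · exact h1 (h3 ▸ hs)
    · exact h2 (h3 ▸ hs)

theorem mx_mem {S : Set (Fin 3)} (hS : S.Nonempty) : mx S ∈ S := by
  unfold mx
  split_ifs with h1 h2
  · exact h1
  · exact h2
  · obtain ⟨s, hs⟩ := hS
    have : s = 2 ∨ s = 1 ∨ s = 0 := by omega
    rcases this with h3 | h3 | h3
    · exact absurd (h3 ▸ hs) h1
    · exact absurd (h3 ▸ hs) h2
    · exact h3 ▸ hs

theorem mx_empty {S : Set (Fin 3)} (hS : ¬ S.Nonempty) : mx S = 0 := by
  unfold mx
  rw [if_neg (fun h => hS ⟨_, h⟩), if_neg (fun h => hS ⟨_, h⟩)]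

/-- the saturated order -/
def Ao : Type 1 := {f : Lex (Ordinal.{0} → Fin 3) // ∃ α, ∀ β ≥ α, ofLex f β = 1}

noncomputable instance : LinearOrder Ao :=
  inferInstanceAs (LinearOrder {f : Lex (Ordinal.{0} → Fin 3) // ∃ α, ∀ β ≥ α, ofLex f β = 1})

theorem ao_lt {a b : Ao} : a < b ↔ ∃ i, (∀ j < i, ofLex a.1 j = ofLex b.1 j) ∧
    ofLex a.1 i < ofLex b.1 i := Iff.rfl

theorem ao_sat (L R : Set Ao) (hL : Small.{0} L) (hR : Small.{0} R)
    (h : ∀ l ∈ L, ∀ r ∈ R, l < r) : ∃ x : Ao, (∀ l ∈ L, l < x) ∧ ∀ r ∈ R, x < r := by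
  classical
  have hb : ∀ S : Set Ao, Small.{0} S → ∃ α, ∀ s ∈ S, ∀ β ≥ α, ofLex s.1 β = 1 := by
    intro S hS
    obtain ⟨α, hα⟩ := Ordinal.bddAbove_of_small (s := Set.range (fun s : S => s.1.2.choose))
    exact ⟨α, fun s hs β hβ => s.2.choose_spec β ((hα ⟨⟨s, hs⟩, rfl⟩).trans hβ)⟩
  obtain ⟨α1, hα1⟩ := hb L hL
  obtain ⟨α2, hα2⟩ := hb R hR
  obtain ⟨α, hαL, hαR⟩ : ∃ α, (∀ s ∈ L, ∀ β ≥ α, ofLex s.1 β = 1) ∧
      ∀ s ∈ R, ∀ β ≥ α, ofLex s.1 β = 1 :=
    ⟨max α1 α2, fun s hs β hβ => hα1 s hs β ((le_max_left _ _).trans hβ),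
      fun s hs β hβ => hα2 s hs β ((le_max_right _ _).trans hβ)⟩
  obtain ⟨x, hx⟩ : ∃ x : Ordinal.{0} → Fin 3, ∀ β, x β =
      if β < α then mx {v | ∃ l ∈ L, (∀ γ < β, ofLex l.1 γ = x γ) ∧ ofLex l.1 β = v}
      else if β = α then (if ∃ l ∈ L, ∀ γ < α, ofLex l.1 γ = x γ then 2 else 0) else 1 := by
    let x : Ordinal.{0} → Fin 3 := WellFounded.fix (wellFounded_lt (α := Ordinal.{0}))
      (fun β ih => if β < α then
        mx {v | ∃ l ∈ L, (∀ γ, ∀ hγ : γ < β, ofLex l.1 γ = ih γ hγ) ∧ ofLex l.1 β = v}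
      else if β = α then
        (if ∃ l ∈ L, ∀ γ, ∀ hγ : γ < β, ofLex l.1 γ = ih γ hγ then 2 else 0) else 1)
    refine ⟨x, fun β => ?_⟩
    have h1 : x β = _ := WellFounded.fix_eq _ _ β
    rw [h1]
    by_cases hβ : β = α
    · subst hβ; rfl
    · simp only [if_neg hβ]; rfl
  refine ⟨⟨toLex x, α + 1, fun β hβ => ?_⟩, ?_, ?_⟩
  · have h1 : α < β := lt_of_lt_of_le (lt_add_one α) hβ
    change x β = 1
    rw [hx, if_neg (not_lt.2 h1.le), if_neg h1.ne']
  · intro l hl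
    apply ao_lt.2
    by_cases h1 : ∀ γ < α, ofLex l.1 γ = x γ
    · refine ⟨α, h1, ?_⟩
      change ofLex l.1 α < x α
      rw [hx, if_neg (lt_irrefl α), if_pos rfl, if_pos ⟨l, hl, h1⟩, hαL l hl α le_rfl]
      decide
    · push Not at h1
      obtain ⟨γ, ⟨hγ, hγ'⟩, hmin⟩ := WellFounded.has_min (wellFounded_lt (α := Ordinal.{0}))
        {γ | γ < α ∧ ofLex l.1 γ ≠ x γ} h1
      have h2 : ∀ δ < γ, ofLex l.1 δ = x δ := by
        intro δ hδ
        by_contra hne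
        exact hmin δ ⟨hδ.trans hγ, hne⟩ hδ
      refine ⟨γ, h2, lt_of_le_of_ne ?_ hγ'⟩
      change ofLex l.1 γ ≤ x γ
      rw [hx γ, if_pos hγ]
      exact le_mx ⟨l, hl, h2, rfl⟩
  · intro r hr
    apply ao_lt.2
    by_cases h1 : ∀ γ < α, ofLex r.1 γ = x γ
    · refine ⟨α, fun j hj => (h1 j hj).symm, ?_⟩
      change x α < ofLex r.1 α
      have h2 : ¬ ∃ l ∈ L, ∀ γ < α, ofLex l.1 γ = x γ := by
        rintro ⟨l, hl, hlx⟩
        obtain ⟨i, hi, hi'⟩ := ao_lt.1 (h l hl r hr)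
        rcases lt_or_ge i α with h3 | h3
        · rw [hlx i h3, h1 i h3] at hi'
          exact lt_irrefl _ hi'
        · rw [hαL l hl i h3, hαR r hr i h3] at hi'
          exact lt_irrefl _ hi'
      rw [hx, if_neg (lt_irrefl α), if_pos rfl, if_neg h2, hαR r hr α le_rfl]
      decide
    · push Not at h1
      obtain ⟨γ, ⟨hγ, hγ'⟩, hmin⟩ := WellFounded.has_min (wellFounded_lt (α := Ordinal.{0}))
        {γ | γ < α ∧ ofLex r.1 γ ≠ x γ} h1
      have h2 : ∀ δ < γ, ofLex r.1 δ = x δ := by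
        intro δ hδ
        by_contra hne
        exact hmin δ ⟨hδ.trans hγ, hne⟩ hδ
      refine ⟨γ, fun j hj => (h2 j hj).symm, lt_of_le_of_ne ?_ (Ne.symm hγ')⟩
      change x γ ≤ ofLex r.1 γ
      rw [hx γ, if_pos hγ]
      by_cases hne : {v | ∃ l ∈ L, (∀ δ < γ, ofLex l.1 δ = x δ) ∧ ofLex l.1 γ = v}.Nonempty
      · obtain ⟨l, hl, hl1, hl2⟩ := mx_mem hne
        rw [← hl2]
        by_contra hcon
        push Not at hcon
        have h3 : r < l := ao_lt.2 ⟨γ, fun j hj => by rw [h2 j hj, hl1 j hj], hcon⟩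
        exact lt_asymm h3 (h l hl r hr)
      · rw [mx_empty hne]
        exact Fin.zero_le _

theorem ao_enum : ∃ j : Ao → Ordinal.{0}, Function.Injective j := by
  classical
  have h1 : Cardinal.mk Ao ≤ Cardinal.mk Ordinal.{0} := by
    let f : Ao → Σ α : Ordinal.{0}, (Set.Iio α → Fin 3) :=
      fun a => ⟨a.2.choose, fun β => ofLex a.1 β.1⟩
    have hf : Function.Injective f := by
      intro a b hab
      have h2 : a.2.choose = b.2.choose := congrArg Sigma.fst hab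
      have h3 : ∀ β < a.2.choose, ofLex a.1 β = ofLex b.1 β := by
        intro β hβ
        have h4 := (Sigma.mk.inj_iff.1 hab).2
        have h5 : ∀ (x y : Ordinal.{0}) (hxy : x = y) (p : Set.Iio x → Fin 3)
            (q : Set.Iio y → Fin 3), p ≍ q → ∀ β, ∀ (h : β < x) (h' : β < y),
              p ⟨β, h⟩ = q ⟨β, h'⟩ := by
          rintro x y rfl p q hpq β h h'
          rw [eq_of_heq hpq]
        exact h5 _ _ h2 _ _ h4 β hβ (h2 ▸ hβ)
      apply Subtype.ext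
      apply ofLex.injective
      funext β
      rcases lt_or_ge β a.2.choose with h4 | h4
      · exact h3 β h4
      · rw [a.2.choose_spec β h4, b.2.choose_spec β (h2 ▸ h4)]
    refine (Cardinal.mk_le_of_injective hf).trans ?_
    rw [Cardinal.mk_sigma]
    have h2 : ∀ α : Ordinal.{0}, Cardinal.mk (Set.Iio α → Fin 3) ≤ Cardinal.mk Ordinal.{0} := by
      intro α
      have h3 : Cardinal.mk (Set.Iio α → Fin 3) = Cardinal.lift.{1}
          (Cardinal.mk (Shrink.{0} (Set.Iio α) → Fin 3)) := by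
        have h4 : (Set.Iio α → Fin 3) ≃ (Shrink.{0} (Set.Iio α) → Fin 3) :=
          (equivShrink.{0} (Set.Iio α)).arrowCongr (Equiv.refl _)
        have h5 := Cardinal.lift_mk_eq'.2 ⟨h4⟩
        rw [Cardinal.lift_id'] at h5
        exact h5
      rw [h3, Cardinal.mk_ordinal]
      exact (Cardinal.lift_lt_univ' _).le
    refine (Cardinal.sum_le_sum _ (fun _ => Cardinal.mk Ordinal.{0}) h2).trans ?_
    rw [Cardinal.sum_const', Cardinal.mul_eq_self]
    exact Cardinal.aleph0_le_mk _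
  obtain ⟨j⟩ := h1
  exact ⟨j, j.injective⟩

end Q207.UR
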